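import Mathlib

/-!
# Classification of the coefficients (scalar part)
-/

namespace Pool.Agent.AW3

section

variable {K : Type*} [Field K]

/-- Two affine functions of `(x, y)` with product `1` at the six points `(x_i, x_{i+1})`,
`(x_{i+1}, x_i)` of the conic `x^2 - β x y + y^2 - γ (x + y) - ρ = 0`. -/
theorem conic {β γ ρ x0 x1 x2 x3 a0 a1 a2 b0 b1 b2 : K}
    (h01 : x0 ^ 2 - β * x0 * x1 + x1 ^ 2 - γ * (x0 + x1) - ρ = 0)
    (h12 : x1 ^ 2 - β * x1 * x2 + x2 ^ 2 - γ * (x1 + x2) - ρ = 0)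
    (h23 : x2 ^ 2 - β * x2 * x3 + x3 ^ 2 - γ * (x2 + x3) - ρ = 0)
    (n01 : x0 ≠ x1) (n12 : x1 ≠ x2) (n02 : x0 ≠ x2) (n13 : x1 ≠ x3)
    (p01 : (a0 + a1 * x0 + a2 * x1) * (b0 + b1 * x0 + b2 * x1) = 1)
    (p10 : (a0 + a1 * x1 + a2 * x0) * (b0 + b1 * x1 + b2 * x0) = 1)
    (p12 : (a0 + a1 * x1 + a2 * x2) * (b0 + b1 * x1 + b2 * x2) = 1)
    (p21 : (a0 + a1 * x2 + a2 * x1) * (b0 + b1 * x2 + b2 * x1) = 1)
    (p23 : (a0 + a1 * x2 + a2 * x3) * (b0 + b1 * x2 + b2 * x3) = 1) :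
    a2 * b2 = a1 * b1 ∧ a1 * b2 + a2 * b1 = -β * (a1 * b1) ∧
      a0 * b1 + a1 * b0 = -γ * (a1 * b1) ∧ a0 * b2 + a2 * b0 = -γ * (a1 * b1) ∧
      a0 * b0 - 1 = -ρ * (a1 * b1) := by
  have s01 : (a1 * b1 - a2 * b2) * (x0 + x1)
      + ((a0 * b1 + a1 * b0) - (a0 * b2 + a2 * b0)) = 0 := by
    apply mul_left_cancel₀ (sub_ne_zero.2 n01)
    linear_combination p01 - p10
  have s12 : (a1 * b1 - a2 * b2) * (x1 + x2)
      + ((a0 * b1 + a1 * b0) - (a0 * b2 + a2 * b0)) = 0 := by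
    apply mul_left_cancel₀ (sub_ne_zero.2 n12)
    linear_combination p12 - p21
  have k1 : a1 * b1 - a2 * b2 = 0 := by
    apply mul_left_cancel₀ (sub_ne_zero.2 n02)
    linear_combination s01 - s12
  have k2 : (a0 * b1 + a1 * b0) - (a0 * b2 + a2 * b0) = 0 := by
    linear_combination s01 - (x0 + x1) * k1
  -- the difference with the multiple of the conic
  have t01 : ((a1 * b2 + a2 * b1) + β * (a1 * b1)) * (x0 * x1)
      + ((a0 * b1 + a1 * b0) + γ * (a1 * b1)) * (x0 + x1)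
      + (a0 * b0 - 1 + ρ * (a1 * b1)) = 0 := by
    linear_combination p01 - (a1 * b1) * h01 + x1 ^ 2 * k1 + x1 * k2
  have t12 : ((a1 * b2 + a2 * b1) + β * (a1 * b1)) * (x1 * x2)
      + ((a0 * b1 + a1 * b0) + γ * (a1 * b1)) * (x1 + x2)
      + (a0 * b0 - 1 + ρ * (a1 * b1)) = 0 := by
    linear_combination p12 - (a1 * b1) * h12 + x2 ^ 2 * k1 + x2 * k2
  have t23 : ((a1 * b2 + a2 * b1) + β * (a1 * b1)) * (x2 * x3)
      + ((a0 * b1 + a1 * b0) + γ * (a1 * b1)) * (x2 + x3)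
      + (a0 * b0 - 1 + ρ * (a1 * b1)) = 0 := by
    linear_combination p23 - (a1 * b1) * h23 + x3 ^ 2 * k1 + x3 * k2
  have r1 : ((a1 * b2 + a2 * b1) + β * (a1 * b1)) * x1
      + ((a0 * b1 + a1 * b0) + γ * (a1 * b1)) = 0 := by
    apply mul_left_cancel₀ (sub_ne_zero.2 n02)
    linear_combination t01 - t12
  have r2 : ((a1 * b2 + a2 * b1) + β * (a1 * b1)) * x2
      + ((a0 * b1 + a1 * b0) + γ * (a1 * b1)) = 0 := by
    apply mul_left_cancel₀ (sub_ne_zero.2 n13)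
    linear_combination t12 - t23
  have q1 : (a1 * b2 + a2 * b1) + β * (a1 * b1) = 0 := by
    apply mul_left_cancel₀ (sub_ne_zero.2 n12)
    linear_combination r1 - r2
  have q2 : (a0 * b1 + a1 * b0) + γ * (a1 * b1) = 0 := by
    linear_combination r1 - x1 * q1
  refine ⟨by linear_combination -k1, by linear_combination q1, by linear_combination q2,
    by linear_combination q2 - k2, ?_⟩
  linear_combination t01 - (x0 * x1) * q1 - (x0 + x1) * q2

/-- If `a1 ≠ 0` then `κ = a1 b1 ≠ 0`. -/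
theorem kappa_ne {β γ ρ a0 a1 a2 b0 b1 b2 : K} (ha : a1 ≠ 0)
    (h1 : a2 * b2 = a1 * b1) (h2 : a1 * b2 + a2 * b1 = -β * (a1 * b1))
    (h3 : a0 * b1 + a1 * b0 = -γ * (a1 * b1)) (h5 : a0 * b0 - 1 = -ρ * (a1 * b1)) :
    b1 ≠ 0 ∧ a2 ≠ 0 ∧ b2 ≠ 0 := by
  have hb : b1 ≠ 0 := by
    intro hb
    rw [hb] at h1 h2 h3 h5
    have hb2 : b2 = 0 := by
      apply mul_left_cancel₀ ha
      linear_combination h2
    have hb0 : b0 = 0 := by
      apply mul_left_cancel₀ ha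
      linear_combination h3
    rw [hb0] at h5
    simp at h5
  have h6 : a2 * b2 ≠ 0 := by
    rw [h1]; exact mul_ne_zero ha hb
  exact ⟨hb, left_ne_zero_of_mul h6, right_ne_zero_of_mul h6⟩

/-- If `a1 = 0` then `a2 = 0`. -/
theorem a2_zero {γ ρ a0 a1 a2 b0 b1 b2 : K} (ha : a1 = 0)
    (h1 : a2 * b2 = a1 * b1) (h4 : a0 * b2 + a2 * b0 = -γ * (a1 * b1))
    (h5 : a0 * b0 - 1 = -ρ * (a1 * b1)) : a2 = 0 := by
  by_contra h
  rw [ha] at h1 h4 h5
  have hb2 : b2 = 0 := by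
    apply mul_left_cancel₀ h
    linear_combination h1
  have hb0 : b0 = 0 := by
    apply mul_left_cancel₀ h
    linear_combination h4 - a0 * hb2
  rw [hb0] at h5
  simp at h5

set_option linter.unusedVariables false in
theorem cls {β γ γs ρ ρs e1 e2 e3 e4 f2 f3 f4 h2 h3 h4 x0 x1 x2 s0 s1 s2 : K}
    (hx : x2 = β * x1 - x0 + γ) (hs : s2 = β * s1 - s0 + γs)
    (c1 : e4 * f3 = e3 * f4) (c2 : e3 * f3 + e4 * f4 = -β * (e3 * f4))
    (c3 : e2 * f4 + e3 * f2 = -γ * (e3 * f4)) (c4 : e2 * f3 + e4 * f2 = -γ * (e3 * f4))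
    (c5 : e2 * f2 - 1 = -ρ * (e3 * f4))
    (d1 : e3 * h4 = e4 * h3) (d2 : e4 * h4 + e3 * h3 = -β * (e4 * h3))
    (d3 : e1 * h3 + e4 * h2 = -γs * (e4 * h3)) (d4 : e1 * h4 + e3 * h2 = -γs * (e4 * h3))
    (d5 : e1 * h2 - 1 = -ρs * (e4 * h3))
    (hA : (e3 + e4) * γs = (β - 2) * e1) (hAs : (e3 + e4) * γ = (β - 2) * e2)
    (hc : (2 : K) = 0 → β = 0 → e3 + e4 = 0 → f3 + f4 = 0 → e3 ≠ 0 → f4 ≠ 0 → False)
    (hz : e3 = 0 → e4 = 0 → β = 2 → e1 * γ = e2 * γs) :
    ∃ p q : K, p * q = 1 ∧ p + q = β ∧ e4 = -(q * e3) ∧ (1 - q) * e2 = q * γ * e3 ∧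
      (1 - q) * e1 = q * γs * e3 ∧
      (e1 + e3 * s0 + e4 * s1) * (x2 - (1 + p) * x1 + p * x0)
        = (e2 + e3 * x0 + e4 * x1) * (s2 - (1 + p) * s1 + p * s0) := by
  by_cases h0 : e3 = 0
  · have h4' : e4 = 0 := a2_zero h0 c1 c4 c5
    have he2 : e2 ≠ 0 := by
      intro h
      rw [h, h0] at c5
      simp at c5
    have hβ : β = 2 := by
      rw [h0, h4'] at hAs
      have : (β - 2) * e2 = 0 := by rw [← hAs]; ring
      rcases mul_eq_zero.1 this with h | h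
      · linear_combination h
      · exact absurd h he2
    refine ⟨1, 1, by ring, by rw [hβ]; norm_num, by rw [h4', h0]; ring,
      by rw [h0]; ring, by rw [h0]; ring, ?_⟩
    have := hz h0 h4' hβ
    rw [h0, h4', hx, hs, hβ]
    linear_combination this
  · obtain ⟨hf4, he4, hf3⟩ := kappa_ne h0 c1 c2 c3 c5
    obtain ⟨hh3, -, hh4⟩ := kappa_ne he4 d1 d2 d3 d5
    obtain ⟨q, hq⟩ : ∃ q : K, q = -e4 / e3 := ⟨_, rfl⟩
    obtain ⟨p, hp⟩ : ∃ p : K, p = -e3 / e4 := ⟨_, rfl⟩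
    have hpq : p * q = 1 := by rw [hp, hq]; field_simp
    have hq4 : e4 = -(q * e3) := by rw [hq]; field_simp
    have hβ : p + q = β := by
      have h : (p + q - β) * (e3 * f4 * e4) = 0 := by
        have e1' : p * e4 = -e3 := by rw [hp]; field_simp
        have e2' : q * e3 = -e4 := by rw [hq]; field_simp
        linear_combination (e3 * f4) * e1' + (f4 * e4) * e2' - e4 * c2 + e3 * c1
      rcases mul_eq_zero.1 h with h | h
      · linear_combination h
      · exact absurd h (mul_ne_zero (mul_ne_zero h0 hf4) he4)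
    by_cases hq1 : q = 1
    · have hp1 : p = 1 := by rw [hq1, mul_one] at hpq; exact hpq
      have h34 : e4 = -e3 := by rw [hq4, hq1]; ring
      have hf34 : f3 = -f4 := by
        apply mul_left_cancel₀ he4
        rw [c1, h34]; ring
      have hh34 : h4 = -h3 := by
        apply mul_left_cancel₀ h0
        rw [d1, h34]; ring
      have htwo : (2 : K) ≠ 0 := by
        intro htwo
        apply hc htwo (by rw [← hβ, hp1, hq1]; linear_combination htwo) (by rw [h34]; ring)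
          (by rw [hf34]; ring) h0 hf4
      have hγ : γ = 0 := by
        have h : (2 * (e3 * f4)) * γ = 0 := by
          rw [h34, hf34] at c4
          linear_combination c3 + c4
        exact (mul_eq_zero.1 h).resolve_left
          (mul_ne_zero htwo (mul_ne_zero h0 hf4))
      have hγs : γs = 0 := by
        have h : (2 * (e4 * h3)) * γs = 0 := by
          rw [hh34] at d4
          have h5 : e4 + e3 = 0 := by rw [h34]; ring
          linear_combination d3 + d4 - h2 * h5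
        exact (mul_eq_zero.1 h).resolve_left
          (mul_ne_zero htwo (mul_ne_zero he4 hh3))
      refine ⟨p, q, hpq, hβ, hq4, by rw [hq1, hγ]; ring, by rw [hq1, hγs]; ring, ?_⟩
      rw [hx, hs, ← hβ, hp1, hq1, hγ, hγs]
      ring
    · have hq1' : 1 - q ≠ 0 := sub_ne_zero.2 (Ne.symm hq1)
      have k1 : (1 - q) * e2 = q * γ * e3 := by
        apply mul_left_cancel₀ hq1'
        rw [hq4, ← hβ] at hAs
        linear_combination -q * hAs + (-e2) * hpq
      have k2 : (1 - q) * e1 = q * γs * e3 := by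
        apply mul_left_cancel₀ hq1'
        rw [hq4, ← hβ] at hA
        linear_combination -q * hA + (-e1) * hpq
      refine ⟨p, q, hpq, hβ, hq4, k1, k2, ?_⟩
      apply mul_left_cancel₀ hq1'
      rw [hx, hs, hq4, ← hβ]
      linear_combination ((p + q) * x1 - x0 + γ - (1 + p) * x1 + p * x0) * k2
        - ((p + q) * s1 - s0 + γs - (1 + p) * s1 + p * s0) * k1
        - e3 * (s0 * ((p + q) * x1 - x0 + γ - (1 + p) * x1 + p * x0)
          - x0 * ((p + q) * s1 - s0 + γs - (1 + p) * s1 + p * s0)) * hpq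

end

end Pool.Agent.AW3
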