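import Pool.Agent.helper39.AW3.Defs

/-!
# Flags from one Askey-Wilson relation

`flag_step`: induction on `j` (strong, two steps).  Put `r j = (A ^ j) r` and
`W j = span (r k : k < j)`; `A` maps `W j` into `W (j + 1)`.  Apply the relation to `r j`:
`C (r (j+2)) = β A C (r (j+1)) - A A C (r j) + γ (A C (r j) + C (r (j+1))) + ρ C (r j)
  + γe r (j+2) + ω r (j+1) + η r j`.  With `C (r j) ∈ μ j • r j + W j` and
`C (r (j+1)) ∈ μ (j+1) • r (j+1) + W (j+1)` the right side lies in
`(β μ (j+1) - μ j + γe) • r (j+2) + W (j+2)`.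
`flag_li`: if `r 0, …, r d` were dependent then some `r j` (`j ≤ d`) would lie in `W j`, so `W j`
is `A`-invariant and `C`-invariant, nonzero (it contains `r`; `j ≥ 1` as `r ≠ 0`), hence `⊤`; but
`W j` is spanned by `j ≤ d` vectors and `finrank = d + 1`.
`flag_charpoly`: the matrix of `C` in the basis `r 0, …, r d` is upper triangular with diagonal
`μ j`; use `Matrix.charpoly_of_upperTriangular` and `LinearMap.charpoly_toMatrix`.
`hess_of_flag`: let `w` be the eigenbasis.  By induction `r j` lies in `span (w 0, …, w j)`: write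
`r j = ∑ t_i w_i`; `(C - μ j) (r j) = ∑ t_i (μ i - μ j) w_i` lies in `W j ⊆ span (w 0, …,
w (j-1))`, so `t_i = 0` for `i > j`.  Moreover `t_j ≠ 0` (else `r 0, …, r j` would be `j + 1`
independent vectors in a space of dimension `j`), so `w j ∈ span (r 0, …, r j)` and
`A (w j) ∈ span (r 0, …, r (j+1)) ⊆ span (w 0, …, w (j+1))`.
-/

namespace Pool.Agent.AW3

open Module

variable {K V : Type*} [Field K] [AddCommGroup V] [Module K V]

section

variable {A C : V →ₗ[K] V} {β γ ρ γe ω η : K} {r : V} {μ : ℕ → K} {d : ℕ}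

private theorem Flag_mem (A : V →ₗ[K] V) (r : V) {k j : ℕ} (h : k < j) :
    (A ^ k) r ∈ Submodule.span K (Set.range fun k : Fin j => (A ^ (k : ℕ)) r) :=
  Submodule.subset_span ⟨⟨k, h⟩, rfl⟩

private theorem Flag_ind (A : V →ₗ[K] V) (r : V) {j : ℕ} (S : Submodule K V)
    (h : ∀ k, k < j → (A ^ k) r ∈ S) :
    Submodule.span K (Set.range fun k : Fin j => (A ^ (k : ℕ)) r) ≤ S := by
  rw [Submodule.span_le]
  rintro _ ⟨k, rfl⟩
  exact h k k.2

private theorem Flag_mono (A : V →ₗ[K] V) (r : V) {j l : ℕ} (h : j ≤ l) :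
    Submodule.span K (Set.range fun k : Fin j => (A ^ (k : ℕ)) r) ≤
      Submodule.span K (Set.range fun k : Fin l => (A ^ (k : ℕ)) r) :=
  Flag_ind A r _ fun _ hk => Flag_mem A r (hk.trans_le h)

private theorem Flag_pow (A : V →ₗ[K] V) (r : V) (k : ℕ) : A ((A ^ k) r) = (A ^ (k + 1)) r := by
  rw [pow_succ', Module.End.mul_apply]

private theorem Flag_map (A : V →ₗ[K] V) (r : V) {j : ℕ} {x : V}
    (h : x ∈ Submodule.span K (Set.range fun k : Fin j => (A ^ (k : ℕ)) r)) :
    A x ∈ Submodule.span K (Set.range fun k : Fin (j + 1) => (A ^ (k : ℕ)) r) := by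
  have h1 := Flag_ind A r (j := j) ((Submodule.span K (Set.range fun k : Fin (j + 1) =>
    (A ^ (k : ℕ)) r)).comap A) (fun k hk => by
      rw [Submodule.mem_comap, Flag_pow]
      exact Flag_mem A r (by omega))
  exact h1 h

theorem flag_step
    (hR : A * A * C - β • (A * C * A) + C * A * A - γ • (A * C + C * A) - ρ • C
      = γe • (A * A) + ω • A + η • (1 : V →ₗ[K] V))
    (hμ : ∀ j, μ (j + 2) = β * μ (j + 1) - μ j + γe)
    (h0 : C r = μ 0 • r) (h1 : ∃ κ : K, C (A r) = μ 1 • A r + κ • r) (j : ℕ) :
    C ((A ^ j) r) - μ j • (A ^ j) r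
      ∈ Submodule.span K (Set.range fun k : Fin j => (A ^ (k : ℕ)) r) := by
  induction j using Nat.twoStepInduction with
  | zero =>
    rw [pow_zero, Module.End.one_apply, h0, sub_self]
    exact Submodule.zero_mem _
  | one =>
    obtain ⟨κ, hκ⟩ := h1
    rw [pow_one, hκ, add_sub_cancel_left]
    apply Submodule.smul_mem
    have := Flag_mem A r (k := 0) (j := 1) (by omega)
    rwa [pow_zero, Module.End.one_apply] at this
  | more j ih0 ih1 =>
    have hR1 := congrArg (fun f : V →ₗ[K] V => f ((A ^ j) r)) hR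
    simp only [LinearMap.sub_apply, LinearMap.add_apply, LinearMap.smul_apply,
      Module.End.mul_apply, Module.End.one_apply, Flag_pow] at hR1
    set r0 := (A ^ j) r with hr0
    set r1 := (A ^ (j + 1)) r with hr1
    have hr01 : A r0 = r1 := Flag_pow A r j
    have hr2 : (A ^ (j + 2)) r = A r1 := (Flag_pow A r (j + 1)).symm
    have hr2' : (A ^ (j + 1 + 1)) r = A r1 := hr2
    rw [hr2'] at hR1
    rw [hr2]
    have hw0 := Flag_map A r ih0
    have hw00 := Flag_map A r hw0
    have hw1 := Flag_map A r ih1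
    have key : C (A r1) - μ (j + 2) • A r1 =
        β • A (C r1 - μ (j + 1) • r1) - A (A (C r0 - μ j • r0)) +
        γ • ((μ j + μ (j + 1)) • r1 + A (C r0 - μ j • r0) + (C r1 - μ (j + 1) • r1)) +
        ρ • (μ j • r0 + (C r0 - μ j • r0)) + ω • r1 + η • r0 := by
      rw [hμ j]
      simp only [map_sub, map_smul, hr01]
      linear_combination (norm := module) hR1
    rw [key]
    have m0 : r0 ∈ Submodule.span K (Set.range fun k : Fin (j + 2) => (A ^ (k : ℕ)) r) :=
      Flag_mem A r (by omega)
    have m1 : r1 ∈ Submodule.span K (Set.range fun k : Fin (j + 2) => (A ^ (k : ℕ)) r) :=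
      Flag_mem A r (by omega)
    have n0 := Flag_mono A r (show j ≤ j + 2 by omega) ih0
    have n1 := Flag_mono A r (show j + 1 ≤ j + 2 by omega) ih1
    have n2 := Flag_mono A r (show j + 1 ≤ j + 2 by omega) hw0
    refine Submodule.add_mem _ (Submodule.add_mem _ (Submodule.add_mem _ (Submodule.add_mem _
      (Submodule.sub_mem _ (Submodule.smul_mem _ _ hw1) hw00) (Submodule.smul_mem _ _
      (Submodule.add_mem _ (Submodule.add_mem _ (Submodule.smul_mem _ _ m1) n2) n1)))
      (Submodule.smul_mem _ _ (Submodule.add_mem _ (Submodule.smul_mem _ _ m0) n0)))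
      (Submodule.smul_mem _ _ m1)) (Submodule.smul_mem _ _ m0)

theorem flag_li [Module.Finite K V] (hV : finrank K V = d + 1)
    (hC : ∀ j, C ((A ^ j) r) - μ j • (A ^ j) r
      ∈ Submodule.span K (Set.range fun k : Fin j => (A ^ (k : ℕ)) r))
    (hr : r ≠ 0)
    (hirr : ∀ U : Submodule K V, (∀ x ∈ U, A x ∈ U) → (∀ x ∈ U, C x ∈ U) → U ≠ ⊥ → U = ⊤) :
    LinearIndependent K (fun k : Fin (d + 1) => (A ^ (k : ℕ)) r) := by
  have key : ∀ m, m ≤ d →
      (A ^ m) r ∉ Submodule.span K (Set.range fun k : Fin m => (A ^ (k : ℕ)) r) := by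
    intro m hm hmem
    have hm0 : 0 < m := by
      rcases Nat.eq_zero_or_pos m with h | h
      · subst h
        rw [Set.range_eq_empty, Submodule.span_empty, Submodule.mem_bot, pow_zero,
          Module.End.one_apply] at hmem
        exact absurd hmem hr
      · exact h
    have hA : ∀ x ∈ Submodule.span K (Set.range fun k : Fin m => (A ^ (k : ℕ)) r),
        A x ∈ Submodule.span K (Set.range fun k : Fin m => (A ^ (k : ℕ)) r) := by
      intro x hx
      refine (Flag_ind A r (j := m) ((Submodule.span K (Set.range fun k : Fin m =>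
        (A ^ (k : ℕ)) r)).comap A) (fun k hk => ?_)) hx
      rw [Submodule.mem_comap, Flag_pow]
      rcases Nat.lt_or_ge (k + 1) m with h | h
      · exact Flag_mem A r h
      · have : k + 1 = m := by omega
        rw [this]
        exact hmem
    have hCi : ∀ x ∈ Submodule.span K (Set.range fun k : Fin m => (A ^ (k : ℕ)) r),
        C x ∈ Submodule.span K (Set.range fun k : Fin m => (A ^ (k : ℕ)) r) := by
      intro x hx
      refine (Flag_ind A r (j := m) ((Submodule.span K (Set.range fun k : Fin m =>
        (A ^ (k : ℕ)) r)).comap C) (fun k hk => ?_)) hx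
      rw [Submodule.mem_comap]
      have h1 := Submodule.add_mem _ (Flag_mono A r hk.le (hC k))
        (Submodule.smul_mem _ (μ k) (Flag_mem A r hk))
      rwa [sub_add_cancel] at h1
    have hne : Submodule.span K (Set.range fun k : Fin m => (A ^ (k : ℕ)) r) ≠ ⊥ := by
      intro h
      have h1 := Flag_mem A r hm0
      rw [h, Submodule.mem_bot, pow_zero, Module.End.one_apply] at h1
      exact hr h1
    have htop := hirr _ hA hCi hne
    have hle : finrank K (Submodule.span K (Set.range fun k : Fin m => (A ^ (k : ℕ)) r)) ≤ m := by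
      have := finrank_range_le_card (R := K) (fun k : Fin m => (A ^ (k : ℕ)) r)
      rwa [Fintype.card_fin] at this
    rw [htop, finrank_top, hV] at hle
    omega
  have hind : ∀ m, m ≤ d + 1 → LinearIndependent K (fun k : Fin m => (A ^ (k : ℕ)) r) := by
    intro m
    induction m with
    | zero => intro _; exact linearIndependent_empty_type
    | succ m ih =>
      intro hm
      rw [linearIndependent_fin_succ']
      refine ⟨?_, ?_⟩
      · exact ih (by omega)
      · exact key m (by omega)
  exact hind (d + 1) le_rfl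

private theorem Flag_repr {ι : Type*} (A : V →ₗ[K] V) (r : V) (b : Basis ι K V) {j : ℕ} {i : ι}
    (h : ∀ k, k < j → b.repr ((A ^ k) r) i = 0) {x : V}
    (hx : x ∈ Submodule.span K (Set.range fun k : Fin j => (A ^ (k : ℕ)) r)) :
    b.repr x i = 0 := by
  have h1 := Flag_ind A r (j := j) (LinearMap.ker (b.coord i)) (fun k hk => by
    rw [LinearMap.mem_ker, Basis.coord_apply]
    exact h k hk) hx
  rwa [LinearMap.mem_ker, Basis.coord_apply] at h1

theorem flag_charpoly [Module.Finite K V] (hV : finrank K V = d + 1)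
    (hC : ∀ j, C ((A ^ j) r) - μ j • (A ^ j) r
      ∈ Submodule.span K (Set.range fun k : Fin j => (A ^ (k : ℕ)) r))
    (hli : LinearIndependent K (fun k : Fin (d + 1) => (A ^ (k : ℕ)) r)) :
    C.charpoly = ∏ j ∈ Finset.range (d + 1), (Polynomial.X - Polynomial.C (μ j)) := by
  obtain ⟨b, hb⟩ : ∃ b : Basis (Fin (d + 1)) K V, ∀ k : Fin (d + 1), b k = (A ^ (k : ℕ)) r :=
    ⟨basisOfLinearIndependentOfCardEqFinrank hli (by rw [Fintype.card_fin, hV]), fun k => by
      rw [coe_basisOfLinearIndependentOfCardEqFinrank]⟩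
  have hrepr : ∀ i j : Fin (d + 1), j ≤ i → b.repr (C (b j)) i = if i = j then μ j else 0 := by
    intro i j hij
    have h1 : b.repr (C (b j) - μ j • b j) i = 0 := by
      apply Flag_repr A r b (j := j) (x := C (b j) - μ j • b j)
      · intro k hk
        have h2 : b ⟨k, by omega⟩ = (A ^ k) r := hb _
        rw [← h2, Basis.repr_self, Finsupp.single_apply, if_neg]
        intro h
        rw [Fin.ext_iff] at h
        rw [Fin.le_def] at hij
        simp only at h
        omega
      · rw [hb]
        exact hC j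
    rw [map_sub, map_smul, Finsupp.sub_apply, Finsupp.smul_apply, Basis.repr_self, sub_eq_zero,
      Finsupp.single_apply] at h1
    rw [h1]
    by_cases h : i = j
    · rw [if_pos h, if_pos h.symm, smul_eq_mul, mul_one]
    · rw [if_neg h, if_neg (fun h' => h h'.symm), smul_zero]
  have hT : (LinearMap.toMatrix b b C).BlockTriangular id := by
    intro i j hij
    simp only [id] at hij
    rw [LinearMap.toMatrix_apply, hrepr i j hij.le, if_neg hij.ne']
  rw [← LinearMap.charpoly_toMatrix C b, Matrix.charpoly_of_upperTriangular _ hT,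
    Finset.prod_range]
  apply Finset.prod_congr rfl
  intro i _
  rw [LinearMap.toMatrix_apply, hrepr i i le_rfl, if_pos rfl]

theorem hess_of_flag [Module.Finite K V] (hV : finrank K V = d + 1)
    (hC : ∀ j, C ((A ^ j) r) - μ j • (A ^ j) r
      ∈ Submodule.span K (Set.range fun k : Fin j => (A ^ (k : ℕ)) r))
    (hli : LinearIndependent K (fun k : Fin (d + 1) => (A ^ (k : ℕ)) r))
    (hμ : ∀ i j, i ≤ d → j ≤ d → μ i = μ j → i = j)
    (w : Basis (Fin (d + 1)) K V) (hw : ∀ i : Fin (d + 1), C (w i) = μ i • w i)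
    (i j : Fin (d + 1)) (hij : (j : ℕ) + 1 < i) : LinearMap.toMatrix w w A i j = 0 := by
  obtain ⟨b, hb⟩ : ∃ b : Basis (Fin (d + 1)) K V, ∀ k : Fin (d + 1), b k = (A ^ (k : ℕ)) r :=
    ⟨basisOfLinearIndependentOfCardEqFinrank hli (by rw [Fintype.card_fin, hV]), fun k => by
      rw [coe_basisOfLinearIndependentOfCardEqFinrank]⟩
  -- coordinates of `C x` in the eigenbasis
  have hCw : ∀ (x : V) (i : Fin (d + 1)), w.repr (C x) i = μ i * w.repr x i := by
    intro x i
    have h1 : (w.coord i) ∘ₗ C = μ i • w.coord i := by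
      apply w.ext
      intro k
      rw [LinearMap.comp_apply, hw, map_smul, LinearMap.smul_apply, Basis.coord_apply,
        Basis.repr_self, Finsupp.single_apply, smul_eq_mul, smul_eq_mul]
      by_cases h : k = i
      · rw [h]
      · rw [if_neg h, mul_zero, mul_zero]
    have h2 := LinearMap.congr_fun h1 x
    rwa [LinearMap.comp_apply, LinearMap.smul_apply, Basis.coord_apply, Basis.coord_apply,
      smul_eq_mul] at h2
  have h1 : ∀ j, j ≤ d → ∀ i : Fin (d + 1), j < i → w.repr ((A ^ j) r) i = 0 := by
    intro j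
    induction j using Nat.strong_induction_on with
    | _ j ih =>
      intro hj i hi
      have h2 : w.repr (C ((A ^ j) r) - μ j • (A ^ j) r) i = 0 :=
        Flag_repr A r w (fun k hk => ih k hk (by omega) i (by omega)) (hC j)
      rw [map_sub, map_smul, Finsupp.sub_apply, Finsupp.smul_apply, hCw, smul_eq_mul,
        ← sub_mul] at h2
      rcases mul_eq_zero.1 h2 with h3 | h3
      · have h4 := hμ i j (by omega) hj (sub_eq_zero.1 h3)
        omega
      · exact h3
  have hCW : ∀ (m : ℕ) (x : V),
      x ∈ Submodule.span K (Set.range fun k : Fin m => (A ^ (k : ℕ)) r) →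
      C x ∈ Submodule.span K (Set.range fun k : Fin m => (A ^ (k : ℕ)) r) := by
    intro m x hx
    refine (Flag_ind A r (j := m) ((Submodule.span K (Set.range fun k : Fin m =>
      (A ^ (k : ℕ)) r)).comap C) (fun k hk => ?_)) hx
    rw [Submodule.mem_comap]
    have h1 := Submodule.add_mem _ (Flag_mono A r hk.le (hC k))
      (Submodule.smul_mem _ (μ k) (Flag_mem A r hk))
    rwa [sub_add_cancel] at h1
  have hbW : ∀ (m : ℕ) (x : V), x ∈ Submodule.span K (Set.range fun k : Fin m =>
      (A ^ (k : ℕ)) r) → ∀ i : Fin (d + 1), m ≤ i → b.repr x i = 0 := by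
    intro m x hx i hi
    apply Flag_repr A r b (j := m) (fun k hk => ?_) hx
    have h2 : b ⟨k, by omega⟩ = (A ^ k) r := hb _
    rw [← h2, Basis.repr_self, Finsupp.single_apply, if_neg]
    intro h
    rw [Fin.ext_iff] at h
    simp only at h
    omega
  -- coordinates of the eigenvector `w j` in the basis `b`
  have h5 : ∀ m : ℕ, ∀ i : Fin (d + 1), d + 1 - m ≤ i → (j : ℕ) < i → b.repr (w j) i = 0 := by
    intro m
    induction m with
    | zero =>
      intro i hi hji
      omega
    | succ m ih =>
      intro i hi hji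
      have h6 : w j - b.repr (w j) i • b i ∈
          Submodule.span K (Set.range fun k : Fin i => (A ^ (k : ℕ)) r) := by
        have h7 : w j - b.repr (w j) i • b i =
            ∑ k ∈ Finset.univ.erase i, b.repr (w j) k • b k := by
          rw [Finset.sum_erase_eq_sub (Finset.mem_univ i), b.sum_repr]
        rw [h7]
        apply Submodule.sum_mem
        intro k hk
        have hki : k ≠ i := Finset.ne_of_mem_erase hk
        rcases Nat.lt_or_ge (k : ℕ) i with h | h
        · rw [hb]
          exact Submodule.smul_mem _ _ (Flag_mem A r h)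
        · have hlt : (i : ℕ) < k := lt_of_le_of_ne h (fun h' => hki (Fin.ext h'.symm))
          rw [ih k (by omega) (by omega), zero_smul]
          exact Submodule.zero_mem _
      have h8 := hbW i _ (hCW i _ h6) i le_rfl
      have h9 := hbW i _ (hC i) i le_rfl
      rw [← hb i, map_sub, map_smul, Finsupp.sub_apply, Finsupp.smul_apply, Basis.repr_self,
        Finsupp.single_eq_same, smul_eq_mul, mul_one, sub_eq_zero] at h9
      rw [map_sub, map_smul, hw, map_sub, map_smul, map_smul, Finsupp.sub_apply,
        Finsupp.smul_apply, Finsupp.smul_apply, h9, smul_eq_mul, smul_eq_mul, mul_comm,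
        ← mul_sub] at h8
      rcases mul_eq_zero.1 h8 with h10 | h10
      · exact h10
      · have h11 := hμ j i (by omega) (by omega) (sub_eq_zero.1 h10)
        omega
  have h12 : w j ∈ Submodule.span K (Set.range fun k : Fin (j + 1) => (A ^ (k : ℕ)) r) := by
    rw [← b.sum_repr (w j)]
    apply Submodule.sum_mem
    intro k _
    rcases Nat.lt_or_ge (k : ℕ) (j + 1) with h | h
    · rw [hb]
      exact Submodule.smul_mem _ _ (Flag_mem A r h)
    · rw [h5 (d + 1) k (by omega) (by omega), zero_smul]
      exact Submodule.zero_mem _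
  rw [LinearMap.toMatrix_apply]
  exact Flag_repr A r w (fun k hk => h1 k (by omega) i (by omega)) (Flag_map A r h12)

end

end Pool.Agent.AW3
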