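import Mathlib

/-!
# The sequences `[i]_p` and `S_i`
-/

namespace Pool.Agent.AW3

/-- `br p i = 1 + p + … + p ^ (i - 1)`. -/
def br {K : Type*} [Field K] (p : K) : ℕ → K
  | 0 => 0
  | n + 1 => 1 + p * br p n

/-- `ss p q 0 = 0`, `ss p q (i + 1) = br p i + q * ss p q i` (used with `q = 1 / p`). -/
def ss {K : Type*} [Field K] (p q : K) : ℕ → K
  | 0 => 0
  | n + 1 => br p n + q * ss p q n

section

variable {K : Type*} [Field K] (p q : K)

@[simp] theorem br_zero : br p 0 = 0 := rfl
theorem br_succ (n : ℕ) : br p (n + 1) = 1 + p * br p n := rfl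
@[simp] theorem br_one : br p 1 = 1 := by simp [br]
@[simp] theorem ss_zero : ss p q 0 = 0 := rfl
theorem ss_succ (n : ℕ) : ss p q (n + 1) = br p n + q * ss p q n := rfl
@[simp] theorem ss_one : ss p q 1 = 0 := by simp [ss]

theorem pow_eq (i : ℕ) : p ^ i = 1 - (1 - p) * br p i := by
  induction i with
  | zero => simp
  | succ n ih => rw [pow_succ, ih, br_succ]; ring

theorem br_succ' (i : ℕ) : br p (i + 1) = br p i + p ^ i := by
  rw [pow_eq, br_succ]; ring

variable {p q}

/-- `(1 + p) p ^ i S_i = p [i] ([i] - 1)`. -/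
theorem ss_rel (hpq : p * q = 1) (i : ℕ) :
    (1 + p) * p ^ i * ss p q i = p * br p i * (br p i - 1) := by
  induction i with
  | zero => simp
  | succ n ih =>
    rw [ss_succ, pow_succ, br_succ]
    have h1 := pow_eq p n
    have : (1 + p) * (p ^ n * p) * (br p n + q * ss p q n)
        = (1 + p) * p ^ n * p * br p n + (p * q) * ((1 + p) * p ^ n * ss p q n) := by ring
    rw [this, ih, hpq, h1]
    ring

/-- Solution of a three-term recurrence with constant term. -/
theorem rec_sol (hpq : p * q = 1) {N : ℕ} {f : ℕ → K} {κ : K}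
    (h : ∀ i, i + 2 ≤ N → f (i + 2) = (p + q) * f (i + 1) - f i + κ) (i : ℕ) (hi : i ≤ N) :
    f i = f 0 + (f 1 - f 0) * br p i
      + (κ + (q - 1) * f 1 + (p - 1) * f 0) * ss p q i := by
  induction i using Nat.strong_induction_on with
  | _ i ih =>
    match i, ih with
    | 0, _ => simp
    | 1, _ => simp
    | n + 2, ih =>
      have e1 : ss p q (n + 2) = 1 + p * br p n + q * (br p n + q * ss p q n) := by
        rw [ss_succ, br_succ, ss_succ]
      have e2 : br p (n + 2) = 1 + p * (1 + p * br p n) := by rw [br_succ, br_succ]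
      rw [h n hi, ih (n + 1) (by omega) (by omega), ih n (by omega) (by omega), e1, e2,
        ss_succ, br_succ]
      linear_combination ((f 1 - f 0) * br p n
        + (κ + (q - 1) * f 1 + (p - 1) * f 0) * ss p q n) * hpq

end

end Pool.Agent.AW3
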