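import Pool.Agent.helper39.AW3.Defs
import Pool.Agent.helper39.AW3.Seq

/-!
# The left and the right eigenvector

Data: a basis `u 0, …, u d` (`u i = 0` for `i > d`) with
`A (u i) = θ i • u i + u (i + 1)` and
`C (u i) = (E * q ^ i) • u (i + 1) + D i • u i + (φ i * (G * p * q ^ i)) • u (i - 1)`,
`φ 0 = 0`, `φ (i + 1) = X (i + 1) * Y i` for `i < d`, `X 0 = 0`, `Y d = 0` (the `Y i` here is
`Y_{i+1}` of the notes), `D i + E q^i Y i + G p q^i X i = μ₀`, `θ i + Y i = m + c [i]`,
`E Y i - G X i = a + b [i]` for `i ≤ d`, where `[i] = br p i`, `p q = 1`.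

Left functional: `l (u i) = ∏_{k < i} Y k` (so `l (u (i+1)) = Y i * l (u i)` also for `i = d`, both
sides being `0`, and `φ i * l (u (i - 1)) = X i * l (u i)` for `i ≤ d`, also for `i = 0`).  Then
`l (C (u i)) = (E q^i Y i + D i + G p q^i X i) l (u i) = μ₀ l (u i)`.  Let `l₁ (u i) = [i] l (u i)`;
`l (A (u i)) = (θ i + Y i) l (u i) = m l (u i) + c l₁ (u i)` and
`l₁ (C (u i)) = l (u i) (E q^i Y i [i+1] + D i [i] + G p q^i X i [i-1])
 = l (u i) ([i] μ₀ + E q^i Y i p^i - G p q^i X i p^{i-1})
 = l (u i) ([i] μ₀ + E Y i - G X i) = (μ₀ + b) l₁ (u i) + a l (u i)` (for `i = 0` the term with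
`X 0 = 0` vanishes; `[i+1] = [i] + p^i`).  Hence `l (A (C x)) = m μ₀ l x + c ((μ₀ + b) l₁ x +
a l x) = (μ₀ + b) l (A x) + κ l x`.

Right vector: `r = ∑_{i ≤ d} r_i u_i` with `r_d = 1`, `r_{i-1} = (G / E) X_i r_i`, i.e.
`r_i = ∏_{k ∈ Ioc i d} (G / E * X k)`.  The coefficient of `u i` in `C r` is
`E q^{i-1} r_{i-1} + D_i r_i + φ_{i+1} G q^i r_{i+1}`, where `E q^{i-1} r_{i-1} = G q^{i-1} X_i r_i`
and `φ_{i+1} G q^i r_{i+1} = X_{i+1} Y_i G q^i r_{i+1} = E q^i Y_i r_i`; total `μ₀ r_i`.
The coefficient of `u i` in `A r` is `θ_i r_i + r_{i-1} = (θ_i + (G/E) X_i) r_i =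
((m - a/E) + (c - b/E) [i]) r_i`; with `r₁ = ∑ [i] r_i u_i` the coefficient of `u i` in `C r₁` is
`r_i (G q^{i-1} X_i [i-1] + D_i [i] + E q^i Y_i [i+1]) = r_i ((μ₀ + b) [i] + a)` as before.
-/

namespace Pool.Agent.AW3

open Module

variable {K V : Type*} [Field K] [AddCommGroup V] [Module K V]

section

variable {A C : V →ₗ[K] V} {d : ℕ} {u : ℕ → V} {θ φ D X Y : ℕ → K}
  {p q E G μ₀ m c a b : K}

private theorem vecR_coeff (d : ℕ) (E G : K) (X : ℕ → K) (hE : E ≠ 0) :
    ∃ f : ℕ → K, f d = 1 ∧ ∀ n, n < d → E * f n = G * X (n + 1) * f (n + 1) := by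
  refine ⟨fun i => ∏ k ∈ Finset.Ioc i d, (G / E * X k), by simp, fun n hn => ?_⟩
  have h1 : Finset.Ioc n d = insert (n + 1) (Finset.Ioc (n + 1) d) := by
    ext k
    simp only [Finset.mem_Ioc, Finset.mem_insert]
    omega
  have h2 : n + 1 ∉ Finset.Ioc (n + 1) d := by simp
  show E * ∏ k ∈ Finset.Ioc n d, (G / E * X k) =
    G * X (n + 1) * ∏ k ∈ Finset.Ioc (n + 1) d, (G / E * X k)
  rw [h1, Finset.prod_insert h2]
  field_simp

theorem right_vec (bas : Basis (Fin (d + 1)) K V) (hb : ∀ i : Fin (d + 1), bas i = u i)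
    (hu : ∀ i, d < i → u i = 0) (hpq : p * q = 1) (hE : E ≠ 0)
    (hA : ∀ i, i ≤ d → A (u i) = θ i • u i + u (i + 1))
    (hC : ∀ i, i ≤ d → C (u i) = (E * q ^ i) • u (i + 1) + D i • u i
      + (φ i * (G * p * q ^ i)) • u (i - 1))
    (hφ0 : φ 0 = 0) (hφ : ∀ i, i < d → φ (i + 1) = X (i + 1) * Y i)
    (hX : X 0 = 0) (hY : Y d = 0)
    (hT : ∀ i, i ≤ d → D i + E * q ^ i * Y i + G * p * q ^ i * X i = μ₀)
    (hm : ∀ i, i ≤ d → θ i + Y i = m + c * br p i)
    (hab : ∀ i, i ≤ d → E * Y i - G * X i = a + b * br p i) :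
    ∃ r : V, r ≠ 0 ∧ C r = μ₀ • r ∧ ∃ κ : K, C (A r) = (μ₀ + b) • A r + κ • r := by
  classical
  obtain ⟨f, hfd, hf⟩ := vecR_coeff d E G X hE
  have hpq' : ∀ n, p * q ^ (n + 1) = q ^ n := by
    intro n
    rw [pow_succ]
    linear_combination q ^ n * hpq
  have hpq'' : ∀ n, p ^ n * q ^ n = 1 := by
    intro n
    rw [← mul_pow, hpq, one_pow]
  -- the map `C` on the partial sums
  have hC1 : ∀ n, n ≤ d → C (∑ i ∈ Finset.range (n + 1), f i • u i) =
      μ₀ • (∑ i ∈ Finset.range (n + 1), f i • u i)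
        + (E * f n * q ^ n) • (u (n + 1) - Y n • u n) := by
    intro n
    induction n with
    | zero =>
      intro h0
      rw [Finset.sum_range_one, map_smul, hC 0 h0, hφ0]
      have hD := hT 0 h0
      rw [hX] at hD
      match_scalars
      · ring
      · linear_combination f 0 * hD
    | succ n ih =>
      intro hn
      have hn' : n < d := hn
      rw [Finset.sum_range_succ, map_add, map_smul, ih hn'.le, hC (n + 1) hn, hφ n hn']
      have hD := hT (n + 1) hn
      have h1 := hf n hn'
      have h2 := hpq' n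
      have h3 : n + 1 - 1 = n := rfl
      rw [h3, smul_add μ₀]
      generalize μ₀ • (∑ i ∈ Finset.range (n + 1), f i • u i) = S
      match_scalars
      · ring
      · linear_combination f (n + 1) * hD + q ^ n * h1 - G * X (n + 1) * f (n + 1) * h2
      · linear_combination (- Y n * q ^ n) * h1 + G * X (n + 1) * Y n * f (n + 1) * h2
      · ring
  -- the map `A` on the partial sums
  have hA1 : ∀ n, n ≤ d → A (∑ i ∈ Finset.range (n + 1), f i • u i) =
      (m - a / E) • (∑ i ∈ Finset.range (n + 1), f i • u i)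
        + (c - b / E) • (∑ i ∈ Finset.range (n + 1), (br p i * f i) • u i)
        + f n • u (n + 1) := by
    intro n
    induction n with
    | zero =>
      intro h0
      rw [Finset.sum_range_one, Finset.sum_range_one, map_smul, hA 0 h0]
      have h1 := hm 0 h0
      have h2 := hab 0 h0
      rw [hX] at h2
      rw [br_zero] at h1 h2 ⊢
      have h3 : Y 0 = a / E := by
        field_simp
        linear_combination h2
      match_scalars
      · linear_combination f 0 * h1 - f 0 * h3
      · ring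
    | succ n ih =>
      intro hn
      have hn' : n < d := hn
      rw [Finset.sum_range_succ, map_add, map_smul, ih hn'.le, hA (n + 1) hn,
        Finset.sum_range_succ (fun i => (br p i * f i) • u i) (n + 1)]
      have h1 := hm (n + 1) hn
      have h2 := hab (n + 1) hn
      have h3 := hf n hn'
      have h4 : Y (n + 1) * f (n + 1) = f n + (a / E + b / E * br p (n + 1)) * f (n + 1) := by
        field_simp
        linear_combination f (n + 1) * h2 - h3
      rw [smul_add (m - a / E), smul_add (c - b / E)]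
      generalize (m - a / E) • (∑ i ∈ Finset.range (n + 1), f i • u i) = S
      generalize (c - b / E) • (∑ i ∈ Finset.range (n + 1), (br p i * f i) • u i) = S'
      match_scalars
      · ring
      · ring
      · linear_combination f (n + 1) * h1 - h4
      · ring
  -- the map `C` on the partial sums of the second vector
  have hC2 : ∀ n, n ≤ d → C (∑ i ∈ Finset.range (n + 1), (br p i * f i) • u i) =
      (μ₀ + b) • (∑ i ∈ Finset.range (n + 1), (br p i * f i) • u i)
        + a • (∑ i ∈ Finset.range (n + 1), f i • u i)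
        + (E * f n * (br p n * q ^ n)) • (u (n + 1) - Y n • u n) - (E * f n * Y n) • u n := by
    intro n
    induction n with
    | zero =>
      intro h0
      rw [Finset.sum_range_one, Finset.sum_range_one, map_smul, hC 0 h0]
      have h2 := hab 0 h0
      rw [hX] at h2
      rw [br_zero] at h2 ⊢
      match_scalars
      · ring
      · linear_combination f 0 * h2
    | succ n ih =>
      intro hn
      have hn' : n < d := hn
      rw [Finset.sum_range_succ, map_add, map_smul, ih hn'.le, hC (n + 1) hn, hφ n hn',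
        Finset.sum_range_succ (fun i => f i • u i) (n + 1)]
      have hD := hT (n + 1) hn
      have h1 := hf n hn'
      have h2 := hpq' n
      have h3 : n + 1 - 1 = n := rfl
      have h4 := hab (n + 1) hn
      have h5 := br_succ' (p := p) n
      have h6 := hpq'' n
      rw [h3, smul_add (μ₀ + b), smul_add a]
      generalize (μ₀ + b) • (∑ i ∈ Finset.range (n + 1), (br p i * f i) • u i) = S
      generalize a • (∑ i ∈ Finset.range (n + 1), f i • u i) = S'
      match_scalars
      · ring
      · ring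
      · linear_combination (br p (n + 1) * f (n + 1)) * hD
          - (br p (n + 1) * f (n + 1) * G * X (n + 1)) * h2 + f (n + 1) * h4
          + (br p (n + 1) * q ^ n - 1) * h1 - (E * f n * q ^ n) * h5 - (E * f n) * h6
      · linear_combination (br p (n + 1) * f (n + 1) * X (n + 1) * Y n * G) * h2
          - (br p (n + 1) * q ^ n * Y n) * h1 + (E * f n * Y n * q ^ n) * h5
          + (E * f n * Y n) * h6
      · ring
  have hCr := hC1 d le_rfl
  have hAr := hA1 d le_rfl
  have hCr1 := hC2 d le_rfl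
  rw [hu (d + 1) (Nat.lt_succ_self d), hY, zero_smul, sub_zero, smul_zero, add_zero] at hCr
  rw [hu (d + 1) (Nat.lt_succ_self d), smul_zero, add_zero] at hAr
  rw [hu (d + 1) (Nat.lt_succ_self d), hY, zero_smul, sub_zero, smul_zero, add_zero, mul_zero,
    zero_smul, sub_zero] at hCr1
  refine ⟨∑ i ∈ Finset.range (d + 1), f i • u i, ?_, hCr,
    (c - b / E) * a - (m - a / E) * b, ?_⟩
  · intro h0
    have h1 : ∑ i : Fin (d + 1), f i • bas i = 0 := by
      rw [← h0, ← Fin.sum_univ_eq_sum_range (fun i => f i • u i)]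
      exact Finset.sum_congr rfl fun i _ => by rw [hb i]
    have h2 := Fintype.linearIndependent_iff.1 bas.linearIndependent (fun i => f i) h1 (Fin.last d)
    rw [Fin.val_last, hfd] at h2
    exact one_ne_zero h2
  · rw [hAr, map_add, map_smul, map_smul, hCr, hCr1]
    module

end

end Pool.Agent.AW3
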