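import Pool.Agent.helper39.AW3.Good
import Pool.Agent.helper39.AW3.Vec
import Pool.Agent.helper39.AW3.Flag

/-!
# The characteristic polynomial and the two flags, for a root `c` in the field
-/

namespace Pool.Agent.AW3

open Module

section defs

variable {K : Type*} [Field K]

/-- `E = e1 + e3 θs 0 + e4 θs 1`. -/
def cE (θs : ℕ → K) (e1 e3 e4 : K) : K := e1 + e3 * θs 0 + e4 * θs 1

/-- `G = e2 + e3 θ 0 + e4 θ 1`. -/
def cG (θ : ℕ → K) (e2 e3 e4 : K) : K := e2 + e3 * θ 0 + e4 * θ 1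

/-- `Y = θ d - θ 0 - c [d]`. -/
def cY (d : ℕ) (p : K) (θ : ℕ → K) (c : K) : K := θ d - θ 0 - c * br p d

/-- The quadratic polynomial function whose roots are the admissible `c`. -/
def quadC (d : ℕ) (p : K) (θ θs : ℕ → K) (e1 e2 e3 e4 φ1 c : K) : K :=
  c * cE θs e1 e3 e4 * cY d p θ c
    + cG θ e2 e3 e4 * ((θs 1 - θs 0) * cY d p θ c + φ1)
    + (e3 - e4) * ((θs 1 - θs 0) * (θ 1 - θ 0) * cY d p θ c + φ1 * ((θ 1 - θ 0) - c))

/-- The eigenvalues of the third element. -/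
def eig (d : ℕ) (p q : K) (θ θs : ℕ → K) (e0 e1 e2 e3 e4 φ1 c : K) (j : ℕ) : K :=
  e0 + e1 * θ 0 + e2 * θs 0 + (e3 + e4) * θ 0 * θs 0 + e4 * φ1
    + cE θs e1 e3 e4 * cY d p θ c
    + (cE θs e1 e3 e4 * (c - (θ 1 - θ 0)) - cG θ e2 e3 e4 * (φ1 / cY d p θ c)) * br p j
    - cG θ e2 e3 e4 * ((q - p) * (φ1 / cY d p θ c)
        + (θs 2 - (1 + p) * θs 1 + p * θs 0)) * ss p q j

end defs

variable {K V : Type*} [Field K] [AddCommGroup V] [Module K V]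

theorem Good.quad_eq {A B C : V →ₗ[K] V} {d : ℕ} {θ θs : ℕ → K} {e0 e1 e2 e3 e4 : K}
    (g : Good A B C d θ θs e0 e1 e2 e3 e4) (φ1 c : K) :
    quadC d g.p θ θs e1 e2 e3 e4 φ1 c
      = quad (θ d - θ 0) (br g.p d) (θ 1 - θ 0) (θs 1 - θs 0) (e3 * (1 + g.q))
        (e1 + e3 * θs 0 + e4 * θs 1) (e2 + e3 * θ 0 + e4 * θ 1) φ1 c := by
  rw [quadC, quad, cE, cG, cY]
  have h := g.he4
  have h1 : e3 - e4 = e3 * (1 + g.q) := by linear_combination -h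
  rw [h1]

/-- The action of `C` on the split basis. -/
theorem Good.act {A B C : V →ₗ[K] V} {d : ℕ} {θ θs : ℕ → K} {e0 e1 e2 e3 e4 : K}
    (g : Good A B C d θ θs e0 e1 e2 e3 e4) (i : ℕ) (hi : i ≤ d) :
    C (g.S.u i) = ((e1 + e3 * θs 0 + e4 * θs 1) * g.q ^ i) • g.S.u (i + 1)
      + (e0 + e1 * θ i + e2 * θs i + e3 * (θ i * θs i + g.S.φ i)
          - g.q * e3 * (θ i * θs i + g.S.φ (i + 1))) • g.S.u i
      + (g.S.φ i * ((e2 + e3 * θ 0 + e4 * θ 1) * g.p * g.q ^ i)) • g.S.u (i - 1) := by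
  have hA := g.S.hA i hi
  have hB := g.S.hB i hi
  have h4 := g.he4
  -- the two products
  have hAB : A (B (g.S.u i)) = θs i • (θ i • g.S.u i + g.S.u (i + 1))
      + g.S.φ i • (θ (i - 1) • g.S.u (i - 1) + g.S.u i) := by
    rw [hB, map_add, map_smul, map_smul, hA]
    congr 1
    rcases Nat.eq_zero_or_pos i with h0 | h0
    · rw [h0, g.S.hφ0, zero_smul, zero_smul]
    · rw [g.S.hA (i - 1) (by omega), Nat.sub_add_cancel h0]
  have hBA : B (A (g.S.u i)) = θ i • (θs i • g.S.u i + g.S.φ i • g.S.u (i - 1))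
      + (θs (i + 1) • g.S.u (i + 1) + g.S.φ (i + 1) • g.S.u i) := by
    rw [hA, map_add, map_smul, hB]
    congr 1
    rcases Nat.lt_or_ge i d with h0 | h0
    · rw [g.S.hB (i + 1) h0, Nat.add_sub_cancel]
    · rw [g.S.hu (i + 1) (by omega), g.S.hφd (i + 1) (by omega)]
      simp
  have e1' : (e1 + e3 * θs i + e4 * θs (i + 1)) • g.S.u (i + 1)
      = ((e1 + e3 * θs 0 + e4 * θs 1) * g.q ^ i) • g.S.u (i + 1) := by
    rcases Nat.lt_or_ge i d with h0 | h0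
    · have := g.hsd.E_eq i h0
      congr 1
      linear_combination this + (θs (i + 1) - θs 1) * h4
    · rw [g.S.hu (i + 1) (by omega), smul_zero, smul_zero]
  have e2' : (g.S.φ i * (e2 + e3 * θ (i - 1) + e4 * θ i)) • g.S.u (i - 1)
      = (g.S.φ i * ((e2 + e3 * θ 0 + e4 * θ 1) * g.p * g.q ^ i)) • g.S.u (i - 1) := by
    rcases Nat.eq_zero_or_pos i with h0 | h0
    · rw [h0, g.S.hφ0]; simp
    · obtain ⟨j, rfl⟩ : ∃ j, i = j + 1 := ⟨i - 1, by omega⟩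
      have := g.hsd.G_eq j (by omega)
      congr 1
      have h5 := g.hsd.hpq
      rw [Nat.add_sub_cancel, pow_succ]
      congr 1
      linear_combination this + (θ (j + 1) - θ 1) * h4
        - ((e2 + e3 * θ 0 + e4 * θ 1) * g.q ^ j) * h5
  rw [← e1', ← e2']
  have hC := congrArg (fun T : V →ₗ[K] V => T (g.S.u i)) g.hC
  simp only [LinearMap.add_apply, LinearMap.smul_apply, Module.End.one_apply,
    Module.End.mul_apply] at hC
  have e3' : e0 + e1 * θ i + e2 * θs i + e3 * (θ i * θs i + g.S.φ i)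
          - g.q * e3 * (θ i * θs i + g.S.φ (i + 1))
      = e0 + e1 * θ i + e2 * θs i + e3 * (θ i * θs i + g.S.φ i)
          + e4 * (θ i * θs i + g.S.φ (i + 1)) := by
    linear_combination -(θ i * θs i + g.S.φ (i + 1)) * h4
  rw [hC, hAB, hBA, hA, hB, e3']
  module

section core

variable {A B C : V →ₗ[K] V} {d : ℕ} {θ θs : ℕ → K} {e0 e1 e2 e3 e4 : K}

/-- The recurrence of the eigenvalues. -/
theorem Good.eig_rec (g : Good A B C d θ θs e0 e1 e2 e3 e4) (hd : 2 ≤ d) (c : K)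
    (hc : quadC d g.p θ θs e1 e2 e3 e4 (g.S.φ 1) c = 0) (j : ℕ) :
    eig d g.p g.q θ θs e0 e1 e2 e3 e4 (g.S.φ 1) c (j + 2)
      = (g.p + g.q) * eig d g.p g.q θ θs e0 e1 e2 e3 e4 (g.S.φ 1) c (j + 1)
        - eig d g.p g.q θ θs e0 e1 e2 e3 e4 (g.S.φ 1) c j
        + ((e3 + e4) * g.ω + e2 * g.γs - 2 * g.γ * e1 + (2 - (g.p + g.q)) * e0) := by
  rw [g.quad_eq] at hc
  obtain ⟨hS, hS2⟩ := g.hsd.root (by omega) g.hφ1 hc
  have hφ := g.hsd.phi_eq (by omega) g.hφ g.hd1 g.hdd hS hS2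
  have hp2 := hφ 1 (by omega)
  have hp1 := hS2
  have hθd := g.hsd.hθ d le_rfl
  have h4 := g.he4
  obtain ⟨ζ, hζ⟩ : ∃ ζ, ζ = g.S.φ 1 / (θ d - θ 0 - c * br g.p d) := ⟨_, rfl⟩
  rw [← hζ] at hS hS2 hφ hp2 hp1
  have f1 : g.S.φ 1 = ((θs 1 - θs 0) + ζ - (θs 1 - θs 0))
      * ((θ 1 - θ 0) * br g.p d + (θ 2 - (1 + g.p) * θ 1 + g.p * θ 0) * ss g.p g.q d
        - c * br g.p d) := by
    rw [← hp1, hθd]; ring
  have f2 : g.S.φ 2 = (((θs 1 - θs 0) + ζ - (θs 1 - θs 0)) * (1 + g.p)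
      - (θs 2 - (1 + g.p) * θs 1 + g.p * θs 0))
      * ((θ 1 - θ 0) * br g.p d + (θ 2 - (1 + g.p) * θ 1 + g.p * θ 0) * ss g.p g.q d
        - (θ 1 - θ 0) + c * (1 - br g.p d)) := by
    rw [hp2, ScalarData.X, ScalarData.Y, br_one, br_succ, br_one, hθd]; ring
  have key := id_geps (t0 := θ 0) (t1 := θ 1 - θ 0) (t2 := θ 2 - (1 + g.p) * θ 1 + g.p * θ 0)
    (w0 := θs 0) (w1 := θs 1 - θs 0) (w2 := θs 2 - (1 + g.p) * θs 1 + g.p * θs 0)
    (c := c) (cs := (θs 1 - θs 0) + ζ)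
    (D := br g.p d) (Z := ss g.p g.q d) (e0 := e0) (e3 := e3)
    (E := e1 + e3 * θs 0 + e4 * θs 1) (G := e2 + e3 * θ 0 + e4 * θ 1)
    (φ1 := g.S.φ 1) (φ2 := g.S.φ 2) (γ := g.γ) (γs := g.γs) (ω := g.ω)
    g.hsd.hpq g.hsd.h1 g.hsd.h2 g.hsd.h3 hS f1 f2
    (by linear_combination g.hγ) (by linear_combination g.hγs)
    (by linear_combination -g.hω)
  rw [← f1] at key
  have he1 : e1 + e3 * θs 0 + e4 * θs 1 - e3 * θs 0
      + g.q * e3 * (θs 0 + (θs 1 - θs 0)) = e1 := by linear_combination (θs 1) * h4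
  have he2 : e2 + e3 * θ 0 + e4 * θ 1 - e3 * θ 0
      + g.q * e3 * (θ 0 + (θ 1 - θ 0)) = e2 := by linear_combination (θ 1) * h4
  rw [he1, he2] at key
  have hY : θ d - θ 0 = (θ 1 - θ 0) * br g.p d
      + (θ 2 - (1 + g.p) * θ 1 + g.p * θ 0) * ss g.p g.q d := by rw [hθd]; ring
  have e1' : br g.p (j + 2) = 1 + g.p * (1 + g.p * br g.p j) := by rw [br_succ, br_succ]
  have e2' : ss g.p g.q (j + 2) = (1 + g.p * br g.p j)
      + g.q * (br g.p j + g.q * ss g.p g.q j) := by rw [ss_succ, br_succ, ss_succ]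
  simp only [eig, cE, cG, cY, ← hζ]
  rw [e1', e2', br_succ, ss_succ, hY]
  linear_combination -key + (-(θ 0) * e1 * (br g.p j) + (θ 1) * e1 * (br g.p j) - (θs 1) * e2 * (ss g.p g.q j) + (θs
      2) * e2 * (ss g.p g.q j) - c * e1 * (br g.p j) + e2 * (br g.p j) * ζ - (θ 0) * (θs 0) *
      e3 * (br g.p j) - (θ 0) * (θs 1) * e3 * (ss g.p g.q j) - (θ 0) * (θs 1) * e4 * (br g.p
      j) + (θ 0) * (θs 2) * e3 * (ss g.p g.q j) + (θ 0) * e3 * (br g.p j) * ζ + (θ 1) * (θs 0)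
      * e3 * (br g.p j) - (θ 1) * (θs 1) * e4 * (ss g.p g.q j) + (θ 1) * (θs 1) * e4 * (br g.p
      j) + (θ 1) * (θs 2) * e4 * (ss g.p g.q j) + (θ 1) * e4 * (br g.p j) * ζ - (θs 0) * c *
      e3 * (br g.p j) + (θs 0) * e2 * g.p * (ss g.p g.q j) - (θs 1) * c * e4 * (br g.p j) -
      (θs 1) * e2 * g.p * (ss g.p g.q j) - e2 * g.p * (ss g.p g.q j) * ζ + e2 * g.q * (ss g.p
      g.q j) * ζ + (θ 0) * (θs 0) * e3 * g.p * (ss g.p g.q j) - (θ 0) * (θs 1) * e3 * g.p *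
      (ss g.p g.q j) - (θ 0) * e3 * g.p * (ss g.p g.q j) * ζ + (θ 0) * e3 * g.q * (ss g.p g.q
      j) * ζ + (θ 1) * (θs 0) * e4 * g.p * (ss g.p g.q j) - (θ 1) * (θs 1) * e4 * g.p * (ss
      g.p g.q j) - (θ 1) * e4 * g.p * (ss g.p g.q j) * ζ + (θ 1) * e4 * g.q * (ss g.p g.q j) *
      ζ) * g.hsd.hpq
    + (-g.ω + 2 * (g.S.φ 1) + 2 * (θ 0) * (θs 0) - g.p * (g.S.φ 1) - (g.S.φ 1) * g.q - (θ 0) *
      (θs 0) * g.p - (θ 0) * (θs 0) * g.q) * h4

/-- Existence of the left and right eigenvectors. -/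
theorem Good.vecs (g : Good A B C d θ θs e0 e1 e2 e3 e4) (hd : 2 ≤ d) (c : K)
    (hc : quadC d g.p θ θs e1 e2 e3 e4 (g.S.φ 1) c = 0) :
    (∃ l : V →ₗ[K] K, l ≠ 0 ∧
      (∀ x, l (C x) = eig d g.p g.q θ θs e0 e1 e2 e3 e4 (g.S.φ 1) c 0 * l x) ∧
      ∃ κ : K, ∀ x, l (A (C x)) = eig d g.p g.q θ θs e0 e1 e2 e3 e4 (g.S.φ 1) c 1 * l (A x)
        + κ * l x) ∧
    (∃ r : V, r ≠ 0 ∧ C r = eig d g.p g.q θ θs e0 e1 e2 e3 e4 (g.S.φ 1) c 0 • r ∧
      ∃ κ : K, C (A r) = eig d g.p g.q θ θs e0 e1 e2 e3 e4 (g.S.φ 1) c 1 • A r + κ • r) := by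
  rw [g.quad_eq] at hc
  obtain ⟨hS, hS2⟩ := g.hsd.root (by omega) g.hφ1 hc
  have hφ := g.hsd.phi_eq (by omega) g.hφ g.hd1 g.hdd hS hS2
  obtain ⟨ζ, hζ⟩ : ∃ ζ, ζ = g.S.φ 1 / (θ d - θ 0 - c * br g.p d) := ⟨_, rfl⟩
  rw [← hζ] at hS hS2 hφ
  have h4 := g.he4
  have hT := g.hsd.T_eq (e0 := e0) hS hS2 g.S.hφ0 (g.S.hφd (d + 1) (by omega)) hφ
  have he1 : e1 + e3 * θs 0 + e4 * θs 1 - e3 * θs 0
      + g.q * e3 * (θs 0 + (θs 1 - θs 0)) = e1 := by linear_combination (θs 1) * h4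
  have he2 : e2 + e3 * θ 0 + e4 * θ 1 - e3 * θ 0
      + g.q * e3 * (θ 0 + (θ 1 - θ 0)) = e2 := by linear_combination (θ 1) * h4
  rw [he1, he2] at hT
  have hab := g.hsd.hab (c := c) (cs := (θs 1 - θs 0) + ζ)
  have hX0 := g.hsd.X_zero (cs := (θs 1 - θs 0) + ζ)
  have m0 : e0 + e1 * θ 0 + e2 * θs 0 + e3 * (θ 0 * θs 0) - g.q * e3 * (θ 0 * θs 0 + g.S.φ 1)
      + (e1 + e3 * θs 0 + e4 * θs 1) * (θ d - θ 0 - c * br g.p d)
      = eig d g.p g.q θ θs e0 e1 e2 e3 e4 (g.S.φ 1) c 0 := by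
    simp only [eig, cE, cG, cY, br_zero, ss_zero]
    linear_combination -(θ 0 * θs 0 + g.S.φ 1) * h4
  have m1 : eig d g.p g.q θ θs e0 e1 e2 e3 e4 (g.S.φ 1) c 1
      = eig d g.p g.q θ θs e0 e1 e2 e3 e4 (g.S.φ 1) c 0
        + ((e1 + e3 * θs 0 + e4 * θs 1) * (c - (θ 1 - θ 0))
          - (e2 + e3 * θ 0 + e4 * θ 1) * ((θs 1 - θs 0) + ζ - (θs 1 - θs 0))) := by
    simp only [eig, cE, cG, cY, br_zero, ss_zero, br_one, ss_one, hζ]
    ring
  rw [m1, ← m0]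
  exact ⟨left_vec g.S.b g.S.hb g.S.hu g.hsd.hpq g.S.hA g.act g.S.hφ0 hφ hX0 ScalarData.Y_d hT
      (fun i _ => ScalarData.hm i) hab,
    right_vec g.S.b g.S.hb g.S.hu g.hsd.hpq g.hsd.hE g.S.hA g.act g.S.hφ0 hφ hX0
      ScalarData.Y_d hT (fun i _ => ScalarData.hm i) hab⟩

/-- Invariant subspaces. -/
theorem third_irred (D : TriData A B d)
    (hinj : ∀ i j, i ≤ d → j ≤ d → D.θ i = D.θ j → i = j)
    {f0 f1 f2 f3 f4 : K}
    (hB : B = f0 • (1 : V →ₗ[K] V) + f1 • A + f2 • C + f3 • (C * A) + f4 • (A * C))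
    (U : Submodule K V) (hA : ∀ x ∈ U, A x ∈ U) (hC : ∀ x ∈ U, C x ∈ U) (hU : U ≠ ⊥) :
    U = ⊤ := by
  refine D.irred hinj U hA (fun x hx => ?_) hU
  rw [hB]
  simp only [LinearMap.add_apply, LinearMap.smul_apply, Module.End.one_apply,
    Module.End.mul_apply]
  exact U.add_mem (U.add_mem (U.add_mem (U.add_mem (U.smul_mem _ hx) (U.smul_mem _ (hA x hx)))
    (U.smul_mem _ (hC x hx))) (U.smul_mem _ (hC _ (hA x hx)))) (U.smul_mem _ (hA _ (hC x hx)))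

/-- The transposed relation. -/
theorem dual_rel {β γ ρ γe ω η : K}
    (hR : A * A * C - β • (A * C * A) + C * A * A - γ • (A * C + C * A) - ρ • C
      = γe • (A * A) + ω • A + η • (1 : V →ₗ[K] V)) :
    A.dualMap * A.dualMap * C.dualMap - β • (A.dualMap * C.dualMap * A.dualMap)
      + C.dualMap * A.dualMap * A.dualMap
      - γ • (A.dualMap * C.dualMap + C.dualMap * A.dualMap) - ρ • C.dualMap
      = γe • (A.dualMap * A.dualMap) + ω • A.dualMap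
        + η • (1 : Dual K V →ₗ[K] Dual K V) := by
  refine LinearMap.ext fun l => LinearMap.ext fun x => ?_
  have h := congrArg (fun T : V →ₗ[K] V => l (T x)) hR
  simp only [LinearMap.add_apply, LinearMap.sub_apply, LinearMap.smul_apply,
    Module.End.one_apply, Module.End.mul_apply, map_add, map_sub, map_smul,
    LinearMap.dualMap_apply, smul_eq_mul] at h ⊢
  linear_combination h

theorem dual_expr {f0 f1 f2 f3 f4 : K}
    (hB : B = f0 • (1 : V →ₗ[K] V) + f1 • A + f2 • C + f3 • (C * A) + f4 • (A * C)) :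
    B.dualMap = f0 • (1 : Dual K V →ₗ[K] Dual K V) + f1 • A.dualMap + f2 • C.dualMap
      + f4 • (C.dualMap * A.dualMap) + f3 • (A.dualMap * C.dualMap) := by
  refine LinearMap.ext fun l => LinearMap.ext fun x => ?_
  have h := congrArg (fun T : V →ₗ[K] V => l (T x)) hB
  simp only [LinearMap.add_apply, LinearMap.sub_apply, LinearMap.smul_apply,
    Module.End.one_apply, Module.End.mul_apply, map_add, map_sub, map_smul,
    LinearMap.dualMap_apply, smul_eq_mul] at h ⊢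
  linear_combination h

theorem core_charpoly [Module.Finite K V] (hd : 2 ≤ d) (hV : finrank K V = d + 1)
    (D : TriData A B d) (D' : TriData B A d) (h : Third A B C e0 e1 e2 e3 e4)
    (g : Good A B C d D.θ D'.θ e0 e1 e2 e3 e4) (c : K)
    (hc : quadC d g.p D.θ D'.θ e1 e2 e3 e4 (g.S.φ 1) c = 0) :
    C.charpoly = ∏ j ∈ Finset.range (d + 1), (Polynomial.X
      - Polynomial.C (eig d g.p g.q D.θ D'.θ e0 e1 e2 e3 e4 (g.S.φ 1) c j)) := by
  obtain ⟨-, r, hr, hr0, hr1⟩ := g.vecs hd c hc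
  obtain ⟨f0, f1, f2, f3, f4, hB⟩ := h.hB
  have hC := flag_step g.haw (g.eig_rec hd c hc) hr0 hr1
  exact flag_charpoly hV hC (flag_li hV hC hr (third_irred D (D.inj D') hB))

theorem core_hess [Module.Finite K V] (hd : 2 ≤ d) (hV : finrank K V = d + 1)
    (D : TriData A B d) (D' : TriData B A d) (h : Third A B C e0 e1 e2 e3 e4)
    (g : Good A B C d D.θ D'.θ e0 e1 e2 e3 e4) (c : K)
    (hc : quadC d g.p D.θ D'.θ e1 e2 e3 e4 (g.S.φ 1) c = 0)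
    (hinj : ∀ i j, i ≤ d → j ≤ d → eig d g.p g.q D.θ D'.θ e0 e1 e2 e3 e4 (g.S.φ 1) c i
      = eig d g.p g.q D.θ D'.θ e0 e1 e2 e3 e4 (g.S.φ 1) c j → i = j)
    (w : Basis (Fin (d + 1)) K V) (hw : ∀ i : Fin (d + 1), C (w i)
      = eig d g.p g.q D.θ D'.θ e0 e1 e2 e3 e4 (g.S.φ 1) c i • w i)
    (i j : Fin (d + 1)) (hij : (j : ℕ) + 1 < i) :
    LinearMap.toMatrix w w A i j = 0 ∧ LinearMap.toMatrix w w A j i = 0 := by
  obtain ⟨⟨l, hl, hl0, κ, hl1⟩, r, hr, hr0, hr1⟩ := g.vecs hd c hc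
  obtain ⟨f0, f1, f2, f3, f4, hB⟩ := h.hB
  constructor
  · have hC := flag_step g.haw (g.eig_rec hd c hc) hr0 hr1
    exact hess_of_flag hV hC (flag_li hV hC hr (third_irred D (D.inj D') hB)) hinj w hw i j hij
  · have hl0' : C.dualMap l = eig d g.p g.q D.θ D'.θ e0 e1 e2 e3 e4 (g.S.φ 1) c 0 • l := by
      ext x
      simp only [LinearMap.dualMap_apply, LinearMap.smul_apply, smul_eq_mul]
      exact hl0 x
    have hl1' : ∃ κ : K, C.dualMap (A.dualMap l)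
        = eig d g.p g.q D.θ D'.θ e0 e1 e2 e3 e4 (g.S.φ 1) c 1 • A.dualMap l + κ • l := by
      refine ⟨κ, ?_⟩
      ext x
      simp only [LinearMap.dualMap_apply, LinearMap.smul_apply, smul_eq_mul,
        LinearMap.add_apply]
      exact hl1 x
    have hC := flag_step (dual_rel g.haw) (g.eig_rec hd c hc) hl0' hl1'
    have hV' : finrank K (Dual K V) = d + 1 := by rw [Subspace.dual_finrank_eq, hV]
    obtain ⟨D2, hD2⟩ := D.exists_dual
    have hirr := third_irred D2 (by rw [hD2]; exact D.inj D') (dual_expr hB)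
    have hw' : ∀ i : Fin (d + 1), C.dualMap (w.dualBasis i)
        = eig d g.p g.q D.θ D'.θ e0 e1 e2 e3 e4 (g.S.φ 1) c i • w.dualBasis i := by
      intro i
      apply w.ext
      intro k
      rw [LinearMap.dualMap_apply, hw, LinearMap.smul_apply, map_smul, Basis.dualBasis_apply_self,
        smul_eq_mul, smul_eq_mul]
      by_cases hk : k = i
      · rw [hk]
      · rw [if_neg hk, mul_zero, mul_zero]
    have := hess_of_flag hV' hC (flag_li hV' hC hl hirr) hinj w.dualBasis hw' i j hij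
    rw [LinearMap.toMatrix_apply] at this ⊢
    rw [Basis.dualBasis_repr, LinearMap.dualMap_apply, Basis.dualBasis_apply] at this
    exact this

end core

end Pool.Agent.AW3
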