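import Pool.Agent.helper39.AW3.Main

/-!
# Dimension three: the case `e3 = 0`
-/

namespace Pool.Agent.AW3

open Module Polynomial

variable {K V : Type*} [Field K] [AddCommGroup V] [Module K V]

section

variable {A B C : V →ₗ[K] V} {e0 e1 e2 e3 e4 : K}

theorem e4_zero (D : TriData A B 2) (D' : TriData B A 2) (h : Third A B C e0 e1 e2 e3 e4)
    (he3 : e3 = 0) : e4 = 0 := by
  have hθ := D.inj D'
  have ne : ∀ i j, i ≤ 2 → j ≤ 2 → i ≠ j → D.θ i ≠ D.θ j := fun i j hi hj hij he =>
    hij (hθ i j hi hj he)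
  obtain ⟨f0, f1, f2, f3, f4, hB⟩ := h.hB
  have p0 := pg_one D h.hC hB 0 (by omega)
  have p1 := pg_one D h.hC hB 1 (by omega)
  rcases conic2 (ne 0 1 (by omega) (by omega) (by omega)) (ne 1 2 (by omega) (by omega)
      (by omega)) (ne 0 2 (by omega) (by omega) (by omega)) p0.1 p0.2 p1.1 p1.2 with h1 | h1
  · rw [← h1.1, he3]
  · by_contra he4
    apply left_ne_zero_of_mul_eq_one p0.1
    apply mul_left_cancel₀ he4
    have := h1.2
    rw [he3] at this ⊢
    linear_combination this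

/-- The characteristic polynomial in dimension three for `e3 = 0`. -/
theorem cubic [Module.Finite K V] (D : TriData A B 2) (D' : TriData B A 2)
    (h : Third A B C e0 e1 e2 e3 e4) (he3 : e3 = 0) {φ φ' m0 m1 m2 : K}
    (hφ : φ = (D'.a 0 - D.θ 0) * (D'.θ 0 - D'.θ 1))
    (hφ' : φ' = φ - (D'.θ 1 - D'.θ 0) * (D.θ 0 - D.θ 2)
      + (D'.θ 2 - D'.θ 0) * (D.θ 1 - D.θ 2))
    (hm0 : m0 = e0 + e1 * D.θ 0 + e2 * D'.θ 0) (hm1 : m1 = e0 + e1 * D.θ 1 + e2 * D'.θ 1)
    (hm2 : m2 = e0 + e1 * D.θ 2 + e2 * D'.θ 2) :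
    C.charpoly = (X - Polynomial.C m0) * (X - Polynomial.C m1) * (X - Polynomial.C m2)
      - Polynomial.C (e1 * e2 * φ) * (X - Polynomial.C m2)
      - Polynomial.C (e1 * e2 * φ') * (X - Polynomial.C m0) := by
  have he4 := e4_zero D D' h he3
  have hθ := D.inj D'
  have hθs := D'.inj D
  obtain ⟨S, hS⟩ := exists_split D D' hθ hθs
  obtain ⟨S', hS'⟩ : ∃ S' : SplitData A B 2 (fun i => D.θ (2 - i)) D'.θ,
      S'.u 0 = D'.v 0 := by
    obtain ⟨D'', hD''⟩ := D.exists_rev
    rw [← hD'']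
    exact exists_split D'' D' (D''.inj D') hθs
  have p1 := psi_one (by omega) S S' (by rw [hS, hS'])
  have p2 := psi_last (by omega) hθ S S' (by rw [hS, hS'])
  have hφ1 : S.φ 1 = φ := by rw [hφ]; exact split_phi1 (by omega) D D' S hS
  have hφ2 : S.φ 2 = φ' := by
    rw [p1] at p2
    have e : (2 : ℕ) - 1 = 1 := rfl
    rw [e] at p2
    rw [hφ', ← hφ1]
    linear_combination -p2
  have hA0 := S.hA 0 (by omega)
  have hA1 := S.hA 1 (by omega)
  have hA2 := S.hA 2 (by omega)
  have hB0 := S.hB 0 (by omega)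
  have hB1 := S.hB 1 (by omega)
  have hB2 := S.hB 2 (by omega)
  rw [S.hu (2 + 1) (by omega), add_zero] at hA2
  rw [S.hφ0, zero_smul, add_zero] at hB0
  rw [hφ1] at hB1
  rw [hφ2] at hB2
  have hC : ∀ x, C x = e0 • x + e1 • A x + e2 • B x := by
    intro x
    rw [h.hC, he3, he4]
    simp
  have hC0 : C (S.u 0) = m0 • S.u 0 + e1 • S.u 1 + (0 : K) • S.u 2 := by
    rw [hC, hA0, hB0, hm0]
    module
  have hC1 : C (S.u 1) = (e2 * φ) • S.u 0 + m1 • S.u 1 + e1 • S.u 2 := by
    rw [hC, hA1, hB1, hm1]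
    simp only [Nat.sub_self, Nat.reduceAdd]
    module
  have hC2 : C (S.u 2) = (0 : K) • S.u 0 + (e2 * φ') • S.u 1 + m2 • S.u 2 := by
    rw [hC, hA2, hB2, hm2]
    simp only [Nat.reduceSub]
    module
  have b0 : S.b 0 = S.u 0 := S.hb 0
  have b1 : S.b 1 = S.u 1 := S.hb 1
  have b2 : S.b 2 = S.u 2 := S.hb 2
  have r0 : ∀ x y z : K, S.b.repr (x • S.u 0 + y • S.u 1 + z • S.u 2) 0 = x := by
    intro x y z
    rw [← b0, ← b1, ← b2]
    simp
  have r1 : ∀ x y z : K, S.b.repr (x • S.u 0 + y • S.u 1 + z • S.u 2) 1 = y := by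
    intro x y z
    rw [← b0, ← b1, ← b2]
    simp
  have r2 : ∀ x y z : K, S.b.repr (x • S.u 0 + y • S.u 1 + z • S.u 2) 2 = z := by
    intro x y z
    rw [← b0, ← b1, ← b2]
    simp
  have hM : LinearMap.toMatrix S.b S.b C = !![m0, e2 * φ, 0; e1, m1, e2 * φ'; 0, e1, m2] := by
    ext i j
    rw [LinearMap.toMatrix_apply]
    have hi : ∀ i : Fin (2 + 1), i = 0 ∨ i = 1 ∨ i = 2 := by
      rintro ⟨i, hi⟩
      simp only [Fin.ext_iff]
      show i = 0 ∨ i = 1 ∨ i = 2
      omega
    rcases hi j with rfl | rfl | rfl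
    · rw [b0, hC0]
      rcases hi i with rfl | rfl | rfl
      · exact r0 _ _ _
      · exact r1 _ _ _
      · exact r2 _ _ _
    · rw [b1, hC1]
      rcases hi i with rfl | rfl | rfl
      · exact r0 _ _ _
      · exact r1 _ _ _
      · exact r2 _ _ _
    · rw [b2, hC2]
      rcases hi i with rfl | rfl | rfl
      · exact r0 _ _ _
      · exact r1 _ _ _
      · exact r2 _ _ _
  have hdet : (LinearMap.toMatrix S.b S.b C).charpoly
      = (X - Polynomial.C m0) * (X - Polynomial.C m1) * (X - Polynomial.C m2)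
      - Polynomial.C (e1 * e2 * φ) * (X - Polynomial.C m2)
      - Polynomial.C (e1 * e2 * φ') * (X - Polynomial.C m0) := by
    rw [hM]
    have hcp : (!![m0, e2 * φ, 0; e1, m1, e2 * φ'; 0, e1, m2]
        : Matrix (Fin 3) (Fin 3) K).charpoly
        = (X - Polynomial.C m0) * (X - Polynomial.C m1) * (X - Polynomial.C m2)
        - Polynomial.C (e1 * e2 * φ) * (X - Polynomial.C m2)
        - Polynomial.C (e1 * e2 * φ') * (X - Polynomial.C m0) := by
      rw [Matrix.charpoly, Matrix.det_fin_three]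
      simp only [Matrix.charmatrix_apply, Matrix.diagonal_apply]
      simp
      ring
    exact hcp
  rw [← LinearMap.charpoly_toMatrix C S.b, hdet]

/-- Diagonalizability in terms of roots. -/
theorem diag_iff_roots [Module.Finite K V] {d : ℕ} (D : TriData A B d) (D' : TriData B A d)
    (h : Third A B C e0 e1 e2 e3 e4) :
    Diagonalizable C ↔ ∃ r : Fin (d + 1) → K, Function.Injective r ∧
      ∀ i, C.charpoly.IsRoot (r i) := by
  have hV : finrank K V = d + 1 := by
    rw [Module.finrank_eq_card_basis D.b, Fintype.card_fin]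
  constructor
  · intro hC
    obtain ⟨hG, hF⟩ := third_ne D h
    obtain ⟨D2, -, -⟩ := triData_third D h.hC hG hF
    obtain ⟨w, ν, hν, hw⟩ := D2.eigenbasis hC
    refine ⟨ν, hν, fun i => ?_⟩
    rw [charpoly_diag w ν hw, Polynomial.IsRoot, Polynomial.eval_prod]
    refine Finset.prod_eq_zero (Finset.mem_univ i) ?_
    simp
  · rintro ⟨r, hr, hroot⟩
    have hev : ∀ i : Fin (d + 1), ∃ x : V, Module.End.HasEigenvector C (r i) x := by
      intro i
      exact (Module.End.hasEigenvalue_iff_isRoot_charpoly C (r i)).2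
        (hroot i) |>.exists_hasEigenvector
    choose x hx using hev
    have hli : LinearIndependent K x :=
      Module.End.eigenvectors_linearIndependent' C r hr x hx
    refine ⟨d + 1, basisOfLinearIndependentOfCardEqFinrank hli (by simp [hV]), ?_⟩
    intro i j hij
    rw [LinearMap.toMatrix_apply]
    have e1 : C ((basisOfLinearIndependentOfCardEqFinrank hli (by simp [hV])) j)
        = r j • (basisOfLinearIndependentOfCardEqFinrank hli (by simp [hV])) j := by
      rw [coe_basisOfLinearIndependentOfCardEqFinrank]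
      exact (hx j).apply_eq_smul
    rw [e1, map_smul, Finsupp.smul_apply, Basis.repr_self,
      Finsupp.single_eq_of_ne (by exact fun h => hij h), smul_zero]

end

end Pool.Agent.AW3
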