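import Mathlib

/-!
# Third Askey-Wilson element: definitions and data structures
-/

namespace Pool.Agent.AW3

open Module

/-- A square matrix is irreducible tridiagonal: the entries off the three central diagonals
vanish, and every entry on the sub- and superdiagonal is nonzero. -/
def IrredTridiagonal {K : Type*} [Field K] {n : ℕ} (M : Matrix (Fin n) (Fin n) K) : Prop :=
  (∀ i j : Fin n, (i : ℕ) + 1 < j ∨ (j : ℕ) + 1 < i → M i j = 0) ∧
    (∀ i j : Fin n, (i : ℕ) + 1 = j ∨ (j : ℕ) + 1 = i → M i j ≠ 0)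

section

variable {K V : Type*} [Field K] [AddCommGroup V] [Module K V]

/-- Some basis makes the linear map diagonal. -/
def Diagonalizable (A : V →ₗ[K] V) : Prop :=
  ∃ (n : ℕ) (b : Basis (Fin n) K V), (LinearMap.toMatrix b b A).IsDiag

/-- Leonard pair: (a) some basis makes `A` diagonal and `B` irreducible tridiagonal,
(b) some basis makes `B` diagonal and `A` irreducible tridiagonal. -/
def LeonardPair (A B : V →ₗ[K] V) : Prop :=
  (∃ (n : ℕ) (b : Basis (Fin n) K V), (LinearMap.toMatrix b b A).IsDiag ∧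
      IrredTridiagonal (LinearMap.toMatrix b b B)) ∧
    (∃ (n : ℕ) (b : Basis (Fin n) K V), (LinearMap.toMatrix b b B).IsDiag ∧
      IrredTridiagonal (LinearMap.toMatrix b b A))

/-- Leonard triple: for each of the three maps, some basis makes it diagonal and the other
two irreducible tridiagonal. -/
def LeonardTriple (A B C : V →ₗ[K] V) : Prop :=
  (∃ (n : ℕ) (b : Basis (Fin n) K V), (LinearMap.toMatrix b b A).IsDiag ∧
      IrredTridiagonal (LinearMap.toMatrix b b B) ∧
      IrredTridiagonal (LinearMap.toMatrix b b C)) ∧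
    (∃ (n : ℕ) (b : Basis (Fin n) K V), (LinearMap.toMatrix b b B).IsDiag ∧
      IrredTridiagonal (LinearMap.toMatrix b b C) ∧
      IrredTridiagonal (LinearMap.toMatrix b b A)) ∧
    (∃ (n : ℕ) (b : Basis (Fin n) K V), (LinearMap.toMatrix b b C).IsDiag ∧
      IrredTridiagonal (LinearMap.toMatrix b b A) ∧
      IrredTridiagonal (LinearMap.toMatrix b b B))

/-- The two Askey-Wilson relations for the ordered pair `B`, `C` with given scalars. -/
def AWRel {R : Type*} [Ring R] [Algebra K R] (B C : R) (β γ γs ρ ρs ω η ηs : K) : Prop :=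
  B * B * C - β • (B * C * B) + C * B * B - γ • (B * C + C * B) - ρ • C
      = γs • (B * B) + ω • B + η • (1 : R) ∧
    C * C * B - β • (C * B * C) + B * C * C - γs • (C * B + B * C) - ρs • B
      = γ • (C * C) + ω • C + ηs • (1 : R)

/-- The ordered pair `B`, `C` satisfies the Askey-Wilson relations. -/
def AskeyWilson (K : Type*) [Field K] {R : Type*} [Ring R] [Algebra K R] (B C : R) : Prop :=
  ∃ β γ γs ρ ρs ω η ηs : K, AWRel B C β γ γs ρ ρs ω η ηs

/-- Conditions (i)-(iv) on the third element `Ae`. -/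
def ThirdElement (A As Ae : V →ₗ[K] V) : Prop :=
  Ae ∈ Submodule.span K {1, A, As, A * As, As * A} ∧
    A ∈ Submodule.span K {1, As, Ae, As * Ae, Ae * As} ∧
    As ∈ Submodule.span K {1, Ae, A, Ae * A, A * Ae} ∧
    (AskeyWilson K A As ∧ AskeyWilson K As A) ∧
    (AskeyWilson K As Ae ∧ AskeyWilson K Ae As) ∧
    (AskeyWilson K A Ae ∧ AskeyWilson K Ae A)

/-- `A` is diagonal (eigenvalues `θ i`) and `B` is irreducible tridiagonal in the basis
`v 0, …, v d`; `v i = 0` for `i > d`.  Convention `x 0 = 0`, so that the term `v (0 - 1)`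
does not matter. -/
structure TriData (A B : V →ₗ[K] V) (d : ℕ) where
  /-- the basis vectors -/
  v : ℕ → V
  /-- the eigenvalues of `A` -/
  θ : ℕ → K
  /-- diagonal of `B` -/
  a : ℕ → K
  /-- coefficient of `v (i - 1)` in `B (v i)` -/
  x : ℕ → K
  /-- coefficient of `v (i + 1)` in `B (v i)` -/
  y : ℕ → K
  /-- the basis -/
  b : Basis (Fin (d + 1)) K V
  hb : ∀ i : Fin (d + 1), b i = v i
  hv : ∀ i, d < i → v i = 0
  hA : ∀ i, A (v i) = θ i • v i
  hB : ∀ i, i ≤ d → B (v i) = x i • v (i - 1) + a i • v i + y i • v (i + 1)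
  hx0 : x 0 = 0
  hx : ∀ i, i < d → x (i + 1) ≠ 0
  hy : ∀ i, i < d → y i ≠ 0

/-- Split form: `A (u i) = θ i • u i + u (i + 1)`, `B (u i) = θs i • u i + φ i • u (i - 1)`
with `u i = 0` for `i > d`, `φ 0 = 0` and `φ i = 0` for `i > d`. -/
structure SplitData (A B : V →ₗ[K] V) (d : ℕ) (θ θs : ℕ → K) where
  /-- the basis vectors -/
  u : ℕ → V
  /-- the split sequence -/
  φ : ℕ → K
  /-- the basis -/
  b : Basis (Fin (d + 1)) K V
  hb : ∀ i : Fin (d + 1), b i = u i
  hu : ∀ i, d < i → u i = 0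
  hA : ∀ i, i ≤ d → A (u i) = θ i • u i + u (i + 1)
  hB : ∀ i, i ≤ d → B (u i) = θs i • u i + φ i • u (i - 1)
  hφ0 : φ 0 = 0
  hφd : ∀ i, d < i → φ i = 0
  hφ : ∀ i, i < d → φ (i + 1) ≠ 0

end

end Pool.Agent.AW3
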