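import Pool.Agent.helper39.AW3.EngId

/-!
# Scalar engine: sequences
-/

namespace Pool.Agent.AW3

section

variable {K : Type*} [Field K]

/-- The scalar data of a pair in split form together with a third element. -/
structure ScalarData (d : ℕ) (θ θs : ℕ → K) (p q t0 t1 t2 w0 w1 w2 e3 E G : K) : Prop where
  hpq : p * q = 1
  hθ : ∀ i, i ≤ d → θ i = t0 + t1 * br p i + t2 * ss p q i
  hθs : ∀ i, i ≤ d → θs i = w0 + w1 * br p i + w2 * ss p q i
  h1 : e3 * t2 = (p - 1) * G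
  h2 : e3 * w2 = (p - 1) * E
  h3 : E * t2 = G * w2
  hE : E ≠ 0
  hG : G ≠ 0
  hne : θ d ≠ t0

variable {d : ℕ} {θ θs φ : ℕ → K} {p q t0 t1 t2 w0 w1 w2 e0 e3 E G c cs : K}

theorem hrho (hpq : p * q = 1) (i : ℕ) :
    (1 + p) * (1 - (1 - p) * br p i) * ss p q i = p * br p i * (br p i - 1) := by
  rw [← pow_eq]; exact ss_rel hpq i

theorem q_ne (hpq : p * q = 1) : q ≠ 0 := right_ne_zero_of_mul_eq_one hpq

theorem p_ne (hpq : p * q = 1) : p ≠ 0 := left_ne_zero_of_mul_eq_one hpq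

theorem pow_q (hpq : p * q = 1) (i : ℕ) :
    q ^ i = 1 + (q - 1) * br p i + (q - p) * (q - 1) * ss p q i := by
  induction i with
  | zero => simp
  | succ n ih =>
    rw [pow_succ, ih, br_succ, ss_succ]
    ring

theorem D_rel (hpq : p * q = 1) (n : ℕ) :
    br p (n + 1) + (q - p) * ss p q (n + 1) = q ^ n * br p (n + 1) := by
  rw [pow_q hpq, br_succ, ss_succ]
  have h := hrho hpq n
  linear_combination (q * (1 - p)) * h - (br p n - p * ss p q n - p * br p n + p * br p n ^ 2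
    + q * ss p q n * br p n - p ^ 2 * ss p q n * br p n) * hpq

theorem id_G {x s : K} (hpq : p * q = 1) (h1 : e3 * t2 = (p - 1) * G) :
    (G - e3 * t0 + q * e3 * (t0 + t1)) + e3 * (t0 + t1 * (q * (x - 1)) + t2 * (p * s - x + 1))
      - q * e3 * (t0 + t1 * x + t2 * s) = G * p * (1 + (q - 1) * x + (q - p) * (q - 1) * s) := by
  linear_combination (-G * x + G * p * s - G * q * s) * hpq + (1 - x + p * s - q * s) * h1

namespace ScalarData

/-- the quantity `X i` -/
def X (θs : ℕ → K) (p w0 cs : K) (i : ℕ) : K := w0 - θs i + cs * br p i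

/-- the quantity `Y i` -/
def Y (θ : ℕ → K) (d : ℕ) (p c : K) (i : ℕ) : K := θ d - θ i + c * (br p i - br p d)

theorem theta0 (h : ScalarData d θ θs p q t0 t1 t2 w0 w1 w2 e3 E G) : θ 0 = t0 := by
  rw [h.hθ 0 (Nat.zero_le _)]; simp

theorem thetas0 (h : ScalarData d θ θs p q t0 t1 t2 w0 w1 w2 e3 E G) : θs 0 = w0 := by
  rw [h.hθs 0 (Nat.zero_le _)]; simp

theorem xi (h : ScalarData d θ θs p q t0 t1 t2 w0 w1 w2 e3 E G)
    (hS : c * (E + e3 * (1 + q) * w1) + cs * (G + e3 * (1 + q) * t1) = e3 * (1 + q) * c * cs) :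
    (q - p) * c * cs + c * (w2 - (q - p) * w1) + cs * (t2 - (q - p) * t1) = 0 :=
  id_xi h.hpq h.h1 h.h3 h.hG hS

theorem phi_eq (h : ScalarData d θ θs p q t0 t1 t2 w0 w1 w2 e3 E G) (hd : 1 ≤ d) {ψ1 ψ2 : K}
    (hφ : ∀ i, i < d → φ (i + 1) = ψ1 * br p (i + 1) + ψ2 * ss p q (i + 1)
      + (θs (i + 1) - w0) * (θ i - θ d))
    (hd1 : ψ1 * br p (d + 1) + ψ2 * ss p q (d + 1) = 0)
    (hdd : ψ1 * br p d + ψ2 * ss p q d = ψ1)
    (hS : c * (E + e3 * (1 + q) * w1) + cs * (G + e3 * (1 + q) * t1) = e3 * (1 + q) * c * cs)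
    (hS2 : (cs - w1) * (θ d - t0 - c * br p d) = φ 1) (i : ℕ) (hi : i < d) :
    φ (i + 1) = X θs p w0 cs (i + 1) * Y θ d p c i := by
  have hΞ := h.xi hS
  have hpq := h.hpq
  set D := br p d with hD
  set Z := ss p q d with hZ
  have hθd : θ d = t0 + t1 * D + t2 * Z := h.hθ d le_rfl
  set r1 := c * D * w1 + cs * (t1 * D + t2 * Z) - c * cs * D with hr1
  set r2 := (q + D) * c * w2 + (1 + p) * (q * (-q * c * w1 - q * cs * t1 + cs * t2
          + q * c * cs)) with hr2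
  -- the value at `d + 1`
  have hR1 : r1 * (1 + p * D) + r2 * (D + q * Z) = 0 := by
    have := id_R (D := D) (Z := Z) hpq (hrho hpq (d + 1)) hΞ
    rw [br_succ, ss_succ, ← hD, ← hZ] at this
    rw [hr1, hr2, ← this]
    linear_combination (cs * (1 + p * D) * (-(t1 * D) - t2 * Z + c * D)
      - c * (w1 * (1 + p * D) + w2 * (D + q * Z)) * D) * hpq
  have hR2 : (1 + p) * (1 - (1 - p) * D) * r1 + p * D * r2 = 0 :=
    id_D hpq (hrho hpq d) hΞ
  have hR3 : r1 * D + r2 * Z = r1 := by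
    linear_combination p * hR1 - hR2 - r2 * Z * hpq
  have hψ1 : ψ1 = r1 := by
    have e := hφ 0 (by omega)
    rw [zero_add, br_one, ss_one, h.theta0, h.hθs 1 hd, br_one, ss_one, hθd] at e
    rw [hθd] at hS2
    rw [hr1]
    linear_combination -e - hS2
  have hψ2 : ψ2 = r2 := by
    by_contra hne
    have hne' : ψ2 - r2 ≠ 0 := sub_ne_zero.2 hne
    have e1 : ss p q (d + 1) = 0 := by
      apply mul_left_cancel₀ hne'
      rw [hψ1, br_succ, ss_succ, ← hD, ← hZ] at hd1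
      rw [ss_succ, ← hD, ← hZ]
      linear_combination hd1 - hR1
    have e2 : ss p q d = 0 := by
      apply mul_left_cancel₀ hne'
      rw [hψ1] at hdd
      linear_combination hdd - hR3
    have e3' : br p d = 0 := by
      rw [ss_succ, e2] at e1
      linear_combination e1
    apply h.hne
    rw [h.hθ d le_rfl, e2, e3']
    ring
  have hR := id_R (D := D) (Z := Z) hpq (hrho hpq (i + 1)) hΞ
  rw [hφ i hi, hψ1, hψ2, X, Y, ← hD, h.hθs (i + 1) (by omega), h.hθ i (by omega), hθd]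
  have e4 : r1 * br p (i + 1) + r2 * ss p q (i + 1) = _ := hR.symm
  rw [e4, br_succ, ss_succ]
  generalize br p i = b
  generalize ss p q i = z
  linear_combination (b * c * cs - b * c * w1 - b * cs * t1 - cs * t2 * z - b ^ 2 * c * w2
    - b * c * q * w2 * z - b * cs * p * t2 * z + b ^ 2 * c * cs * p - b ^ 2 * c * p * w1
    - b ^ 2 * cs * p * t1) * hpq

theorem X_zero (h : ScalarData d θ θs p q t0 t1 t2 w0 w1 w2 e3 E G) : X θs p w0 cs 0 = 0 := by
  rw [X, h.thetas0]; simp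

theorem Y_d : Y θ d p c d = 0 := by rw [Y]; ring

theorem hm (i : ℕ) : θ i + Y θ d p c i = (θ d - c * br p d) + c * br p i := by rw [Y]; ring

theorem hab (h : ScalarData d θ θs p q t0 t1 t2 w0 w1 w2 e3 E G) (i : ℕ) (hi : i ≤ d) :
    E * Y θ d p c i - G * X θs p w0 cs i
      = E * (θ d - t0 - c * br p d) + (E * (c - t1) - G * (cs - w1)) * br p i := by
  rw [X, Y, h.hθ i hi, h.hθs i hi]
  linear_combination -(ss p q i) * h.h3

theorem E_eq (h : ScalarData d θ θs p q t0 t1 t2 w0 w1 w2 e3 E G) (i : ℕ) (hi : i < d) :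
    (E - e3 * w0 + q * e3 * (w0 + w1)) + e3 * θs i - q * e3 * θs (i + 1) = E * q ^ i := by
  rw [h.hθs i hi.le, h.hθs (i + 1) hi, pow_q h.hpq, br_succ, ss_succ]
  exact id_E h.hpq h.h2

theorem G_eq (h : ScalarData d θ θs p q t0 t1 t2 w0 w1 w2 e3 E G) (i : ℕ) (hi : i < d) :
    (G - e3 * t0 + q * e3 * (t0 + t1)) + e3 * θ i - q * e3 * θ (i + 1) = G * q ^ i := by
  rw [h.hθ i hi.le, h.hθ (i + 1) hi, pow_q h.hpq, br_succ, ss_succ]
  exact id_E h.hpq h.h1

/-- `D i + E q ^ i Y i + G p q ^ i X i` does not depend on `i`. -/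
theorem T_eq (h : ScalarData d θ θs p q t0 t1 t2 w0 w1 w2 e3 E G)
    (hS : c * (E + e3 * (1 + q) * w1) + cs * (G + e3 * (1 + q) * t1) = e3 * (1 + q) * c * cs)
    (hS2 : (cs - w1) * (θ d - t0 - c * br p d) = φ 1)
    (hφ0 : φ 0 = 0) (hφd : φ (d + 1) = 0)
    (hφ : ∀ i, i < d → φ (i + 1) = X θs p w0 cs (i + 1) * Y θ d p c i) (i : ℕ) (hi : i ≤ d) :
    (e0 + (E - e3 * w0 + q * e3 * (w0 + w1)) * θ i + (G - e3 * t0 + q * e3 * (t0 + t1)) * θs i
        + e3 * (θ i * θs i + φ i) - q * e3 * (θ i * θs i + φ (i + 1)))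
      + E * q ^ i * Y θ d p c i + G * p * q ^ i * X θs p w0 cs i
      = (e0 + (E - e3 * w0 + q * e3 * (w0 + w1)) * t0 + (G - e3 * t0 + q * e3 * (t0 + t1)) * w0
        + e3 * (t0 * w0) - q * e3 * (t0 * w0 + φ 1)) + E * (θ d - t0 - c * br p d) := by
  have hΞ := h.xi hS
  have hpq := h.hpq
  have hθd : θ d = t0 + t1 * br p d + t2 * ss p q d := h.hθ d le_rfl
  have hT := id_T (x := br p i) (s := ss p q i) (t0 := t0) (w0 := w0) (D := br p d)
    (Z := ss p q d) (e0 := e0) hpq hS (hrho hpq i) hΞ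
  rw [id_E hpq h.h2, id_G hpq h.h1, ← pow_q hpq] at hT
  have hX : X θs p w0 cs i = (cs - w1) * br p i - w2 * ss p q i := by
    rw [X, h.hθs i hi]; ring
  have hY : Y θ d p c i = t1 * br p d + t2 * ss p q d - t1 * br p i - t2 * ss p q i
      + c * (br p i - br p d) := by
    rw [Y, h.hθ i hi, hθd]; ring
  have hφi : φ i = ((cs - w1) * br p i - w2 * ss p q i)
          * (t1 * br p d + t2 * ss p q d - t1 * (q * (br p i - 1))
            - t2 * (p * ss p q i - br p i + 1) + c * (q * (br p i - 1) - br p d)) := by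
    rcases Nat.eq_zero_or_pos i with h0 | h0
    · rw [h0, hφ0]; simp
    · obtain ⟨j, rfl⟩ : ∃ j, i = j + 1 := ⟨i - 1, by omega⟩
      rw [hφ j (by omega), hX, Y, hθd, h.hθ j (by omega), br_succ, ss_succ]
      generalize br p j = b
      generalize ss p q j = z
      generalize br p d = D
      generalize ss p q d = Z
      linear_combination (-((cs - w1) * (1 + p * b) - w2 * (b + q * z))
        * (-t1 * b - t2 * z + c * b)) * hpq
  have hφi1 : φ (i + 1) = ((cs - w1) * (1 + p * br p i) - w2 * (br p i + q * ss p q i))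
          * (t1 * br p d + t2 * ss p q d - t1 * br p i - t2 * ss p q i
            + c * (br p i - br p d)) := by
    rcases Nat.lt_or_ge i d with h0 | h0
    · rw [hφ i h0, hY, X, h.hθs (i + 1) h0, br_succ, ss_succ]; ring
    · have : i = d := le_antisymm hi h0
      rw [this, hφd]; ring
  have hφ1 : φ 1 = (cs - w1) * (t1 * br p d + t2 * ss p q d - c * br p d) := by
    rw [← hS2, hθd]; ring
  rw [hφi, hφi1, hX, hY, hφ1, h.hθ i hi, h.hθs i hi, hθd]
  linear_combination hT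

end ScalarData

end

end Pool.Agent.AW3
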