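import Pool.Agent.helper39.AW3.Seq

/-!
# Scalar engine
-/

namespace Pool.Agent.AW3

section ident

variable {K : Type*} [Field K] {p q x s t0 t1 t2 w0 w1 w2 c cs D Z e0 e3 E G : K}

theorem id_xi (hpq : p * q = 1) (h1 : e3 * t2 = (p - 1) * G) (h3 : E * t2 = G * w2)
    (hG : G ≠ 0)
    (hS : c * (E + e3 * (1 + q) * w1) + cs * (G + e3 * (1 + q) * t1) = e3 * (1 + q) * c * cs) :
    (q - p) * c * cs + c * (w2 - (q - p) * w1) + cs * (t2 - (q - p) * t1) = 0 := by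
  apply mul_left_cancel₀ hG
  linear_combination t2 * hS + (G * c * cs - G * c * w1 - G * cs * t1) * hpq + (c * cs - c * w1 - cs * t1 + c * cs * q - c * q * w1 - cs * q * t1) * h1 + (-c) * h3

theorem id_R (hpq : p * q = 1)
    (hρ : (1 + p) * (1 - (1 - p) * x) * s = p * x * (x - 1))
    (hΞ : (q - p) * c * cs + c * (w2 - (q - p) * w1) + cs * (t2 - (q - p) * t1) = 0) :
    cs * x * (t1 * D + t2 * Z - t1 * (q * (x - 1)) - t2 * (p * s - (x - 1))
        + c * (q * (x - 1) - D)) - c * (w1 * x + w2 * s) * (q * (x - 1) - D)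
      = (c * D * w1 + cs * (t1 * D + t2 * Z) - c * cs * D) * x
        + ((q + D) * c * w2 + (1 + p) * (q * (-q * c * w1 - q * cs * t1 + cs * t2
          + q * c * cs))) * s := by
  linear_combination -(q * (-q * c * w1 - q * cs * t1 + cs * t2 + q * c * cs)) * hρ
    - x * s * q * hΞ + (cs * t2 * x + c * cs * q * x - c * q * w1 * x - cs * q * t1 * x - cs * t2 * x ^ 2 - c * cs * q * x ^ 2 + c * q * w1 * x ^ 2 + cs * p * s * t2 * x + cs * q * t1 * x ^ 2 + c * cs * p * q * s * x - c * p * q * s * w1 * x - cs * p * q * s * t1 * x) * hpq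

theorem id_D (hpq : p * q = 1)
    (hρ : (1 + p) * (1 - (1 - p) * D) * Z = p * D * (D - 1))
    (hΞ : (q - p) * c * cs + c * (w2 - (q - p) * w1) + cs * (t2 - (q - p) * t1) = 0) :
    (1 + p) * (1 - (1 - p) * D) * (c * D * w1 + cs * (t1 * D + t2 * Z) - c * cs * D)
      + p * D * ((q + D) * c * w2 + (1 + p) * (q * (-q * c * w1 - q * cs * t1 + cs * t2
          + q * c * cs))) = 0 := by
  linear_combination (D * (1 + p * D)) * hΞ + cs * t2 * hρ + (D * c * cs - D * c * w1 + D * c * w2 - D * cs * t1 + D * cs * t2 + D * c * cs * q - D * c * q * w1 + D * cs * p * t2 - D * cs * q * t1 - D ^ 2 * c * cs + D ^ 2 * c * w1 + D ^ 2 * cs * t1 + D * c * cs * p * q - D * c * p * q * w1 - D * cs * p * q * t1) * hpq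

theorem id_E (hpq : p * q = 1) (h2 : e3 * w2 = (p - 1) * E) :
    (E - e3 * w0 + q * e3 * (w0 + w1)) + e3 * (w0 + w1 * x + w2 * s)
      - q * e3 * (w0 + w1 * (1 + p * x) + w2 * (x + q * s))
      = E * (1 + (q - 1) * x + (q - p) * (q - 1) * s) := by
  linear_combination (E * s - E * x - E * q * s - e3 * w1 * x) * hpq + (s - q * x - q ^ 2 * s) * h2

theorem id_T (hpq : p * q = 1)
    (hS : c * (E + e3 * (1 + q) * w1) + cs * (G + e3 * (1 + q) * t1) = e3 * (1 + q) * c * cs)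
    (hρ : (1 + p) * (1 - (1 - p) * x) * s = p * x * (x - 1))
    (hΞ : (q - p) * c * cs + c * (w2 - (q - p) * w1) + cs * (t2 - (q - p) * t1) = 0) :
    (e0 + (E - e3 * w0 + q * e3 * (w0 + w1)) * (t0 + t1 * x + t2 * s)
        + (G - e3 * t0 + q * e3 * (t0 + t1)) * (w0 + w1 * x + w2 * s)
        + e3 * ((t0 + t1 * x + t2 * s) * (w0 + w1 * x + w2 * s) + ((cs - w1) * x - w2 * s)
          * (t1 * D + t2 * Z - t1 * (q * (x - 1)) - t2 * (p * s - x + 1) + c * (q * (x - 1) - D)))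
        - q * e3 * ((t0 + t1 * x + t2 * s) * (w0 + w1 * x + w2 * s)
          + ((cs - w1) * (1 + p * x) - w2 * (x + q * s))
          * (t1 * D + t2 * Z - t1 * x - t2 * s + c * (x - D))))
      + ((E - e3 * w0 + q * e3 * (w0 + w1)) + e3 * (w0 + w1 * x + w2 * s)
        - q * e3 * (w0 + w1 * (1 + p * x) + w2 * (x + q * s)))
        * (t1 * D + t2 * Z - t1 * x - t2 * s + c * (x - D))
      + ((G - e3 * t0 + q * e3 * (t0 + t1)) + e3 * (t0 + t1 * (q * (x - 1)) + t2 * (p * s - x + 1))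
        - q * e3 * (t0 + t1 * x + t2 * s)) * ((cs - w1) * x - w2 * s)
      = (e0 + (E - e3 * w0 + q * e3 * (w0 + w1)) * t0 + (G - e3 * t0 + q * e3 * (t0 + t1)) * w0
        + e3 * (t0 * w0) - q * e3 * (t0 * w0 + (cs - w1) * (t1 * D + t2 * Z - c * D)))
      + E * (t1 * D + t2 * Z - c * D) := by
  linear_combination x * hS + e3 * q * (1 - (1 - p) * x) * s * hΞ
    + e3 * q * q * (1 - p) * (c * w1 + cs * t1 - c * cs) * hρ + (-c * cs * e3 * x + c * e3 * w1 * x + cs * e3 * t1 * x + D * c * cs * e3 * x - D * cs * e3 * t1 * x - Z * cs * e3 * t2 * x + c * cs * e3 * q * x - c * e3 * q * w1 * x - c * e3 * s * w2 * x - c * e3 * w1 * x ^ 2 - cs * e3 * q * t1 * x - c * cs * e3 * p * q * s - c * cs * e3 * p * q * x - c * cs * e3 * q * x ^ 2 + c * e3 * p * q * s * w1 + c * e3 * p * q * w1 * x + c * e3 * q * w1 * x ^ 2 + cs * e3 * p * q * s * t1 + cs * e3 * p * q * t1 * x + cs * e3 * q * t1 * x ^ 2 + c * cs * e3 * p * q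 * s * x + c * cs * e3 * p * q * x ^ 2 - c * e3 * p * q * s * w1 * x - c * e3 * p * q * w1 * x ^ 2 - cs * e3 * p * q * s * t1 * x - cs * e3 * p * q * t1 * x ^ 2 - c * cs * e3 * p ^ 2 * q * s * x + c * e3 * p ^ 2 * q * s * w1 * x + cs * e3 * p ^ 2 * q * s * t1 * x) * hpq

theorem id_geps {φ1 φ2 γ γs ω : K} (hpq : p * q = 1)
    (h1 : e3 * t2 = (p - 1) * G) (h2 : e3 * w2 = (p - 1) * E) (h3 : E * t2 = G * w2)
    (hS : c * (E + e3 * (1 + q) * w1) + cs * (G + e3 * (1 + q) * t1) = e3 * (1 + q) * c * cs)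
    (hφ1 : φ1 = (cs - w1) * (t1 * D + t2 * Z - c * D))
    (hφ2 : φ2 = ((cs - w1) * (1 + p) - w2) * (t1 * D + t2 * Z - t1 + c * (1 - D)))
    (hγ : γ = (2 - p - q) * t0 + (1 - q) * t1 + t2)
    (hγs : γs = (2 - p - q) * w0 + (1 - q) * w1 + w2)
    (hω : ω = φ2 - (p + q) * φ1 - γ * (w0 + (w0 + w1)) - γs * (t0 + (t0 + t1))
      - (p + q) * (t0 * w0 + (t0 + t1) * (w0 + w1)) + (t0 + (t0 + t1)) * (w0 + (w0 + w1))) :
    ((1 - q) * e3 * ω + (G - e3 * t0 + q * e3 * (t0 + t1)) * γs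
        - 2 * γ * (E - e3 * w0 + q * e3 * (w0 + w1)) + (2 - (p + q)) * e0)
      + (q - 1) * ((e0 + (E - e3 * w0 + q * e3 * (w0 + w1)) * t0 + (G - e3 * t0 + q * e3 * (t0 + t1)) * w0
        + e3 * (t0 * w0) - q * e3 * (t0 * w0 + (cs - w1) * (t1 * D + t2 * Z - c * D)))
      + E * (t1 * D + t2 * Z - c * D) + (E * (c - t1) - G * (cs - w1)))
      + (p - 1) * ((e0 + (E - e3 * w0 + q * e3 * (w0 + w1)) * t0 + (G - e3 * t0 + q * e3 * (t0 + t1)) * w0
        + e3 * (t0 * w0) - q * e3 * (t0 * w0 + (cs - w1) * (t1 * D + t2 * Z - c * D)))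
      + E * (t1 * D + t2 * Z - c * D))
      = -(G * ((q - p) * cs + w2 - (q - p) * w1)) := by
  subst hω hφ1 hφ2 hγ hγs
  linear_combination -(p - 1) * hS + (E * c + 3 * E * t0 + E * t1 - G * w1 - D * E * c + D * E * t1 + E * Z * t2 - 2 * c * cs * e3 + 2 * c * e3 * w1 + 2 * cs * e3 * t1 + 3 * e3 * t0 * w1 + D * c * cs * e3 - D * c * e3 * w1 - D * cs * e3 * t1 + D * e3 * t1 * w1 - Z * cs * e3 * t2 + Z * e3 * t2 * w1) * hpq + (-c - 3 * t0 + D * c - D * t1 - Z * t2 + c * q + 3 * q * t0 + q * t1 - D * c * q + D * q * t1 + Z * q * t2) * h2 + (-w1 - q * w1) * h1 + (-2) * h3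

end ident

end Pool.Agent.AW3
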