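import Pool.Agent.helper39.AW3.Good

/-!
# Dimension three: the case `e3 ≠ 0`
-/

namespace Pool.Agent.AW3

open Module

variable {K V : Type*} [Field K] [AddCommGroup V] [Module K V]

/-- In dimension three the Askey-Wilson relations hold for every `β`. -/
theorem aw_two {A B : V →ₗ[K] V} {θ θs : ℕ → K} (S : SplitData A B 2 θ θs)
    (hφ : S.φ 2 = S.φ 1 - (θs 1 - θs 0) * (θ 0 - θ 2) + (θs 2 - θs 0) * (θ 1 - θ 2)) (β : K) :
    ∃ ρ ρs ω η ηs : K, AWRel A B β (θ 2 - β * θ 1 + θ 0) (θs 2 - β * θs 1 + θs 0)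
      ρ ρs ω η ηs := by
  have hA0 := S.hA 0 (by omega)
  have hA1 := S.hA 1 (by omega)
  have hA2 := S.hA 2 (by omega)
  have hB0 := S.hB 0 (by omega)
  have hB1 := S.hB 1 (by omega)
  have hB2 := S.hB 2 (by omega)
  rw [S.hu (2 + 1) (by omega), add_zero] at hA2
  rw [S.hφ0, zero_smul, add_zero] at hB0
  simp only [Nat.sub_self, zero_add, Nat.reduceAdd, Nat.add_one_sub_one, hφ, Nat.reduceSub]
    at hA0 hA1 hA2 hB0 hB1 hB2
  have b0 : S.b 0 = S.u 0 := S.hb 0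
  have b1 : S.b 1 = S.u 1 := S.hb 1
  have b2 : S.b 2 = S.u 2 := S.hb 2
  obtain ⟨φ, hφ'⟩ : ∃ φ, φ = S.φ 1 := ⟨_, rfl⟩
  rw [← hφ'] at hB1 hB2
  refine ⟨θ 0 ^ 2 - β * θ 0 * θ 1 + θ 1 ^ 2 - (θ 2 - β * θ 1 + θ 0) * (θ 0 + θ 1),
    θs 0 ^ 2 - β * θs 0 * θs 1 + θs 1 ^ 2 - (θs 2 - β * θs 1 + θs 0) * (θs 0 + θs 1),
    θs 0 * (θ 0 + θ 1) - β * (θ 0 * θs 0 + φ + θs 1 * θ 1) + (θ 0 + θ 1) * θs 1
      + (φ - (θs 1 - θs 0) * (θ 0 - θ 2) + (θs 2 - θs 0) * (θ 1 - θ 2))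
      - (θ 2 - β * θ 1 + θ 0) * (θs 0 + θs 1) - (θs 2 - β * θs 1 + θs 0) * (θ 0 + θ 1),
    θs 0 * θ 0 ^ 2 - β * (θ 0 * θs 0 + φ) * θ 0 + θ 0 ^ 2 * θs 0 + (θ 0 + θ 1) * φ
      - (θ 2 - β * θ 1 + θ 0) * (θ 0 * θs 0 + θ 0 * θs 0 + φ)
      - (θ 0 ^ 2 - β * θ 0 * θ 1 + θ 1 ^ 2 - (θ 2 - β * θ 1 + θ 0) * (θ 0 + θ 1)) * θs 0
      - (θs 2 - β * θs 1 + θs 0) * θ 0 ^ 2
      - (θs 0 * (θ 0 + θ 1) - β * (θ 0 * θs 0 + φ + θs 1 * θ 1) + (θ 0 + θ 1) * θs 1
      + (φ - (θs 1 - θs 0) * (θ 0 - θ 2) + (θs 2 - θs 0) * (θ 1 - θ 2))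
      - (θ 2 - β * θ 1 + θ 0) * (θs 0 + θs 1) - (θs 2 - β * θs 1 + θs 0) * (θ 0 + θ 1)) * θ 0,
    θ 0 * θs 0 ^ 2 + θs 1 * φ + φ * θs 0 - β * θs 0 * (θ 0 * θs 0 + φ) + θs 0 ^ 2 * θ 0
      - (θs 2 - β * θs 1 + θs 0) * (2 * θ 0 * θs 0 + φ)
      - (θs 0 ^ 2 - β * θs 0 * θs 1 + θs 1 ^ 2 - (θs 2 - β * θs 1 + θs 0) * (θs 0 + θs 1)) * θ 0
      - (θ 2 - β * θ 1 + θ 0) * θs 0 ^ 2
      - (θs 0 * (θ 0 + θ 1) - β * (θ 0 * θs 0 + φ + θs 1 * θ 1) + (θ 0 + θ 1) * θs 1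
      + (φ - (θs 1 - θs 0) * (θ 0 - θ 2) + (θs 2 - θs 0) * (θ 1 - θ 2))
      - (θ 2 - β * θ 1 + θ 0) * (θs 0 + θs 1) - (θs 2 - β * θs 1 + θs 0) * (θ 0 + θ 1)) * θs 0,
    ?_, ?_⟩
  · apply S.b.ext
    intro i
    have hi : i = 0 ∨ i = 1 ∨ i = 2 := by
      have := i.2
      rcases i with ⟨i, hi⟩
      simp only [Fin.ext_iff]
      show i = 0 ∨ i = 1 ∨ i = 2
      omega
    rcases hi with rfl | rfl | rfl
    · simp only [b0, LinearMap.add_apply, LinearMap.sub_apply, LinearMap.smul_apply,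
        Module.End.mul_apply, Module.End.one_apply, map_add, map_smul, hA0, hA1, hA2, hB0, hB1,
        hB2]
      module
    · simp only [b1, LinearMap.add_apply, LinearMap.sub_apply, LinearMap.smul_apply,
        Module.End.mul_apply, Module.End.one_apply, map_add, map_smul, hA0, hA1, hA2, hB0, hB1,
        hB2]
      module
    · simp only [b2, LinearMap.add_apply, LinearMap.sub_apply, LinearMap.smul_apply,
        Module.End.mul_apply, Module.End.one_apply, map_add, map_smul, hA0, hA1, hA2, hB0, hB1,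
        hB2]
      module
  · apply S.b.ext
    intro i
    have hi : i = 0 ∨ i = 1 ∨ i = 2 := by
      have := i.2
      rcases i with ⟨i, hi⟩
      simp only [Fin.ext_iff]
      show i = 0 ∨ i = 1 ∨ i = 2
      omega
    rcases hi with rfl | rfl | rfl
    · simp only [b0, LinearMap.add_apply, LinearMap.sub_apply, LinearMap.smul_apply,
        Module.End.mul_apply, Module.End.one_apply, map_add, map_smul, hA0, hA1, hA2, hB0, hB1,
        hB2]
      module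
    · simp only [b1, LinearMap.add_apply, LinearMap.sub_apply, LinearMap.smul_apply,
        Module.End.mul_apply, Module.End.one_apply, map_add, map_smul, hA0, hA1, hA2, hB0, hB1,
        hB2]
      module
    · simp only [b2, LinearMap.add_apply, LinearMap.sub_apply, LinearMap.smul_apply,
        Module.End.mul_apply, Module.End.one_apply, map_add, map_smul, hA0, hA1, hA2, hB0, hB1,
        hB2]
      module

/-- The four products: `a1 = a2` or a linear relation. -/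
theorem conic2 {x0 x1 x2 a0 a1 a2 b0 b1 b2 : K}
    (n01 : x0 ≠ x1) (n12 : x1 ≠ x2) (n02 : x0 ≠ x2)
    (p01 : (a0 + a1 * x0 + a2 * x1) * (b0 + b1 * x0 + b2 * x1) = 1)
    (p10 : (a0 + a1 * x1 + a2 * x0) * (b0 + b1 * x1 + b2 * x0) = 1)
    (p12 : (a0 + a1 * x1 + a2 * x2) * (b0 + b1 * x1 + b2 * x2) = 1)
    (p21 : (a0 + a1 * x2 + a2 * x1) * (b0 + b1 * x2 + b2 * x1) = 1) :
    (a1 = a2 ∧ b1 = b2) ∨ (a1 ≠ a2 ∧
      a0 * (a1 + a2) + a1 * a2 * (x0 + x2) + (a1 ^ 2 + a2 ^ 2) * x1 = 0) := by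
  have k1 : (b1 - b2) * ((a0 + a1 * x0 + a2 * x1) * (a0 + a1 * x1 + a2 * x0))
      + (a1 - a2) = 0 := by
    apply mul_left_cancel₀ (sub_ne_zero.2 n01)
    linear_combination (a0 + a1 * x1 + a2 * x0) * p01 - (a0 + a1 * x0 + a2 * x1) * p10
  have k2 : (b1 - b2) * ((a0 + a1 * x1 + a2 * x2) * (a0 + a1 * x2 + a2 * x1))
      + (a1 - a2) = 0 := by
    apply mul_left_cancel₀ (sub_ne_zero.2 n12)
    linear_combination (a0 + a1 * x2 + a2 * x1) * p12 - (a0 + a1 * x1 + a2 * x2) * p21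
  by_cases h : a1 = a2
  · left
    refine ⟨h, ?_⟩
    have h1 : (b1 - b2) * ((a0 + a1 * x0 + a2 * x1) * (a0 + a1 * x1 + a2 * x0)) = 0 := by
      linear_combination k1 - h
    have h2 := left_ne_zero_of_mul_eq_one p01
    have h3 := left_ne_zero_of_mul_eq_one p10
    exact sub_eq_zero.1 ((mul_eq_zero.1 h1).resolve_right (mul_ne_zero h2 h3))
  · right
    refine ⟨h, ?_⟩
    apply mul_left_cancel₀ (mul_ne_zero (sub_ne_zero.2 h) (sub_ne_zero.2 n02))
    linear_combination (-((a0 + a1 * x1 + a2 * x2) * (a0 + a1 * x2 + a2 * x1))) * k1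
      + ((a0 + a1 * x0 + a2 * x1) * (a0 + a1 * x1 + a2 * x0)) * k2

theorem two_vanish {A B : V →ₗ[K] V} {d : ℕ} (hd : 2 ≤ d) (D : TriData A B d)
    (hθ : ∀ i j, i ≤ d → j ≤ d → D.θ i = D.θ j → i = j) {x2 x1 x0 : K}
    (h : x2 • (A * A) + x1 • A + x0 • (1 : V →ₗ[K] V) = 0) : x2 = 0 := by
  have key : ∀ i, i ≤ d → x2 * D.θ i ^ 2 + x1 * D.θ i + x0 = 0 := by
    intro i hi
    have hv : D.v i ≠ 0 := by
      have h := D.hb ⟨i, by omega⟩
      rw [← h]
      exact D.b.ne_zero _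
    have h1 := congrArg (fun f : V →ₗ[K] V => f (D.v i)) h
    simp only [LinearMap.add_apply, LinearMap.smul_apply, Module.End.mul_apply,
      Module.End.one_apply, D.hA, map_smul, smul_smul, LinearMap.zero_apply, ← add_smul] at h1
    have h2 := (smul_eq_zero.1 h1).resolve_right hv
    linear_combination h2
  have hne : ∀ i j, i ≤ d → j ≤ d → i ≠ j → D.θ i ≠ D.θ j := fun i j hi hj hij h =>
    hij (hθ i j hi hj h)
  have h0 := key 0 (by omega)
  have h1 := key 1 (by omega)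
  have h2 := key 2 (by omega)
  have g1 : x2 * (D.θ 0 + D.θ 1) + x1 = 0 := by
    apply mul_left_cancel₀ (sub_ne_zero.2 (hne 0 1 (by omega) (by omega) (by omega)))
    linear_combination h0 - h1
  have g2 : x2 * (D.θ 0 + D.θ 2) + x1 = 0 := by
    apply mul_left_cancel₀ (sub_ne_zero.2 (hne 0 2 (by omega) (by omega) (by omega)))
    linear_combination h0 - h2
  apply mul_left_cancel₀ (sub_ne_zero.2 (hne 1 2 (by omega) (by omega) (by omega)))
  linear_combination g1 - g2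

private theorem two_ring {R : Type*} [Ring R] [Algebra K R] {A B C : R}
    {γ γs ρ ω η e0 e1 e2 e f0 f1 f2 f : K}
    (hC : C = e0 • (1 : R) + e1 • A + e2 • B + e • (A * B) + e • (B * A))
    (hB : B = f0 • (1 : R) + f1 • A + f2 • C + f • (C * A) + f • (A * C))
    (h1 : A * A * B - (-2 : K) • (A * B * A) + B * A * A - γ • (A * B + B * A) - ρ • B
      = γs • (A * A) + ω • A + η • (1 : R))
    (k1 : f * e * γ + f2 * e + f * e2 = 0) (k2 : f * e * ρ + f2 * e2 - 1 = 0) :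
    (f * (e * γs + 2 * e1)) • (A * A) + (f1 + f2 * e1 + 2 * f * e0 + f * e * ω) • A
      + (f0 + f2 * e0 + f * e * η) • (1 : R) = 0 := by
  have k3 : f2 * e2 = 1 - f * e * ρ := by linear_combination k2
  have k4 : f2 * e = -(f * e * γ) - f * e2 := by linear_combination k1
  have h2 : (0 : R) = f0 • (1 : R) + f1 • A + f2 • C + f • (C * A) + f • (A * C) - B := by
    rw [← hB, sub_self]
  rw [hC] at h2
  have h3 : f0 • (1 : R) + f1 • A + f2 • (e0 • (1 : R) + e1 • A + e2 • B + e • (A * B)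
      + e • (B * A)) + f • ((e0 • (1 : R) + e1 • A + e2 • B + e • (A * B)
      + e • (B * A)) * A) + f • (A * (e0 • (1 : R) + e1 • A + e2 • B + e • (A * B)
      + e • (B * A))) - B = (f0 + f2 * e0) • (1 : R) + (f1 + f2 * e1 + 2 * f * e0) • A
      + (f2 * e2) • B - B + (f2 * e + f * e2) • (A * B + B * A) + (2 * f * e1) • (A * A)
      + (f * e) • (A * A * B - (-2 : K) • (A * B * A) + B * A * A) := by
    simp only [mul_add, add_mul, smul_mul_assoc, mul_smul_comm, mul_one, one_mul,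
      ← mul_assoc]
    module
  rw [h3] at h2
  have h4 : A * A * B - (-2 : K) • (A * B * A) + B * A * A
      = γ • (A * B + B * A) + ρ • B + (γs • (A * A) + ω • A + η • (1 : R)) := by
    rw [← h1]; abel
  rw [h4, k3, k4] at h2
  rw [h2]
  module

/-- The symmetric case `e3 = e4`. -/
theorem sym_two {A B C : V →ₗ[K] V} (D : TriData A B 2) (D' : TriData B A 2)
    {e0 e1 e2 e f0 f1 f2 f3 f4 : K} (he : e ≠ 0) {γs ρ ρs ω η ηs : K}
    (hC : C = e0 • (1 : V →ₗ[K] V) + e1 • A + e2 • B + e • (A * B) + e • (B * A))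
    (hB : B = f0 • (1 : V →ₗ[K] V) + f1 • A + f2 • C + f3 • (C * A) + f4 • (A * C))
    (haw : AWRel A B (-2) (D.θ 2 - (-2) * D.θ 1 + D.θ 0) γs ρ ρs ω η ηs) :
    e * γs + 2 * e1 = 0 := by
  have hθ := D.inj D'
  have ne : ∀ i j, i ≤ 2 → j ≤ 2 → i ≠ j → D.θ i ≠ D.θ j := fun i j hi hj hij he =>
    hij (hθ i j hi hj he)
  have p0 := pg_one D hC hB 0 (by omega)
  have p1 := pg_one D hC hB 1 (by omega)
  have hf : f4 = f3 := by
    rcases conic2 (ne 0 1 (by omega) (by omega) (by omega)) (ne 1 2 (by omega) (by omega)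
      (by omega)) (ne 0 2 (by omega) (by omega) (by omega)) p0.1 p0.2 p1.1 p1.2 with h | h
    · exact h.2
    · exact absurd rfl h.1
  rw [hf] at hB p0 p1
  have hρ : ρ = -((D.θ 0 + D.θ 1) * (D.θ 1 + D.θ 2)) := by
    obtain ⟨S, -⟩ := exists_split D D' hθ (D'.inj D)
    have := rec_quad S haw 0 (by omega)
    linear_combination -this
  have k1 : f3 * e * (D.θ 2 - (-2) * D.θ 1 + D.θ 0) + f2 * e + f3 * e2 = 0 := by
    apply mul_left_cancel₀ (sub_ne_zero.2 (ne 0 2 (by omega) (by omega) (by omega)))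
    linear_combination p0.1 - p1.1
  have k2 : f3 * e * ρ + f2 * e2 - 1 = 0 := by
    rw [hρ]
    linear_combination p0.1 - (D.θ 0 + D.θ 1) * k1
  have h1 := two_vanish le_rfl D hθ (two_ring hC hB haw.1 k1 k2)
  rcases mul_eq_zero.1 h1 with h2 | h2
  · exfalso
    rw [h2] at k1 p0
    have h3 : f2 = 0 := by
      apply mul_right_cancel₀ he
      linear_combination k1
    rw [h3] at p0
    have := p0.1
    simp at this
  · exact h2

/-- The parameters in dimension three. -/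
theorem pq_two {A B C : V →ₗ[K] V} (D : TriData A B 2) (D' : TriData B A 2)
    {e0 e1 e2 e3 e4 : K} (h : Third A B C e0 e1 e2 e3 e4) (he3 : e3 ≠ 0)
    (haw : ∀ β : K, ∃ ρ ρs ω η ηs : K, AWRel A B β (D.θ 2 - β * D.θ 1 + D.θ 0)
      (D'.θ 2 - β * D'.θ 1 + D'.θ 0) ρ ρs ω η ηs) :
    ∃ p q : K, p * q = 1 ∧ e4 = -(q * e3) ∧
      (1 - q) * e2 = q * (D.θ 2 - (p + q) * D.θ 1 + D.θ 0) * e3 ∧
      (1 - q) * e1 = q * (D'.θ 2 - (p + q) * D'.θ 1 + D'.θ 0) * e3 := by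
  have hθ := D.inj D'
  have hθs := D'.inj D
  have ne : ∀ i j, i ≤ 2 → j ≤ 2 → i ≠ j → D.θ i ≠ D.θ j := fun i j hi hj hij he =>
    hij (hθ i j hi hj he)
  have nes : ∀ i j, i ≤ 2 → j ≤ 2 → i ≠ j → D'.θ i ≠ D'.θ j := fun i j hi hj hij he =>
    hij (hθs i j hi hj he)
  obtain ⟨f0, f1, f2, f3, f4, hB⟩ := h.hB
  obtain ⟨h0, h1, h2, h3, h4, hA⟩ := h.hA
  have hC := h.hC
  have hC' := h.symm.hC
  have p0 := pg_one D hC hB 0 (by omega)
  have p1 := pg_one D hC hB 1 (by omega)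
  have p0' := pg_one D' hC' hA 0 (by omega)
  have p1' := pg_one D' hC' hA 1 (by omega)
  by_cases he : e3 = e4
  · obtain ⟨ρ, ρs, ω, η, ηs, hw⟩ := haw (-2)
    rw [← he] at hC hC'
    have k1 := sym_two D D' he3 hC hB hw
    have k2 := sym_two D' D he3 hC' hA hw.symm
    refine ⟨-1, -1, by ring, by rw [← he]; ring, ?_, ?_⟩
    · linear_combination k2
    · linear_combination k1
  · have c1 := (conic2 (ne 0 1 (by omega) (by omega) (by omega)) (ne 1 2 (by omega) (by omega)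
      (by omega)) (ne 0 2 (by omega) (by omega) (by omega)) p0.1 p0.2 p1.1 p1.2).resolve_left
      (fun h => he h.1)
    have c2 := (conic2 (nes 0 1 (by omega) (by omega) (by omega)) (nes 1 2 (by omega)
      (by omega) (by omega)) (nes 0 2 (by omega) (by omega) (by omega)) p0'.1 p0'.2 p1'.1
      p1'.2).resolve_left (fun h => he h.1.symm)
    have he4 : e4 ≠ 0 := by
      intro h4
      apply left_ne_zero_of_mul_eq_one p0.2
      apply mul_left_cancel₀ he3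
      have := c1.2
      rw [h4] at this ⊢
      linear_combination this
    refine ⟨-e3 / e4, -e4 / e3, ?_, ?_, ?_, ?_⟩
    · field_simp
    · field_simp
    · have := c1.2
      field_simp
      linear_combination this
    · have := c2.2
      field_simp
      linear_combination this

/-- The first relation for `A`, `C` when the cubic coefficient vanishes. -/
private theorem first_ring {R : Type*} [Ring R] [Algebra K R] {A B C : R}
    {β γ γs ρ ω η e0 e1 e2 e3 e4 : K}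
    (hC : C = e0 • (1 : R) + e1 • A + e2 • B + e3 • (A * B) + e4 • (B * A))
    (h1 : A * A * B - β • (A * B * A) + B * A * A - γ • (A * B + B * A) - ρ • B
      = γs • (A * A) + ω • A + η • (1 : R))
    (hk : e1 * (2 - β) + (e3 + e4) * γs = 0) :
    A * A * C - β • (A * C * A) + C * A * A - γ • (A * C + C * A) - ρ • C
      = ((e3 + e4) * ω + e2 * γs - 2 * γ * e1 + (2 - β) * e0) • (A * A)
        + ((e3 + e4) * η + e2 * ω - ρ * e1 - 2 * γ * e0) • A
        + (e2 * η - ρ * e0) • (1 : R) := by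
  have hA := congrArg (fun x => A * x) h1
  have hA' := congrArg (fun x => x * A) h1
  have hk' : e1 * (2 - β) = -((e3 + e4) * γs) := by linear_combination hk
  have key : (e1 * (2 - β) + (e3 + e4) * γs) • (A * A * A) = 0 := by rw [hk, zero_smul]
  beta_reduce at hA hA'
  subst hC
  simp only [mul_add, add_mul, mul_sub, sub_mul, smul_mul_assoc, mul_smul_comm, mul_one, one_mul,
    ← mul_assoc] at h1 hA hA' ⊢
  linear_combination (norm := module) e2 • h1 + e3 • hA + e4 • hA' + key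

theorem exists_good_two {A B C : V →ₗ[K] V} (D : TriData A B 2)
    (D' : TriData B A 2) {e0 e1 e2 e3 e4 : K} (h : Third A B C e0 e1 e2 e3 e4)
    (he3 : e3 ≠ 0) :
    ∃ g : Good A B C 2 D.θ D'.θ e0 e1 e2 e3 e4, g.S.u 0 = D'.v 0 := by
  have hθ := D.inj D'
  have hθs := D'.inj D
  obtain ⟨S, hS⟩ := exists_split D D' hθ hθs
  obtain ⟨S', hS'⟩ : ∃ S' : SplitData A B 2 (fun i => D.θ (2 - i)) D'.θ,
      S'.u 0 = D'.v 0 := by
    obtain ⟨D'', hD''⟩ := D.exists_rev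
    rw [← hD'']
    exact exists_split D'' D' (D''.inj D') hθs
  have p1 := psi_one (by omega) S S' (by rw [hS, hS'])
  have p2 := psi_last (by omega) hθ S S' (by rw [hS, hS'])
  have hφ2 : S.φ 2 = S.φ 1 - (D'.θ 1 - D'.θ 0) * (D.θ 0 - D.θ 2)
      + (D'.θ 2 - D'.θ 0) * (D.θ 1 - D.θ 2) := by
    rw [p1] at p2
    have e : (2 : ℕ) - 1 = 1 := rfl
    rw [e] at p2
    linear_combination -p2
  obtain ⟨p, q, hpq, he4, hcl, hcls⟩ := pq_two D D' h he3 (aw_two S hφ2)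
  obtain ⟨ρ, ρs, ω, η, ηs, haw⟩ := aw_two S hφ2 (p + q)
  obtain ⟨f0, f1, f2, f3, f4, hB⟩ := h.hB
  obtain ⟨h0, h1, h2, h3, h4, hA⟩ := h.hA
  have hC := h.hC
  have hC' := h.symm.hC
  have pg := pg_one D hC hB
  have pg' := pg_one D' hC' hA
  have hF : ∀ i, i < 2 → e2 + e3 * D.θ (i + 1) + e4 * D.θ i ≠ 0 := fun i hi =>
    left_ne_zero_of_mul_eq_one (pg i hi).2
  have hG : ∀ i, i < 2 → e2 + e3 * D.θ i + e4 * D.θ (i + 1) ≠ 0 := fun i hi =>
    left_ne_zero_of_mul_eq_one (pg i hi).1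
  have hFs : ∀ i, i < 2 → e1 + e4 * D'.θ (i + 1) + e3 * D'.θ i ≠ 0 := fun i hi =>
    left_ne_zero_of_mul_eq_one (pg' i hi).2
  have hGs : ∀ i, i < 2 → e1 + e4 * D'.θ i + e3 * D'.θ (i + 1) ≠ 0 := fun i hi =>
    left_ne_zero_of_mul_eq_one (pg' i hi).1
  have e3t2 : e3 * (D.θ 2 - (1 + p) * D.θ 1 + p * D.θ 0)
      = (p - 1) * (e2 + e3 * D.θ 0 + e4 * D.θ 1) := by
    rw [he4]
    linear_combination (-p) * hcl + (-e2 - e3 * D.θ 0 + e3 * D.θ 1 - e3 * D.θ 2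
      + e3 * p * D.θ 1 + e3 * q * D.θ 1) * hpq
  have e3w2 : e3 * (D'.θ 2 - (1 + p) * D'.θ 1 + p * D'.θ 0)
      = (p - 1) * (e1 + e3 * D'.θ 0 + e4 * D'.θ 1) := by
    rw [he4]
    linear_combination (-p) * hcls + (-e1 - e3 * D'.θ 0 + e3 * D'.θ 1 - e3 * D'.θ 2
      + e3 * p * D'.θ 1 + e3 * q * D'.θ 1) * hpq
  have h3' : (e1 + e3 * D'.θ 0 + e4 * D'.θ 1) * (D.θ 2 - (1 + p) * D.θ 1 + p * D.θ 0)
      = (e2 + e3 * D.θ 0 + e4 * D.θ 1) * (D'.θ 2 - (1 + p) * D'.θ 1 + p * D'.θ 0) := by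
    apply mul_left_cancel₀ he3
    linear_combination (e1 + e3 * D'.θ 0 + e4 * D'.θ 1) * e3t2
      - (e2 + e3 * D.θ 0 + e4 * D.θ 1) * e3w2
  have hk : e1 * (2 - (p + q)) + (e3 + e4) * (D'.θ 2 - (p + q) * D'.θ 1 + D'.θ 0) = 0 := by
    rw [he4]
    linear_combination (1 - p) * hcls - (e1 + (D'.θ 2 - (p + q) * D'.θ 1 + D'.θ 0) * e3) * hpq
  obtain ⟨ψ, hψ⟩ : ∃ ψ, ψ = S.φ 1 - (D'.θ 1 - D'.θ 0) * (D.θ 0 - D.θ 2) := ⟨_, rfl⟩
  have b2 : br p 2 = 1 + p := by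
    rw [show (2 : ℕ) = 1 + 1 from rfl, br_succ, br_one, mul_one]
  have s2 : ss p q 2 = 1 := by
    rw [show (2 : ℕ) = 1 + 1 from rfl, ss_succ, br_one, ss_one, mul_zero, add_zero]
  have b3 : br p 3 = 1 + p * (1 + p) := by
    rw [show (3 : ℕ) = 2 + 1 from rfl, br_succ, b2]
  have s3 : ss p q 3 = 1 + p + q := by
    rw [show (3 : ℕ) = 2 + 1 from rfl, ss_succ, b2, s2, mul_one]
  have hsd : ScalarData 2 D.θ D'.θ p q (D.θ 0) (D.θ 1 - D.θ 0)
      (D.θ 2 - (1 + p) * D.θ 1 + p * D.θ 0)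
      (D'.θ 0) (D'.θ 1 - D'.θ 0) (D'.θ 2 - (1 + p) * D'.θ 1 + p * D'.θ 0) e3
      (e1 + e3 * D'.θ 0 + e4 * D'.θ 1) (e2 + e3 * D.θ 0 + e4 * D.θ 1) := by
    refine ⟨hpq, ?_, ?_, e3t2, e3w2, h3', ?_, ?_, ?_⟩
    · intro i hi
      have : i = 0 ∨ i = 1 ∨ i = 2 := by omega
      rcases this with rfl | rfl | rfl
      · simp
      · simp
      · rw [b2, s2]
        ring
    · intro i hi
      have : i = 0 ∨ i = 1 ∨ i = 2 := by omega
      rcases this with rfl | rfl | rfl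
      · simp
      · simp
      · rw [b2, s2]
        ring
    · intro he
      apply hFs 0 (by omega)
      linear_combination he
    · exact hG 0 (by omega)
    · intro he
      have := hθ 2 0 le_rfl (by omega) he
      omega
  refine ⟨⟨p, q, D.θ 2 - (p + q) * D.θ 1 + D.θ 0, D'.θ 2 - (p + q) * D'.θ 1 + D'.θ 0, ρ, ω,
    (e3 + e4) * η + e2 * ω - ρ * e1 - 2 * (D.θ 2 - (p + q) * D.θ 1 + D.θ 0) * e0,
    e2 * η - ρ * e0, S, ψ, -(p * ψ),
    h.hC, hsd, he4, ?_, ?_, ?_, rfl, rfl, ?_, first_ring hC haw.1 hk, S.hφ 0 (by omega), hF,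
    hG, hFs, hGs⟩, hS⟩
  · intro i hi
    have : i = 0 ∨ i = 1 := by omega
    rcases this with rfl | rfl
    · rw [zero_add, br_one, ss_one, hψ]
      ring
    · rw [show (1 : ℕ) + 1 = 2 from rfl, b2, s2, hφ2, hψ]
      ring
  · rw [show (2 : ℕ) + 1 = 3 from rfl, b3, s3]
    linear_combination -ψ * hpq
  · rw [b2, s2]
    ring
  · have := rec_phi S haw 0 (by omega)
    rw [S.hφ0] at this
    simp only [zero_add] at this
    rw [this]
    ring

/-- Both cases. -/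
theorem exists_good' {A B C : V →ₗ[K] V} {d : ℕ} (hd : 2 ≤ d) (D : TriData A B d)
    (D' : TriData B A d) {e0 e1 e2 e3 e4 : K} (h : Third A B C e0 e1 e2 e3 e4)
    (h2 : d = 2 → e3 ≠ 0) :
    ∃ g : Good A B C d D.θ D'.θ e0 e1 e2 e3 e4, g.S.u 0 = D'.v 0 := by
  rcases Nat.lt_or_ge d 3 with h3 | h3
  · obtain rfl : d = 2 := by omega
    exact exists_good_two D D' h (h2 rfl)
  · exact exists_good h3 D D' h

end Pool.Agent.AW3
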