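import Pool.Agent.helper39.AW3.Triple
import Pool.Agent.helper39.AW3.Two

/-!
# Base change to a larger field
-/

namespace Pool.Agent.AW3

open Module TensorProduct

variable {K V : Type*} [Field K] [AddCommGroup V] [Module K V]
  (L : Type*) [Field L] [Algebra K L]

theorem TriData.exists_baseChange {A B : V →ₗ[K] V} {d : ℕ} (D : TriData A B d) :
    ∃ D2 : TriData (A.baseChange L) (B.baseChange L) d,
      D2.θ = (fun i => algebraMap K L (D.θ i)) ∧ D2.a = (fun i => algebraMap K L (D.a i)) := by
  refine ⟨⟨fun i => (1 : L) ⊗ₜ[K] D.v i, fun i => algebraMap K L (D.θ i),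
    fun i => algebraMap K L (D.a i), fun i => algebraMap K L (D.x i),
    fun i => algebraMap K L (D.y i), D.b.baseChange L, ?_, ?_, ?_, ?_, ?_, ?_, ?_⟩, rfl, rfl⟩
  · intro i
    rw [Basis.baseChange_apply, D.hb]
  · intro i hi
    rw [D.hv i hi, tmul_zero]
  · intro i
    rw [LinearMap.baseChange_tmul, D.hA, tmul_smul, algebraMap_smul]
  · intro i hi
    rw [LinearMap.baseChange_tmul, D.hB i hi, tmul_add, tmul_add, tmul_smul, tmul_smul,
      tmul_smul, algebraMap_smul, algebraMap_smul, algebraMap_smul]
  · rw [D.hx0, map_zero]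
  · intro i hi
    exact (map_ne_zero _).2 (D.hx i hi)
  · intro i hi
    exact (map_ne_zero _).2 (D.hy i hi)

theorem baseChange_mul' (S T : V →ₗ[K] V) :
    (S * T : V →ₗ[K] V).baseChange L = S.baseChange L * T.baseChange L :=
  LinearMap.baseChange_comp _ _

theorem baseChange_smul' (a : K) (T : V →ₗ[K] V) :
    (a • T : V →ₗ[K] V).baseChange L = algebraMap K L a • T.baseChange L := by
  rw [LinearMap.baseChange_smul, algebraMap_smul]

theorem baseChange_one' : (1 : V →ₗ[K] V).baseChange L = 1 := LinearMap.baseChange_id

theorem AskeyWilson.baseChange {A B : V →ₗ[K] V} (h : AskeyWilson K A B) :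
    AskeyWilson L (A.baseChange L) (B.baseChange L) := by
  obtain ⟨β, γ, γs, ρ, ρs, ω, η, ηs, h1, h2⟩ := h
  refine ⟨algebraMap K L β, algebraMap K L γ, algebraMap K L γs, algebraMap K L ρ,
    algebraMap K L ρs, algebraMap K L ω, algebraMap K L η, algebraMap K L ηs, ?_, ?_⟩
  · have := congrArg (LinearMap.baseChange L) h1
    simpa only [LinearMap.baseChange_add, LinearMap.baseChange_sub, baseChange_mul',
      baseChange_smul', baseChange_one'] using this
  · have := congrArg (LinearMap.baseChange L) h2
    simpa only [LinearMap.baseChange_add, LinearMap.baseChange_sub, baseChange_mul',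
      baseChange_smul', baseChange_one'] using this

theorem Third.baseChange {A B C : V →ₗ[K] V} {e0 e1 e2 e3 e4 : K}
    (h : Third A B C e0 e1 e2 e3 e4) :
    Third (A.baseChange L) (B.baseChange L) (C.baseChange L) (algebraMap K L e0)
      (algebraMap K L e1) (algebraMap K L e2) (algebraMap K L e3) (algebraMap K L e4) := by
  obtain ⟨f0, f1, f2, f3, f4, hf⟩ := h.hB
  obtain ⟨g0, g1, g2, g3, g4, hg⟩ := h.hA
  refine ⟨?_, ⟨algebraMap K L f0, algebraMap K L f1, algebraMap K L f2, algebraMap K L f3,
    algebraMap K L f4, ?_⟩, ⟨algebraMap K L g0, algebraMap K L g1, algebraMap K L g2,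
    algebraMap K L g3, algebraMap K L g4, ?_⟩, h.hAB.baseChange L, h.hAC.baseChange L,
    h.hBC.baseChange L⟩
  · have := congrArg (LinearMap.baseChange L) h.hC
    simpa only [LinearMap.baseChange_add, LinearMap.baseChange_sub, baseChange_mul',
      baseChange_smul', baseChange_one'] using this
  · have := congrArg (LinearMap.baseChange L) hf
    simpa only [LinearMap.baseChange_add, LinearMap.baseChange_sub, baseChange_mul',
      baseChange_smul', baseChange_one'] using this
  · have := congrArg (LinearMap.baseChange L) hg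
    simpa only [LinearMap.baseChange_add, LinearMap.baseChange_sub, baseChange_mul',
      baseChange_smul', baseChange_one'] using this

end Pool.Agent.AW3
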