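import Pool.Agent.helper39.AW3.Ext

/-!
# Spectrum of the third element; diagonalizability; Leonard triples
-/

namespace Pool.Agent.AW3

open Module TensorProduct Polynomial

/-- `q = -e4 / e3`, and `q = 1` if `e3 = 0`. -/
noncomputable def qOf {K : Type*} [Field K] (e3 e4 : K) : K :=
  open Classical in if e3 = 0 then 1 else -e4 / e3

variable {K V : Type*} [Field K] [AddCommGroup V] [Module K V]

section

variable {A B C : V →ₗ[K] V} {d : ℕ} {e0 e1 e2 e3 e4 : K}

theorem Good.q_eq {θ θs : ℕ → K} (g : Good A B C d θ θs e0 e1 e2 e3 e4) :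
    g.q = qOf e3 e4 := by
  rw [qOf]
  have h4 := g.he4
  split_ifs with h
  · have h1 := g.hsd.h1
    have h2 : g.p - 1 = 0 := by
      have : (g.p - 1) * (e2 + e3 * θ 0 + e4 * θ 1) = 0 := by
        linear_combination -h1 + (θ 2 - (1 + g.p) * θ 1 + g.p * θ 0) * h
      exact (mul_eq_zero.1 this).resolve_right g.hsd.hG
    have h3 := g.hsd.hpq
    linear_combination h3 - g.q * h2
  · rw [eq_div_iff h]
    linear_combination h4

theorem Good.p_eq {θ θs : ℕ → K} (g : Good A B C d θ θs e0 e1 e2 e3 e4) :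
    g.p = (qOf e3 e4)⁻¹ := by
  rw [← g.q_eq]
  exact eq_inv_of_mul_eq_one_left g.hsd.hpq

theorem Good.phi1 (hd : 1 ≤ d) (D : TriData A B d) (D' : TriData B A d)
    (g : Good A B C d D.θ D'.θ e0 e1 e2 e3 e4) (hu : g.S.u 0 = D'.v 0) :
    g.S.φ 1 = (D'.a 0 - D.θ 0) * (D'.θ 0 - D'.θ 1) := by
  have h1 := g.S.hA 0 (by omega)
  have h2 := D'.hB 0 (by omega)
  rw [hu] at h1
  rw [D'.hx0, zero_smul, zero_add, h1, zero_add] at h2
  have h3 := g.S.hB 1 hd
  have h4 : g.S.u 1 = (D'.a 0 - D.θ 0) • D'.v 0 + D'.y 0 • D'.v 1 := by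
    rw [sub_smul]
    have : g.S.u 1 = D'.a 0 • D'.v 0 + D'.y 0 • D'.v 1 - D.θ 0 • D'.v 0 := by
      rw [← h2, add_sub_cancel_left]
    rw [this]; abel
  rw [Nat.sub_self, hu, h4, map_add, map_smul, map_smul, D'.hA, D'.hA] at h3
  have h5 : ((D'.a 0 - D.θ 0) * D'.θ 0 - D'.θ 1 * (D'.a 0 - D.θ 0) - g.S.φ 1) • D'.v 0 = 0 := by
    have h6 : ((D'.a 0 - D.θ 0) * D'.θ 0 - D'.θ 1 * (D'.a 0 - D.θ 0) - g.S.φ 1) • D'.v 0
        = ((D'.a 0 - D.θ 0) • D'.θ 0 • D'.v 0 + D'.y 0 • D'.θ 1 • D'.v 1)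
          - (D'.θ 1 • ((D'.a 0 - D.θ 0) • D'.v 0 + D'.y 0 • D'.v 1)
            + g.S.φ 1 • D'.v 0) := by module
    rw [h6, h3, sub_self]
  have hv : D'.v 0 ≠ 0 := by
    have := D'.hb 0
    simp only [Fin.val_zero] at this
    rw [← this]
    exact D'.b.ne_zero 0
  have h7 := (smul_eq_zero.1 h5).resolve_right hv
  linear_combination -h7

theorem roots_prod (f : ℕ → K) (n : ℕ) :
    (∏ j ∈ Finset.range n, (X - Polynomial.C (f j))).roots
      = Multiset.map f (Finset.range n).val := by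
  have h : (∏ j ∈ Finset.range n, (X - Polynomial.C (f j)))
      = (Multiset.map (fun a => X - Polynomial.C a)
          (Multiset.map f (Finset.range n).val)).prod := by
    rw [Multiset.map_map]; rfl
  rw [h, Polynomial.roots_multiset_prod_X_sub_C]

/-- The characteristic polynomial for a root `c` in the field. -/
theorem spec_root [Module.Finite K V] (hd : 2 ≤ d) (h2 : d = 2 → e3 ≠ 0)
    (hV : finrank K V = d + 1)
    (D : TriData A B d) (D' : TriData B A d) (h : Third A B C e0 e1 e2 e3 e4) (c : K)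
    (hc : quadC d (qOf e3 e4)⁻¹ D.θ D'.θ e1 e2 e3 e4
      ((D'.a 0 - D.θ 0) * (D'.θ 0 - D'.θ 1)) c = 0) :
    C.charpoly = ∏ j ∈ Finset.range (d + 1), (X - Polynomial.C
      (eig d (qOf e3 e4)⁻¹ (qOf e3 e4) D.θ D'.θ e0 e1 e2 e3 e4
        ((D'.a 0 - D.θ 0) * (D'.θ 0 - D'.θ 1)) c j)) := by
  obtain ⟨g, hg⟩ := exists_good' hd D D' h h2
  rw [← g.phi1 (by omega) D D' hg, ← g.p_eq] at hc
  rw [← g.phi1 (by omega) D D' hg, ← g.p_eq, ← g.q_eq]
  exact core_charpoly hd hV D D' h g c hc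

theorem triple_root [Module.Finite K V] (hd : 2 ≤ d) (h2 : d = 2 → e3 ≠ 0)
    (hV : finrank K V = d + 1)
    (D : TriData A B d) (D' : TriData B A d) (h : Third A B C e0 e1 e2 e3 e4) (c : K)
    (hc : quadC d (qOf e3 e4)⁻¹ D.θ D'.θ e1 e2 e3 e4
      ((D'.a 0 - D.θ 0) * (D'.θ 0 - D'.θ 1)) c = 0)
    (hinj : ∀ i j, i ≤ d → j ≤ d → eig d (qOf e3 e4)⁻¹ (qOf e3 e4) D.θ D'.θ e0 e1 e2 e3 e4
        ((D'.a 0 - D.θ 0) * (D'.θ 0 - D'.θ 1)) c i
      = eig d (qOf e3 e4)⁻¹ (qOf e3 e4) D.θ D'.θ e0 e1 e2 e3 e4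
        ((D'.a 0 - D.θ 0) * (D'.θ 0 - D'.θ 1)) c j → i = j) :
    LeonardTriple A B C := by
  have hcp := spec_root hd h2 hV D D' h c hc
  obtain ⟨w, hw⟩ := eigenbasis_of_charpoly hV _ hinj hcp
  obtain ⟨g, hg⟩ := exists_good' hd D D' h h2
  rw [← g.phi1 (by omega) D D' hg, ← g.p_eq] at hc
  rw [← g.phi1 (by omega) D D' hg, ← g.p_eq, ← g.q_eq] at hinj
  have hw' : ∀ i : Fin (d + 1), C (w i)
      = eig d g.p g.q D.θ D'.θ e0 e1 e2 e3 e4 (g.S.φ 1) c i • w i := by
    intro i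
    rw [hw i, g.phi1 (by omega) D D' hg, g.p_eq, g.q_eq]
  exact triple_of_hess D D' h w _ hw' (fun i j hij =>
    core_hess hd hV D D' h g c hc hinj w hw' i j hij)

theorem qOf_map (L : Type*) [Field L] [Algebra K L] (e3 e4 : K) :
    qOf (algebraMap K L e3) (algebraMap K L e4) = algebraMap K L (qOf e3 e4) := by
  rw [qOf, qOf]
  by_cases h : e3 = 0
  · rw [if_pos h, if_pos (by rw [h, map_zero]), map_one]
  · rw [if_neg h, if_neg (by simpa using h), map_div₀, map_neg]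

theorem br_map (L : Type*) [Field L] [Algebra K L] (p : K) (i : ℕ) :
    br (algebraMap K L p) i = algebraMap K L (br p i) := by
  induction i with
  | zero => simp
  | succ n ih => rw [br_succ, br_succ, ih, map_add, map_one, map_mul]

theorem ss_map (L : Type*) [Field L] [Algebra K L] (p q : K) (i : ℕ) :
    ss (algebraMap K L p) (algebraMap K L q) i = algebraMap K L (ss p q i) := by
  induction i with
  | zero => simp
  | succ n ih => rw [ss_succ, ss_succ, ih, br_map, map_add, map_mul]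

theorem quadC_map (L : Type*) [Field L] [Algebra K L] (d : ℕ) (p : K) (θ θs : ℕ → K)
    (e1 e2 e3 e4 φ1 c : K) :
    quadC d (algebraMap K L p) (fun i => algebraMap K L (θ i)) (fun i => algebraMap K L (θs i))
      (algebraMap K L e1) (algebraMap K L e2) (algebraMap K L e3) (algebraMap K L e4)
      (algebraMap K L φ1) (algebraMap K L c)
      = algebraMap K L (quadC d p θ θs e1 e2 e3 e4 φ1 c) := by
  simp only [quadC, cE, cG, cY, br_map, map_add, map_sub, map_mul]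

theorem eig_map (L : Type*) [Field L] [Algebra K L] (d : ℕ) (p q : K) (θ θs : ℕ → K)
    (e0 e1 e2 e3 e4 φ1 c : K) (j : ℕ) :
    eig d (algebraMap K L p) (algebraMap K L q) (fun i => algebraMap K L (θ i))
      (fun i => algebraMap K L (θs i)) (algebraMap K L e0)
      (algebraMap K L e1) (algebraMap K L e2) (algebraMap K L e3) (algebraMap K L e4)
      (algebraMap K L φ1) (algebraMap K L c) j
      = algebraMap K L (eig d p q θ θs e0 e1 e2 e3 e4 φ1 c j) := by
  simp only [eig, cE, cG, cY, br_map, ss_map, map_add, map_sub, map_mul, map_div₀, map_one]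

end

end Pool.Agent.AW3
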