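import Pool.Agent.helper39.AW3.Tri

/-!
# Consequences of (i)-(iv) in the eigenbasis of `A`

Throughout `C = e0 + e1 A + e2 B + e3 A B + e4 B A`, `D : TriData A B d`, `v = D.v`, `θ = D.θ`.
`coeff` facts: the coefficient of `v (i - 1)` in `C (v i)` is `(e2 + e3 θ_{i-1} + e4 θ_i) x_i`, that
of `v i` is `e0 + e1 θ_i + e2 a_i + (e3 + e4) θ_i a_i` and that of `v (i + 1)` is
`(e2 + e3 θ_{i+1} + e4 θ_i) y_i`.

`pg_one`: `B = f0 + f1 A + f2 C + f3 C A + f4 A C`; compare the coefficients of `v i` in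
`B (v (i+1))`: `x = (f2 + f3 θ_{i+1} + f4 θ_i) (e2 + e3 θ_i + e4 θ_{i+1}) x`, and of `v (i+1)` in
`B (v i)`.

`aw_third`: let `β', γ', ρ', …` be the scalars of the relations of `A, C`.  The coefficient of
`v (i+1)` in the first relation at `v i` is
`(θ_i^2 - β' θ_i θ_{i+1} + θ_{i+1}^2 - γ' (θ_i + θ_{i+1}) - ρ') * (nonzero) = 0`.  Together with
the same for `β, γ, ρ` at `i = 0, 1, 2` one gets linear recurrences
`θ_{i+2} - β θ_{i+1} + θ_i = γ` (`i = 0, 1`), so `(β' - β) θ_1 + (γ' - γ) = 0 = (β' - β) θ_2 +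
(γ' - γ)`, hence `β' = β`, `γ' = γ`, then `ρ' = ρ`.
With `R = A A B - β A B A + B A A - γ (A B + B A) - ρ B = γs A A + ω A + η` (it commutes with `A`)
the left side of the first relation for `C` is
`e0 ((2-β) A A - 2γ A - ρ) + e1 ((2-β) A A A - 2γ A A - ρ A) + e2 R + e3 A R + e4 R A`.
So a polynomial of degree `≤ 3` in `A` vanishes; `A` has `d + 1 ≥ 4` distinct eigenvalues, so all
coefficients vanish.  The coefficient of `A A A` is `(e3 + e4) γs + (2 - β) e1`, the coefficient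
of `A A` is `(e3 + e4) ω + e2 γs - 2 γ e1 + (2 - β) e0 - γe`, the coefficient of `A` is
`(e3 + e4) η + e2 ω - ρ e1 - 2 γ e0 - ωe`.

`e3_zero`: `C = e0 + e1 A + e2 B`, `β = 2`.  Expand the second relation of `A, C` using
`C C A - 2 C A C + A C C = e2^2 (B B A - 2 B A B + A B B) - e1 e2 (A A B - 2 A B A + B A A)`,
the two relations of `A, B`, and `γe = e2 γs - 2 γ e1`, `ωe = e2 ω - ρ e1 - 2 γ e0`; everything
cancels except `-3 e1 (e2 γs - γ e1) A A + (scalar) A + scalar = 0`.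
-/

namespace Pool.Agent.AW3

open Module

section OperBring

variable {K R : Type*} [Field K] [Ring R] [Algebra K R]

private theorem OperB_ring1 {A B C : R} {β γ γs ρ ω η e0 e1 e2 e3 e4 γe ωe ηe : K}
    (hC : C = e0 • (1 : R) + e1 • A + e2 • B + e3 • (A * B) + e4 • (B * A))
    (h1 : A * A * B - β • (A * B * A) + B * A * A - γ • (A * B + B * A) - ρ • B
      = γs • (A * A) + ω • A + η • (1 : R))
    (h2 : A * A * C - β • (A * C * A) + C * A * A - γ • (A * C + C * A) - ρ • C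
      = γe • (A * A) + ωe • A + ηe • (1 : R)) :
    (e1 * (2 - β) + (e3 + e4) * γs) • (A * A * A) +
      (e0 * (2 - β) - 2 * γ * e1 + e2 * γs + (e3 + e4) * ω - γe) • (A * A) +
      (- 2 * γ * e0 - ρ * e1 + e2 * ω + (e3 + e4) * η - ωe) • A +
      (- ρ * e0 + e2 * η - ηe) • (1 : R) = 0 := by
  have hA := congrArg (fun x => A * x) h1
  have hA' := congrArg (fun x => x * A) h1
  beta_reduce at hA hA'
  subst hC
  simp only [mul_add, add_mul, mul_sub, sub_mul, smul_mul_assoc, mul_smul_comm, mul_one, one_mul,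
    ← mul_assoc] at h1 h2 hA hA' ⊢
  linear_combination (norm := module) h2 - e2 • h1 - e3 • hA - e4 • hA'

private theorem OperB_ring2 {A B C : R} {γ γs ρ ρs ω η ηs e0 e1 e2 ρe ηes : K}
    (hC : C = e0 • (1 : R) + e1 • A + e2 • B)
    (h1 : A * A * B - (2 : K) • (A * B * A) + B * A * A - γ • (A * B + B * A) - ρ • B
      = γs • (A * A) + ω • A + η • (1 : R))
    (h2 : B * B * A - (2 : K) • (B * A * B) + A * B * B - γs • (B * A + A * B) - ρs • A
      = γ • (B * B) + ω • B + ηs • (1 : R))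
    (h3 : C * C * A - (2 : K) • (C * A * C) + A * C * C
        - (e2 * γs - 2 * γ * e1) • (C * A + A * C) - ρe • A
      = γ • (C * C) + (e2 * ω - ρ * e1 - 2 * γ * e0) • C + ηes • (1 : R)) :
    (0 : K) • (A * A * A) + (- 3 * (e1 * (e2 * γs - γ * e1))) • (A * A) +
      (e2 ^ 2 * ρs - e1 * e2 * ω - 2 * e0 * (e2 * γs - 2 * γ * e1) - ρe - 2 * γ * e0 * e1
        - (e2 * ω - ρ * e1 - 2 * γ * e0) * e1) • A +
      (e2 ^ 2 * ηs - e1 * e2 * η - γ * e0 ^ 2 - (e2 * ω - ρ * e1 - 2 * γ * e0) * e0 - ηes)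
        • (1 : R) = 0 := by
  subst hC
  simp only [mul_add, add_mul, mul_sub, sub_mul, smul_mul_assoc, mul_smul_comm, mul_one, one_mul,
    ← mul_assoc] at h1 h2 h3 ⊢
  linear_combination (norm := module) h3 - e2 ^ 2 • h2 + (e1 * e2) • h1

end OperBring

private theorem OperB_poly {K : Type*} [Field K] {a b c t x3 x2 x1 x0 : K}
    (hab : a ≠ b) (hac : a ≠ c) (hat : a ≠ t) (hbc : b ≠ c) (hbt : b ≠ t) (hct : c ≠ t)
    (h0 : x3 * a ^ 3 + x2 * a ^ 2 + x1 * a + x0 = 0)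
    (h1 : x3 * b ^ 3 + x2 * b ^ 2 + x1 * b + x0 = 0)
    (h2 : x3 * c ^ 3 + x2 * c ^ 2 + x1 * c + x0 = 0)
    (h3 : x3 * t ^ 3 + x2 * t ^ 2 + x1 * t + x0 = 0) : x3 = 0 ∧ x2 = 0 ∧ x1 = 0 := by
  have g1 : x3 * (a ^ 2 + a * b + b ^ 2) + x2 * (a + b) + x1 = 0 := by
    apply mul_left_cancel₀ (sub_ne_zero.2 hab)
    linear_combination h0 - h1
  have g2 : x3 * (a ^ 2 + a * c + c ^ 2) + x2 * (a + c) + x1 = 0 := by
    apply mul_left_cancel₀ (sub_ne_zero.2 hac)
    linear_combination h0 - h2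
  have g3 : x3 * (a ^ 2 + a * t + t ^ 2) + x2 * (a + t) + x1 = 0 := by
    apply mul_left_cancel₀ (sub_ne_zero.2 hat)
    linear_combination h0 - h3
  have k1 : x3 * (a + b + c) + x2 = 0 := by
    apply mul_left_cancel₀ (sub_ne_zero.2 hbc)
    linear_combination g1 - g2
  have k2 : x3 * (a + b + t) + x2 = 0 := by
    apply mul_left_cancel₀ (sub_ne_zero.2 hbt)
    linear_combination g1 - g3
  have l : x3 = 0 := by
    apply mul_left_cancel₀ (sub_ne_zero.2 hct)
    linear_combination k1 - k2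
  subst l
  have l2 : x2 = 0 := by linear_combination k1
  subst l2
  exact ⟨rfl, rfl, by linear_combination g1⟩

variable {K V : Type*} [Field K] [AddCommGroup V] [Module K V]

section

variable {A B C : V →ₗ[K] V} {d : ℕ}

private theorem OperB_vne (D : TriData A B d) {i : ℕ} (hi : i ≤ d) : D.v i ≠ 0 := by
  have h := D.hb ⟨i, by omega⟩
  rw [← h]
  exact D.b.ne_zero _

/-- a polynomial of degree at most three in `A` which vanishes -/
private theorem OperB_vanish (hd : 3 ≤ d) (D : TriData A B d)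
    (hθ : ∀ i j, i ≤ d → j ≤ d → D.θ i = D.θ j → i = j) {x3 x2 x1 x0 : K}
    (h : x3 • (A * A * A) + x2 • (A * A) + x1 • A + x0 • (1 : V →ₗ[K] V) = 0) :
    x3 = 0 ∧ x2 = 0 ∧ x1 = 0 := by
  have key : ∀ i, i ≤ d →
      x3 * D.θ i ^ 3 + x2 * D.θ i ^ 2 + x1 * D.θ i + x0 = 0 := by
    intro i hi
    have h1 := congrArg (fun f : V →ₗ[K] V => f (D.v i)) h
    simp only [LinearMap.add_apply, LinearMap.smul_apply, Module.End.mul_apply,
      Module.End.one_apply, D.hA, map_smul, smul_smul, LinearMap.zero_apply, ← add_smul] at h1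
    have h2 := (smul_eq_zero.1 h1).resolve_right (OperB_vne D hi)
    linear_combination h2
  have hne : ∀ i j, i ≤ d → j ≤ d → i ≠ j → D.θ i ≠ D.θ j := fun i j hi hj hij h =>
    hij (hθ i j hi hj h)
  exact OperB_poly (hne 0 1 (by omega) (by omega) (by omega))
    (hne 0 2 (by omega) (by omega) (by omega)) (hne 0 3 (by omega) (by omega) (by omega))
    (hne 1 2 (by omega) (by omega) (by omega)) (hne 1 3 (by omega) (by omega) (by omega))
    (hne 2 3 (by omega) (by omega) (by omega)) (key 0 (by omega)) (key 1 (by omega))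
    (key 2 (by omega)) (key 3 (by omega))

/-- the coordinate of `v j` -/
private noncomputable def OperB_co (D : TriData A B d) (j : ℕ) (hj : j ≤ d) : V →ₗ[K] K :=
  D.b.coord ⟨j, by omega⟩

private theorem OperB_co_v (D : TriData A B d) (j : ℕ) (hj : j ≤ d) (i : ℕ) (hi : i ≤ d) :
    OperB_co D j hj (D.v i) = if i = j then 1 else 0 := by
  have h := D.hb ⟨i, by omega⟩
  rw [← h, OperB_co, Basis.coord_apply, Basis.repr_self, Finsupp.single_apply]
  simp only [Fin.mk.injEq]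

private theorem OperB_co_A (D : TriData A B d) (j : ℕ) (hj : j ≤ d) (w : V) :
    OperB_co D j hj (A w) = D.θ j * OperB_co D j hj w := by
  have h : (OperB_co D j hj) ∘ₗ A = D.θ j • OperB_co D j hj := by
    refine D.b.ext fun i => ?_
    have hi : (i : ℕ) ≤ d := by omega
    rw [LinearMap.comp_apply, LinearMap.smul_apply, D.hb i, D.hA, map_smul,
      OperB_co_v D j hj i hi]
    split_ifs with h
    · rw [h]
    · rw [smul_zero, smul_zero]
  exact congrArg (fun f : V →ₗ[K] K => f w) h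

private theorem OperB_co_B (D : TriData A B d) (i : ℕ) (hi : i + 1 ≤ d) :
    OperB_co D (i + 1) hi (B (D.v i)) = D.y i := by
  rw [D.hB i (by omega), map_add, map_add, map_smul, map_smul, map_smul,
    OperB_co_v D (i + 1) hi (i - 1) (by omega), OperB_co_v D (i + 1) hi i (by omega),
    OperB_co_v D (i + 1) hi (i + 1) hi, if_neg (by omega), if_neg (by omega), if_pos rfl]
  simp

private theorem OperB_quad {e0 e1 e2 e3 e4 β γ γe ρ ωe ηe : K} (D : TriData A B d)
    (hC : C = e0 • (1 : V →ₗ[K] V) + e1 • A + e2 • B + e3 • (A * B) + e4 • (B * A))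
    (hF : ∀ i, i < d → e2 + e3 * D.θ (i + 1) + e4 * D.θ i ≠ 0)
    (h2 : A * A * C - β • (A * C * A) + C * A * A - γ • (A * C + C * A) - ρ • C
      = γe • (A * A) + ωe • A + ηe • (1 : V →ₗ[K] V)) (i : ℕ) (hi : i + 1 ≤ d) :
    D.θ i ^ 2 - β * D.θ i * D.θ (i + 1) + D.θ (i + 1) ^ 2
      - γ * (D.θ i + D.θ (i + 1)) - ρ = 0 := by
  have hCv : OperB_co D (i + 1) hi (C (D.v i)) =
      (e2 + e3 * D.θ (i + 1) + e4 * D.θ i) * D.y i := by
    have h := congrArg (fun f : V →ₗ[K] V => OperB_co D (i + 1) hi (f (D.v i))) hC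
    simp only [LinearMap.add_apply, LinearMap.smul_apply, Module.End.mul_apply,
      Module.End.one_apply, D.hA, map_smul, map_add, OperB_co_A, OperB_co_B,
      OperB_co_v D (i + 1) hi i (by omega), smul_eq_mul] at h
    rw [if_neg (by omega)] at h
    rw [h]
    ring
  have h := congrArg (fun f : V →ₗ[K] V => OperB_co D (i + 1) hi (f (D.v i))) h2
  simp only [LinearMap.add_apply, LinearMap.sub_apply, LinearMap.smul_apply,
    Module.End.mul_apply, Module.End.one_apply, D.hA, map_smul, map_add, map_sub, OperB_co_A,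
    OperB_co_v D (i + 1) hi i (by omega), smul_eq_mul, hCv] at h
  rw [if_neg (by omega)] at h
  have hne : (e2 + e3 * D.θ (i + 1) + e4 * D.θ i) * D.y i ≠ 0 :=
    mul_ne_zero (hF i (by omega)) (D.hy i (by omega))
  apply mul_left_cancel₀ hne
  linear_combination h

private theorem OperB_rec {β γ ρ a b c : K} (hac : a ≠ c)
    (h0 : a ^ 2 - β * a * b + b ^ 2 - γ * (a + b) - ρ = 0)
    (h1 : b ^ 2 - β * b * c + c ^ 2 - γ * (b + c) - ρ = 0) : a + c - β * b - γ = 0 := by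
  apply mul_left_cancel₀ (sub_ne_zero.2 hac)
  linear_combination h0 - h1

end

section

variable {A B C : V →ₗ[K] V} {d : ℕ} {β γ γs ρ ρs ω η ηs e0 e1 e2 e3 e4 f0 f1 f2 f3 f4 : K}

theorem aw_third (hd : 3 ≤ d) (D : TriData A B d)
    (hθ : ∀ i j, i ≤ d → j ≤ d → D.θ i = D.θ j → i = j)
    (hquad : ∀ i, i + 1 ≤ d → D.θ i ^ 2 - β * D.θ i * D.θ (i + 1) + D.θ (i + 1) ^ 2
      - γ * (D.θ i + D.θ (i + 1)) - ρ = 0)
    (hC : C = e0 • (1 : V →ₗ[K] V) + e1 • A + e2 • B + e3 • (A * B) + e4 • (B * A))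
    (hF : ∀ i, i < d → e2 + e3 * D.θ (i + 1) + e4 * D.θ i ≠ 0)
    (h : AWRel A B β γ γs ρ ρs ω η ηs) (h' : AskeyWilson K A C) :
    (e3 + e4) * γs = (β - 2) * e1 ∧
    ∃ ρe ηe ηes : K, AWRel A C β γ ((e3 + e4) * ω + e2 * γs - 2 * γ * e1 + (2 - β) * e0) ρ ρe
      ((e3 + e4) * η + e2 * ω - ρ * e1 - 2 * γ * e0) ηe ηes := by
  obtain ⟨β', γ', γe, ρ', ρe, ωe, ηe, ηes, h'⟩ := h'
  have hne : ∀ i j, i ≤ d → j ≤ d → i ≠ j → D.θ i ≠ D.θ j := fun i j hi hj hij h =>
    hij (hθ i j hi hj h)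
  have hq' := OperB_quad D hC hF h'.1
  have r0 := OperB_rec (hne 0 2 (by omega) (by omega) (by omega)) (hquad 0 (by omega))
    (hquad 1 (by omega))
  have r1 := OperB_rec (hne 1 3 (by omega) (by omega) (by omega)) (hquad 1 (by omega))
    (hquad 2 (by omega))
  have s0 := OperB_rec (hne 0 2 (by omega) (by omega) (by omega)) (hq' 0 (by omega))
    (hq' 1 (by omega))
  have s1 := OperB_rec (hne 1 3 (by omega) (by omega) (by omega)) (hq' 1 (by omega))
    (hq' 2 (by omega))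
  simp only [Nat.zero_add, Nat.reduceAdd] at r0 r1 s0 s1
  have hβ : β' = β := by
    have h12 := sub_ne_zero.2 (hne 1 2 (by omega) (by omega) (by omega))
    apply mul_left_cancel₀ h12
    linear_combination r0 - r1 - s0 + s1
  subst hβ
  have hγ : γ' = γ := by linear_combination r0 - s0
  subst hγ
  have hρ : ρ' = ρ := by linear_combination hquad 0 (by omega) - hq' 0 (by omega)
  subst hρ
  obtain ⟨c3, c2, c1⟩ := OperB_vanish hd D hθ (OperB_ring1 hC h.1 h'.1)
  refine ⟨by linear_combination c3, ρe, ηe, ηes, ?_⟩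
  have hγe : (e3 + e4) * ω + e2 * γs - 2 * γ' * e1 + (2 - β') * e0 = γe := by
    linear_combination c2
  have hωe : (e3 + e4) * η + e2 * ω - ρ' * e1 - 2 * γ' * e0 = ωe := by
    linear_combination c1
  rw [hγe, hωe]
  exact h'

theorem e3_zero (hd : 3 ≤ d) (D : TriData A B d)
    (hθ : ∀ i j, i ≤ d → j ≤ d → D.θ i = D.θ j → i = j)
    (hC : C = e0 • (1 : V →ₗ[K] V) + e1 • A + e2 • B)
    (h : AWRel A B 2 γ γs ρ ρs ω η ηs) {ρe ηe ηes : K}
    (h' : AWRel A C 2 γ (e2 * γs - 2 * γ * e1) ρ ρe (e2 * ω - ρ * e1 - 2 * γ * e0) ηe ηes) :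
    3 * (e1 * (e2 * γs - γ * e1)) = 0 := by
  obtain ⟨_, c2, _⟩ := OperB_vanish hd D hθ (OperB_ring2 hC h.1 h.2 h'.2)
  linear_combination -c2

end

end Pool.Agent.AW3
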