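import Pool.Agent.helper39.AW3.Defs

/-!
# The two split sequences

`S` is the split form for `(θ 0, …, θ d; θs 0, …, θs d)` and `S'` the one for
`(θ d, …, θ 0; θs 0, …, θs d)`, with the same first vector.

Proof of `psi_one`: `S'.u 1 = (A - θ d) (u 0) = S.u 1 + (θ 0 - θ d) • S.u 0`; apply `B` and compare
the coefficients of `u 0` (`S.u 0`, `S.u 1` are independent as `1 ≤ d`).

Proof of `psi_last`: let `λ` be the coordinate functional of `S'.u 0 = S.u 0` in the basis `S'.u`.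
Then `λ (A x) = θ d * λ x` for all `x` (check on `S'.u i`: `A (S'.u i) = θ (d - i) • S'.u i +
S'.u (i+1)`).  Let `ν` be the coordinate functional of `S'.u 1`.  Check on the basis `S'.u`:
`λ (B x) = θs 0 * λ x + S'.φ 1 * ν x` and `ν (A x) = θ (d - 1) * ν x + λ x`.
Put `e = S.u d`; `A e = θ d • e`.  So `θ d * ν e = θ (d - 1) * ν e + λ e`, and
`λ (B e) = θs 0 * λ e + S'.φ 1 * ν e`.  On the other hand
`B e = θs d • e + S.φ d • S.u (d - 1)` and `λ e = λ (S.u d) = λ (A (S.u (d-1)) - θ (d-1) •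
S.u (d-1)) = (θ d - θ (d - 1)) * λ (S.u (d - 1))`.  Finally `λ e ≠ 0`: by induction
`λ (S.u i) = ∏_{j < i} (θ d - θ j)` is nonzero for `i ≤ d` (`λ (S.u 0) = 1`).
Multiply `λ (B e)` by `(θ d - θ (d - 1))` and divide by `λ e`:
`θs 0 (θ d - θ (d-1)) + S'.φ 1 = θs d (θ d - θ (d-1)) + S.φ d`.
-/

namespace Pool.Agent.AW3

open Module

variable {K V : Type*} [Field K] [AddCommGroup V] [Module K V]

theorem psi_coord {A B : V →ₗ[K] V} {d : ℕ} {θ θs : ℕ → K} (S : SplitData A B d θ θs)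
    (k : Fin (d + 1)) (i : ℕ) : S.b.coord k (S.u i) = if i = (k : ℕ) then 1 else 0 := by
  by_cases hi : i ≤ d
  · have h1 : S.b.coord k (S.b ⟨i, Nat.lt_succ_of_le hi⟩) = if i = (k : ℕ) then 1 else 0 := by
      rw [Basis.coord_apply, Basis.repr_self, Finsupp.single_apply]
      by_cases h : i = (k : ℕ)
      · rw [if_pos h, if_pos (Fin.ext h)]
      · rw [if_neg h, if_neg (fun hh => h (congrArg Fin.val hh))]
    rw [S.hb] at h1
    exact h1
  · have hk : i ≠ (k : ℕ) := by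
      have := k.isLt
      omega
    rw [S.hu i (not_le.1 hi), map_zero, if_neg hk]

theorem psi_ext {A B : V →ₗ[K] V} {d : ℕ} {θ θs : ℕ → K} (S : SplitData A B d θ θs)
    (f g : V →ₗ[K] K) (h : ∀ i, i ≤ d → f (S.u i) = g (S.u i)) (x : V) : f x = g x := by
  have : f = g := by
    apply S.b.ext
    intro i
    rw [S.hb]
    exact h i (Nat.le_of_lt_succ i.isLt)
  rw [this]

theorem psi_one {A B : V →ₗ[K] V} {d : ℕ} (hd : 1 ≤ d) {θ θs : ℕ → K}
    (S : SplitData A B d θ θs) (S' : SplitData A B d (fun i => θ (d - i)) θs)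
    (h0 : S.u 0 = S'.u 0) :
    S'.φ 1 = S.φ 1 - (θs 1 - θs 0) * (θ 0 - θ d) := by
  have hne : S.u 0 ≠ 0 := by
    have := S.b.ne_zero (0 : Fin (d + 1))
    rw [S.hb] at this
    simpa using this
  have h1 : S'.u 1 = S.u 1 + (θ 0 - θ d) • S.u 0 := by
    have e1 := S.hA 0 (Nat.zero_le _)
    have e2 := S'.hA 0 (Nat.zero_le _)
    rw [← h0] at e2
    rw [e1] at e2
    simp only [Nat.sub_zero, zero_add] at e2
    have e3 : S'.u 1 = θ 0 • S.u 0 + S.u 1 - θ d • S.u 0 := by
      rw [e2]; abel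
    rw [e3, sub_smul]; abel
  have h2 := S'.hB 1 hd
  have h3 := S.hB 1 hd
  have h4 := S.hB 0 (Nat.zero_le _)
  rw [S.hφ0, zero_smul, add_zero] at h4
  simp only [Nat.sub_self] at h2 h3
  rw [h1, map_add, map_smul, h3, h4, ← h0] at h2
  have h5 : (S'.φ 1 - (S.φ 1 - (θs 1 - θs 0) * (θ 0 - θ d))) • S.u 0 = 0 := by
    have e : (S'.φ 1 - (S.φ 1 - (θs 1 - θs 0) * (θ 0 - θ d))) • S.u 0 =
        (θs 1 • (S.u 1 + (θ 0 - θ d) • S.u 0) + S'.φ 1 • S.u 0) -
          (θs 1 • S.u 1 + S.φ 1 • S.u 0 + (θ 0 - θ d) • θs 0 • S.u 0) := by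
      module
    rw [e, h2, sub_self]
  have h6 := (smul_eq_zero.1 h5).resolve_right hne
  exact sub_eq_zero.1 h6

theorem psi_last {A B : V →ₗ[K] V} {d : ℕ} (hd : 1 ≤ d) {θ θs : ℕ → K}
    (hθ : ∀ i j, i ≤ d → j ≤ d → θ i = θ j → i = j)
    (S : SplitData A B d θ θs) (S' : SplitData A B d (fun i => θ (d - i)) θs)
    (h0 : S.u 0 = S'.u 0) :
    S'.φ 1 = S.φ d - (θs d - θs 0) * (θ (d - 1) - θ d) := by
  set lam : V →ₗ[K] K := S'.b.coord ⟨0, Nat.succ_pos d⟩ with hlam
  set nu : V →ₗ[K] K := S'.b.coord ⟨1, Nat.lt_succ_of_le hd⟩ with hnu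
  have cl : ∀ i, lam (S'.u i) = if i = 0 then 1 else 0 := fun i => psi_coord S' _ i
  have cn : ∀ i, nu (S'.u i) = if i = 1 then 1 else 0 := fun i => psi_coord S' _ i
  have hA1 : ∀ x, lam (A x) = θ d * lam x := by
    intro x
    refine psi_ext S' (lam ∘ₗ A) (θ d • lam) (fun i hi => ?_) x
    rw [LinearMap.comp_apply, S'.hA i hi, map_add, map_smul, LinearMap.smul_apply, cl, cl]
    by_cases h : i = 0
    · subst h; simp
    · simp [h]
  have hA2 : ∀ x, nu (A x) = θ (d - 1) * nu x + lam x := by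
    intro x
    refine psi_ext S' (nu ∘ₗ A) (θ (d - 1) • nu + lam) (fun i hi => ?_) x
    rw [LinearMap.comp_apply, S'.hA i hi, map_add, map_smul, LinearMap.add_apply,
      LinearMap.smul_apply, cn, cn, cl]
    by_cases h : i = 0
    · subst h; simp
    · by_cases h1 : i = 1
      · subst h1; simp
      · simp [h, h1]
  have hB1 : ∀ x, lam (B x) = θs 0 * lam x + S'.φ 1 * nu x := by
    intro x
    refine psi_ext S' (lam ∘ₗ B) (θs 0 • lam + S'.φ 1 • nu) (fun i hi => ?_) x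
    rw [LinearMap.comp_apply, S'.hB i hi, map_add, map_smul, map_smul, LinearMap.add_apply,
      LinearMap.smul_apply, LinearMap.smul_apply, cn, cl, cl]
    by_cases h : i = 0
    · subst h; simp [S'.hφ0]
    · by_cases h1 : i = 1
      · subst h1; simp
      · have h2 : i - 1 ≠ 0 := by omega
        simp [h, h1, h2]
  have hrec : ∀ i, i < d → lam (S.u (i + 1)) = (θ d - θ i) * lam (S.u i) := by
    intro i hi
    have e := S.hA i hi.le
    have e2 : S.u (i + 1) = A (S.u i) - θ i • S.u i := by rw [e]; abel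
    rw [e2, map_sub, map_smul, hA1, smul_eq_mul]
    ring
  have hnz : ∀ i, i ≤ d → lam (S.u i) ≠ 0 := by
    intro i
    induction i with
    | zero =>
      intro _
      rw [h0, cl, if_pos rfl]
      exact one_ne_zero
    | succ i ih =>
      intro hi
      rw [hrec i (by omega)]
      refine mul_ne_zero (fun h => ?_) (ih (by omega))
      have := hθ d i le_rfl (by omega) (sub_eq_zero.1 h)
      omega
  have hAe : A (S.u d) = θ d • S.u d := by
    rw [S.hA d le_rfl, S.hu (d + 1) (Nat.lt_succ_self d), add_zero]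
  have h1 : θ d * nu (S.u d) = θ (d - 1) * nu (S.u d) + lam (S.u d) := by
    rw [← hA2, hAe, map_smul, smul_eq_mul]
  have h2 : lam (S.u d) = (θ d - θ (d - 1)) * lam (S.u (d - 1)) := by
    have := hrec (d - 1) (by omega)
    rwa [Nat.sub_add_cancel hd] at this
  have h3 : θs 0 * lam (S.u d) + S'.φ 1 * nu (S.u d) =
      θs d * lam (S.u d) + S.φ d * lam (S.u (d - 1)) := by
    rw [← hB1, S.hB d le_rfl, map_add, map_smul, map_smul, smul_eq_mul, smul_eq_mul]
  have hδ : θ d - θ (d - 1) ≠ 0 := by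
    intro h
    have := hθ d (d - 1) le_rfl (by omega) (sub_eq_zero.1 h)
    omega
  have h4 : nu (S.u d) = lam (S.u (d - 1)) := by
    apply mul_left_cancel₀ hδ
    rw [← h2]
    linear_combination h1
  rw [h4, h2] at h3
  have hm := hnz (d - 1) (by omega)
  apply mul_right_cancel₀ hm
  linear_combination h3

end Pool.Agent.AW3
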