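import Pool.Agent.helper39.AW3.Eng

/-!
# The quadratic equation for the parameter `c`
-/

namespace Pool.Agent.AW3

section

variable {K : Type*} [Field K]

/-- The quadratic polynomial function of `c` whose roots parametrise the third element:
`Δ = θ d - θ 0`, `n = [d]`, `t1 = θ 1 - θ 0`, `w1 = θs 1 - θs 0`, `ε = e3 - e4`. -/
def quad (Δ n t1 w1 ε E G φ1 c : K) : K :=
  c * E * (Δ - c * n) + G * (w1 * (Δ - c * n) + φ1)
    + ε * (w1 * t1 * (Δ - c * n) + φ1 * (t1 - c))

variable {d : ℕ} {θ θs : ℕ → K} {p q t0 t1 t2 w0 w1 w2 e3 E G c φ1 : K}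

theorem ScalarData.e3t2 (h : ScalarData d θ θs p q t0 t1 t2 w0 w1 w2 e3 E G) :
    e3 * (1 + q) * t2 = (p - q) * G := by
  linear_combination (1 + q) * h.h1 + G * h.hpq

theorem ScalarData.Y_ne (h : ScalarData d θ θs p q t0 t1 t2 w0 w1 w2 e3 E G) (hd : 1 ≤ d)
    (hφ1 : φ1 ≠ 0)
    (hc : quad (θ d - t0) (br p d) t1 w1 (e3 * (1 + q)) E G φ1 c = 0) :
    θ d - t0 - c * br p d ≠ 0 := by
  intro hY
  have hθd : θ d = t0 + t1 * br p d + t2 * ss p q d := h.hθ d le_rfl
  rw [quad, hY] at hc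
  have h1 : G + e3 * (1 + q) * (t1 - c) = 0 := by
    apply mul_left_cancel₀ hφ1
    linear_combination hc
  have h2 : G * (br p d + (q - p) * ss p q d) = 0 := by
    rw [hθd] at hY
    linear_combination (br p d) * h1 - e3 * (1 + q) * hY + ss p q d * h.e3t2
  obtain ⟨n, rfl⟩ : ∃ n, d = n + 1 := ⟨d - 1, by omega⟩
  rw [D_rel h.hpq] at h2
  have h3 : br p (n + 1) = 0 := by
    rcases mul_eq_zero.1 h2 with h3 | h3
    · exact absurd h3 h.hG
    · rcases mul_eq_zero.1 h3 with h4 | h4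
      · exact absurd h4 (pow_ne_zero _ (q_ne h.hpq))
      · exact h4
  apply h.hne
  rw [h3] at hY
  linear_combination hY

theorem ScalarData.root (h : ScalarData d θ θs p q t0 t1 t2 w0 w1 w2 e3 E G) (hd : 1 ≤ d)
    (hφ1 : φ1 ≠ 0)
    (hc : quad (θ d - t0) (br p d) t1 w1 (e3 * (1 + q)) E G φ1 c = 0) :
    c * (E + e3 * (1 + q) * w1) + (w1 + φ1 / (θ d - t0 - c * br p d))
        * (G + e3 * (1 + q) * t1)
      = e3 * (1 + q) * c * (w1 + φ1 / (θ d - t0 - c * br p d)) ∧
    ((w1 + φ1 / (θ d - t0 - c * br p d)) - w1) * (θ d - t0 - c * br p d) = φ1 := by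
  have hY := h.Y_ne hd hφ1 hc
  have e1 : φ1 / (θ d - t0 - c * br p d) * (θ d - t0 - c * br p d) = φ1 :=
    div_mul_cancel₀ _ hY
  refine ⟨?_, by linear_combination e1⟩
  apply mul_left_cancel₀ hY
  rw [quad] at hc
  linear_combination hc + (G + e3 * (1 + q) * t1 - e3 * (1 + q) * c) * e1

theorem ScalarData.eps_zero (h : ScalarData d θ θs p q t0 t1 t2 w0 w1 w2 e3 E G)
    (hd : 1 ≤ d) (hn : br p d = 0) : e3 * (1 + q) = 0 := by
  have hθd : θ d = t0 + t1 * br p d + t2 * ss p q d := h.hθ d le_rfl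
  have hZ : t2 * ss p q d ≠ 0 := by
    intro hZ
    apply h.hne
    rw [hθd, hn, hZ]; ring
  obtain ⟨n, rfl⟩ : ∃ n, d = n + 1 := ⟨d - 1, by omega⟩
  have h1 := D_rel h.hpq n
  rw [hn] at h1
  have h2 : (q - p) * ss p q (n + 1) = 0 := by linear_combination h1
  have h3 : q - p = 0 := by
    rcases mul_eq_zero.1 h2 with h3 | h3
    · exact h3
    · exact absurd h3 (right_ne_zero_of_mul hZ)
  have h4 : (e3 * (1 + q)) * t2 = 0 := by
    rw [h.e3t2]
    linear_combination -G * h3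
  exact (mul_eq_zero.1 h4).resolve_right (left_ne_zero_of_mul hZ)

/-- Over an algebraically closed field the quadratic equation has a root. -/
theorem ScalarData.exists_root [IsAlgClosed K]
    (h : ScalarData d θ θs p q t0 t1 t2 w0 w1 w2 e3 E G) (hd : 1 ≤ d) (φ1 : K) :
    ∃ c, quad (θ d - t0) (br p d) t1 w1 (e3 * (1 + q)) E G φ1 c = 0 := by
  by_cases hn : br p d = 0
  · have h0 := h.eps_zero hd hn
    have hΔ : θ d - t0 ≠ 0 := sub_ne_zero.2 h.hne
    refine ⟨-(G * (w1 * (θ d - t0) + φ1)) / (E * (θ d - t0)), ?_⟩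
    rw [quad, hn, h0]
    have hE := h.hE
    field_simp
    ring
  · have hdeg : (Polynomial.C (-(br p d) * E) * Polynomial.X ^ 2
        + Polynomial.C (E * (θ d - t0) - G * w1 * br p d
          - e3 * (1 + q) * (w1 * t1 * br p d + φ1)) * Polynomial.X
        + Polynomial.C (G * (w1 * (θ d - t0) + φ1)
          + e3 * (1 + q) * (w1 * t1 * (θ d - t0) + φ1 * t1))).degree ≠ 0 := by
      rw [Polynomial.degree_quadratic (mul_ne_zero (neg_ne_zero.2 hn) h.hE)]
      decide
    obtain ⟨c, hc⟩ := IsAlgClosed.exists_root _ hdeg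
    refine ⟨c, ?_⟩
    rw [Polynomial.IsRoot.def] at hc
    simp only [Polynomial.eval_add, Polynomial.eval_mul, Polynomial.eval_C,
      Polynomial.eval_pow, Polynomial.eval_X] at hc
    rw [quad]
    linear_combination hc

/-- Rationality of the root. -/
theorem ScalarData.root_mem {L : Type*} [Field L] [Algebra K L]
    (h : ScalarData d θ θs p q t0 t1 t2 w0 w1 w2 e3 E G) (hd : 1 ≤ d) (φ1 : K) (c : L)
    (hc : quad (algebraMap K L (θ d - t0)) (algebraMap K L (br p d)) (algebraMap K L t1)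
      (algebraMap K L w1) (algebraMap K L (e3 * (1 + q))) (algebraMap K L E)
      (algebraMap K L G) (algebraMap K L φ1) c = 0) {m : K}
    (hm : c * algebraMap K L (br p d) = algebraMap K L m) :
    ∃ c' : K, algebraMap K L c' = c := by
  by_cases hn : br p d = 0
  · have h0 := h.eps_zero hd hn
    have hΔ : θ d - t0 ≠ 0 := sub_ne_zero.2 h.hne
    have hE := h.hE
    refine ⟨-(G * (w1 * (θ d - t0) + φ1)) / (E * (θ d - t0)), ?_⟩
    rw [quad, hn, h0] at hc
    have h1 : algebraMap K L (E * (θ d - t0)) ≠ 0 :=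
      (map_ne_zero (algebraMap K L)).2 (mul_ne_zero hE hΔ)
    rw [map_div₀]
    rw [div_eq_iff h1]
    simp only [map_zero, map_neg, map_mul, map_add] at hc ⊢
    linear_combination -hc
  · refine ⟨m / br p d, ?_⟩
    have h1 : algebraMap K L (br p d) ≠ 0 := by simpa using hn
    rw [map_div₀, ← hm, mul_div_assoc, div_self h1, mul_one]

end

end Pool.Agent.AW3
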