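import Pool.Agent.helper39.AW3.Defs

/-!
# Recurrences from the Askey-Wilson relations in the split basis

Apply the first relation
`A A B - β A B A + B A A - γ (A B + B A) - ρ B = γs A A + ω A + η` to `u i` and compare the
coefficients, using `A u_i = θ_i u_i + u_{i+1}`, `B u_i = θs_i u_i + φ_i u_{i-1}`:
* coefficient of `u (i + 2)` (for `i + 2 ≤ d`): `θs_i - β θs_{i+1} + θs_{i+2} = γs`;
* coefficient of `u (i + 1)` (for `i + 1 ≤ d`):
  `θs_i (θ_i + θ_{i+1}) + φ_i + (θ_i + θ_{i+1}) θs_{i+1} + φ_{i+2}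
   - β (θ_i θs_i + θ_{i+1} θs_{i+1} + φ_{i+1}) - γ (θs_i + θs_{i+1}) - γs (θ_i + θ_{i+1}) - ω = 0`;
* coefficient of `u (i - 1)` (for `1 ≤ i ≤ d`):
  `φ_i (θ_{i-1}^2 - β θ_{i-1} θ_i + θ_i^2 - γ (θ_{i-1} + θ_i) - ρ) = 0`, and `φ_i ≠ 0`.
The second relation `B B A - β B A B + A B B - γs (B A + A B) - ρs A = γ B B + ω B + ηs`:
* coefficient of `u (i + 1)` in its value at `u i` (`i + 1 ≤ d`):
  `θs_{i+1}^2 - β θs_i θs_{i+1} + θs_i^2 - γs (θs_i + θs_{i+1}) - ρs = 0`.
The recurrence for `θ` follows from the difference of the quadratic equations for `(i, i + 1)` and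
`(i + 1, i + 2)`: `(θ_{i+2} - θ_i) (θ_{i+2} - β θ_{i+1} + θ_i - γ) = 0` and `θ_{i+2} ≠ θ_i`.
-/

namespace Pool.Agent.AW3

open Module

variable {K V : Type*} [Field K] [AddCommGroup V] [Module K V]

section

variable {A B : V →ₗ[K] V} {d : ℕ} {θ θs : ℕ → K} {β γ γs ρ ρs ω η ηs : K}

private theorem Rec_coord (S : SplitData A B d θ θs) {j : ℕ} (hj : j < d + 1) (m : ℕ) :
    S.b.coord ⟨j, hj⟩ (S.u m) = if m = j then 1 else 0 := by
  by_cases hm : m < d + 1
  · have h := S.hb ⟨m, hm⟩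
    rw [← h, Basis.coord_apply, Basis.repr_self, Finsupp.single_apply]
    simp [Fin.ext_iff]
  · rw [S.hu m (by omega), map_zero, if_neg (by omega)]

private theorem Rec_A (S : SplitData A B d θ θs) (i : ℕ) :
    A (S.u i) = θ i • S.u i + S.u (i + 1) := by
  by_cases hi : i ≤ d
  · exact S.hA i hi
  · rw [S.hu i (by omega), S.hu (i + 1) (by omega)]
    simp

private theorem Rec_B0 (S : SplitData A B d θ θs) : B (S.u 0) = θs 0 • S.u 0 := by
  rw [S.hB 0 (Nat.zero_le _), S.hφ0, zero_smul, add_zero]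

private theorem Rec_B (S : SplitData A B d θ θs) (i : ℕ) :
    B (S.u (i + 1)) = θs (i + 1) • S.u (i + 1) + S.φ (i + 1) • S.u i := by
  by_cases hi : i + 1 ≤ d
  · exact S.hB (i + 1) hi
  · rw [S.hu (i + 1) (by omega), S.hφd (i + 1) (by omega)]
    simp

private theorem Rec_rel1 (h : AWRel A B β γ γs ρ ρs ω η ηs) (x : V) :
    A (A (B x)) - β • A (B (A x)) + B (A (A x)) - γ • (A (B x) + B (A x)) - ρ • B x
      = γs • A (A x) + ω • A x + η • x := by
  have h1 := congrArg (fun f : Module.End K V => f x) h.1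
  exact h1

private theorem Rec_rel2 (h : AWRel A B β γ γs ρ ρs ω η ηs) (x : V) :
    B (B (A x)) - β • B (A (B x)) + A (B (B x)) - γs • (B (A x) + A (B x)) - ρs • A x
      = γ • B (B x) + ω • B x + ηs • x := by
  have h1 := congrArg (fun f : Module.End K V => f x) h.2
  exact h1

theorem rec_quad (S : SplitData A B d θ θs) (h : AWRel A B β γ γs ρ ρs ω η ηs) (i : ℕ)
    (hi : i + 1 ≤ d) :
    θ i ^ 2 - β * θ i * θ (i + 1) + θ (i + 1) ^ 2 - γ * (θ i + θ (i + 1)) - ρ = 0 := by
  have h1 := congrArg (S.b.coord ⟨i, by omega⟩) (Rec_rel1 h (S.u (i + 1)))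
  simp only [Rec_A, Rec_B, map_add, map_sub, map_smul, smul_eq_mul, Rec_coord] at h1
  have e1 : ¬ (i + 1 = i) := by omega
  have e2 : ¬ (i + 1 + 1 = i) := by omega
  have e3 : ¬ (i + 1 + 1 + 1 = i) := by omega
  simp only [e1, e2, e3, if_true, if_false, mul_zero, mul_one, add_zero, zero_add] at h1
  have h2 : S.φ (i + 1) * (θ i ^ 2 - β * θ i * θ (i + 1) + θ (i + 1) ^ 2
      - γ * (θ i + θ (i + 1)) - ρ) = 0 := by linear_combination h1
  rcases mul_eq_zero.mp h2 with h3 | h3
  · exact absurd h3 (S.hφ i (by omega))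
  · exact h3

theorem rec_quads (S : SplitData A B d θ θs) (h : AWRel A B β γ γs ρ ρs ω η ηs) (i : ℕ)
    (hi : i + 1 ≤ d) :
    θs i ^ 2 - β * θs i * θs (i + 1) + θs (i + 1) ^ 2 - γs * (θs i + θs (i + 1)) - ρs = 0 := by
  have h1 := congrArg (S.b.coord ⟨i + 1, by omega⟩) (Rec_rel2 h (S.u i))
  cases i with
  | zero =>
    simp only [Rec_A, Rec_B, Rec_B0, map_add, map_sub, map_smul, smul_eq_mul, Rec_coord] at h1
    simp at h1
    linear_combination h1
  | succ k =>
    cases k with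
    | zero =>
      simp only [Rec_A, Rec_B, Rec_B0, map_add, map_sub, map_smul, smul_eq_mul, Rec_coord] at h1
      simp at h1
      linear_combination h1
    | succ k =>
      simp only [Rec_A, Rec_B, map_add, map_sub, map_smul, smul_eq_mul, Rec_coord] at h1
      have e1 : ¬ (k + 1 + 1 = k + 1 + 1 + 1) := by omega
      have e2 : ¬ (k + 1 = k + 1 + 1 + 1) := by omega
      have e3 : ¬ (k = k + 1 + 1 + 1) := by omega
      simp only [e1, e2, e3, if_true, if_false, mul_zero, mul_one, add_zero, zero_add] at h1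
      linear_combination h1

theorem rec_lin (S : SplitData A B d θ θs) (h : AWRel A B β γ γs ρ ρs ω η ηs)
    (hθ : ∀ i j, i ≤ d → j ≤ d → θ i = θ j → i = j) (i : ℕ) (hi : i + 2 ≤ d) :
    θ (i + 2) = β * θ (i + 1) - θ i + γ := by
  have h1 := rec_quad S h i (by omega)
  have h2 := rec_quad S h (i + 1) (by omega)
  have h3 : (θ (i + 2) - θ i) * (θ (i + 2) - β * θ (i + 1) + θ i - γ) = 0 := by
    linear_combination h2 - h1
  rcases mul_eq_zero.mp h3 with h4 | h4
  · have := hθ (i + 2) i hi (by omega) (sub_eq_zero.mp h4)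
    omega
  · linear_combination h4

theorem rec_lins (S : SplitData A B d θ θs) (h : AWRel A B β γ γs ρ ρs ω η ηs) (i : ℕ)
    (hi : i + 2 ≤ d) : θs (i + 2) = β * θs (i + 1) - θs i + γs := by
  have h1 := congrArg (S.b.coord ⟨i + 2, by omega⟩) (Rec_rel1 h (S.u i))
  cases i with
  | zero =>
    simp only [Rec_A, Rec_B, Rec_B0, map_add, map_sub, map_smul, smul_eq_mul, Rec_coord] at h1
    simp at h1
    linear_combination h1
  | succ k =>
    simp only [Rec_A, Rec_B, map_add, map_sub, map_smul, smul_eq_mul, Rec_coord] at h1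
    have e1 : ¬ (k + 1 + 1 = k + 1 + 2) := by omega
    have e2 : ¬ (k + 1 = k + 1 + 2) := by omega
    have e3 : ¬ (k = k + 1 + 2) := by omega
    have e4 : k + 1 + 1 + 1 = k + 1 + 2 := by omega
    simp only [e1, e2, e3, e4, if_true, if_false, mul_zero, mul_one, add_zero, zero_add] at h1
    linear_combination h1

theorem rec_phi (S : SplitData A B d θ θs) (h : AWRel A B β γ γs ρ ρs ω η ηs) (i : ℕ)
    (hi : i + 1 ≤ d) :
    S.φ (i + 2) = β * S.φ (i + 1) - S.φ i + ω + γ * (θs i + θs (i + 1))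
      + γs * (θ i + θ (i + 1)) + β * (θ i * θs i + θ (i + 1) * θs (i + 1))
      - (θ i + θ (i + 1)) * (θs i + θs (i + 1)) := by
  have h1 := congrArg (S.b.coord ⟨i + 1, by omega⟩) (Rec_rel1 h (S.u i))
  cases i with
  | zero =>
    simp only [Rec_A, Rec_B, Rec_B0, map_add, map_sub, map_smul, smul_eq_mul, Rec_coord] at h1
    simp at h1
    have h0 := S.hφ0
    linear_combination h1 + h0
  | succ k =>
    simp only [Rec_A, Rec_B, map_add, map_sub, map_smul, smul_eq_mul, Rec_coord] at h1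
    have e1 : ¬ (k + 1 = k + 1 + 1) := by omega
    have e2 : ¬ (k = k + 1 + 1) := by omega
    have e3 : ¬ (k + 1 + 1 + 1 = k + 1 + 1) := by omega
    simp only [e1, e2, e3, if_true, if_false, mul_zero, mul_one, add_zero, zero_add] at h1
    linear_combination h1

end

end Pool.Agent.AW3
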