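import Pool.Agent.helper39.AW3.Split
import Pool.Agent.helper39.AW3.Psi
import Pool.Agent.helper39.AW3.Rec
import Pool.Agent.helper39.AW3.Oper
import Pool.Agent.helper39.AW3.Cls
import Pool.Agent.helper39.AW3.Quad

/-!
# From the conditions (i)-(iv) to the scalar data
-/

namespace Pool.Agent.AW3

open Module

variable {K V : Type*} [Field K] [AddCommGroup V] [Module K V]

/-- `C` is a third element with explicit coefficients. -/
structure Third (A B C : V →ₗ[K] V) (e0 e1 e2 e3 e4 : K) : Prop where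
  hC : C = e0 • (1 : V →ₗ[K] V) + e1 • A + e2 • B + e3 • (A * B) + e4 • (B * A)
  hB : ∃ f0 f1 f2 f3 f4 : K,
    B = f0 • (1 : V →ₗ[K] V) + f1 • A + f2 • C + f3 • (C * A) + f4 • (A * C)
  hA : ∃ h0 h1 h2 h3 h4 : K,
    A = h0 • (1 : V →ₗ[K] V) + h1 • B + h2 • C + h3 • (C * B) + h4 • (B * C)
  hAB : AskeyWilson K A B
  hAC : AskeyWilson K A C
  hBC : AskeyWilson K B C

theorem AWRel.symm {R : Type*} [Ring R] [Algebra K R] {B C : R} {β γ γs ρ ρs ω η ηs : K}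
    (h : AWRel B C β γ γs ρ ρs ω η ηs) : AWRel C B β γs γ ρs ρ ω ηs η :=
  ⟨h.2, h.1⟩

theorem Third.symm {A B C : V →ₗ[K] V} {e0 e1 e2 e3 e4 : K} (h : Third A B C e0 e1 e2 e3 e4) :
    Third B A C e0 e2 e1 e4 e3 := by
  refine ⟨by rw [h.hC]; abel, h.hA, h.hB, ?_, h.hBC, h.hAC⟩
  obtain ⟨β, γ, γs, ρ, ρs, ω, η, ηs, h1⟩ := h.hAB
  exact ⟨β, γs, γ, ρs, ρ, ω, ηs, η, h1.symm⟩

/-- Everything needed later. -/
structure Good (A B C : V →ₗ[K] V) (d : ℕ) (θ θs : ℕ → K) (e0 e1 e2 e3 e4 : K) where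
  /-- `p` -/
  p : K
  /-- `q = 1 / p` -/
  q : K
  /-- Askey-Wilson scalar -/
  γ : K
  /-- Askey-Wilson scalar -/
  γs : K
  /-- Askey-Wilson scalar -/
  ρ : K
  /-- Askey-Wilson scalar -/
  ω : K
  /-- Askey-Wilson scalar -/
  ωe : K
  /-- Askey-Wilson scalar -/
  ηe : K
  /-- the split form -/
  S : SplitData A B d θ θs
  /-- auxiliary -/
  ψ1 : K
  /-- auxiliary -/
  ψ2 : K
  hC : C = e0 • (1 : V →ₗ[K] V) + e1 • A + e2 • B + e3 • (A * B) + e4 • (B * A)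
  hsd : ScalarData d θ θs p q (θ 0) (θ 1 - θ 0) (θ 2 - (1 + p) * θ 1 + p * θ 0)
    (θs 0) (θs 1 - θs 0) (θs 2 - (1 + p) * θs 1 + p * θs 0) e3
    (e1 + e3 * θs 0 + e4 * θs 1) (e2 + e3 * θ 0 + e4 * θ 1)
  he4 : e4 = -(q * e3)
  hφ : ∀ i, i < d → S.φ (i + 1) = ψ1 * br p (i + 1) + ψ2 * ss p q (i + 1)
      + (θs (i + 1) - θs 0) * (θ i - θ d)
  hd1 : ψ1 * br p (d + 1) + ψ2 * ss p q (d + 1) = 0
  hdd : ψ1 * br p d + ψ2 * ss p q d = ψ1
  hγ : γ = θ 2 - (p + q) * θ 1 + θ 0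
  hγs : γs = θs 2 - (p + q) * θs 1 + θs 0
  hω : S.φ 2 = (p + q) * S.φ 1 + ω + γ * (θs 0 + θs 1)
      + γs * (θ 0 + θ 1) + (p + q) * (θ 0 * θs 0 + θ 1 * θs 1)
      - (θ 0 + θ 1) * (θs 0 + θs 1)
  haw : A * A * C - (p + q) • (A * C * A) + C * A * A - γ • (A * C + C * A) - ρ • C
    = ((e3 + e4) * ω + e2 * γs - 2 * γ * e1 + (2 - (p + q)) * e0) • (A * A) + ωe • A
      + ηe • (1 : V →ₗ[K] V)
  hφ1 : S.φ 1 ≠ 0
  hF : ∀ i, i < d → e2 + e3 * θ (i + 1) + e4 * θ i ≠ 0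
  hG : ∀ i, i < d → e2 + e3 * θ i + e4 * θ (i + 1) ≠ 0
  hFs : ∀ i, i < d → e1 + e4 * θs (i + 1) + e3 * θs i ≠ 0
  hGs : ∀ i, i < d → e1 + e4 * θs i + e3 * θs (i + 1) ≠ 0

/-- `p` and `q` and the classification. -/
theorem exists_pq {A B C : V →ₗ[K] V} {d : ℕ} (hd : 3 ≤ d) (D : TriData A B d)
    (D' : TriData B A d) {e0 e1 e2 e3 e4 : K} (h : Third A B C e0 e1 e2 e3 e4)
    (S : SplitData A B d D.θ D'.θ) {β γ γs ρ ρs ω η ηs : K}
    (haw : AWRel A B β γ γs ρ ρs ω η ηs) :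
    (∃ p q : K, p * q = 1 ∧ p + q = β ∧ e4 = -(q * e3) ∧ (1 - q) * e2 = q * γ * e3 ∧
      (1 - q) * e1 = q * γs * e3 ∧
      (e1 + e3 * D'.θ 0 + e4 * D'.θ 1) * (D.θ 2 - (1 + p) * D.θ 1 + p * D.θ 0)
        = (e2 + e3 * D.θ 0 + e4 * D.θ 1) * (D'.θ 2 - (1 + p) * D'.θ 1 + p * D'.θ 0)) ∧
    (∃ ρe ωe ηe ηes : K, AWRel A C β γ ((e3 + e4) * ω + e2 * γs - 2 * γ * e1 + (2 - β) * e0) ρ
      ρe ωe ηe ηes) ∧
    (∀ i, i < d → e2 + e3 * D.θ (i + 1) + e4 * D.θ i ≠ 0) ∧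
    (∀ i, i < d → e2 + e3 * D.θ i + e4 * D.θ (i + 1) ≠ 0) ∧
    (∀ i, i < d → e1 + e4 * D'.θ (i + 1) + e3 * D'.θ i ≠ 0) ∧
    (∀ i, i < d → e1 + e4 * D'.θ i + e3 * D'.θ (i + 1) ≠ 0) := by
  have hθ := D.inj D'
  have hθs := D'.inj D
  obtain ⟨f0, f1, f2, f3, f4, hB⟩ := h.hB
  obtain ⟨h0, h1, h2, h3, h4, hA⟩ := h.hA
  have hC := h.hC
  have hC' := h.symm.hC
  have pg := pg_one D hC hB
  have pg' := pg_one D' hC' hA
  have hF : ∀ i, i < d → e2 + e3 * D.θ (i + 1) + e4 * D.θ i ≠ 0 := fun i hi =>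
    left_ne_zero_of_mul_eq_one (pg i hi).2
  have hG : ∀ i, i < d → e2 + e3 * D.θ i + e4 * D.θ (i + 1) ≠ 0 := fun i hi =>
    left_ne_zero_of_mul_eq_one (pg i hi).1
  have hFs : ∀ i, i < d → e1 + e4 * D'.θ (i + 1) + e3 * D'.θ i ≠ 0 := fun i hi =>
    left_ne_zero_of_mul_eq_one (pg' i hi).2
  have hGs : ∀ i, i < d → e1 + e4 * D'.θ i + e3 * D'.θ (i + 1) ≠ 0 := fun i hi =>
    left_ne_zero_of_mul_eq_one (pg' i hi).1
  have hq : ∀ i, i + 1 ≤ d → D.θ i ^ 2 - β * D.θ i * D.θ (i + 1) + D.θ (i + 1) ^ 2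
      - γ * (D.θ i + D.θ (i + 1)) - ρ = 0 := fun i hi => rec_quad S haw i hi
  have hqs : ∀ i, i + 1 ≤ d → D'.θ i ^ 2 - β * D'.θ i * D'.θ (i + 1) + D'.θ (i + 1) ^ 2
      - γs * (D'.θ i + D'.θ (i + 1)) - ρs = 0 := fun i hi => rec_quads S haw i hi
  obtain ⟨k1, ρe, ηe, ηes, k2⟩ := aw_third hd D hθ hq hC hF haw h.hAC
  obtain ⟨k1', -⟩ := aw_third hd D' hθs hqs hC' hFs haw.symm h.hBC
  have ne : ∀ i j, i ≤ d → j ≤ d → i ≠ j → D.θ i ≠ D.θ j := fun i j hi hj hij he =>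
    hij (hθ i j hi hj he)
  have nes : ∀ i j, i ≤ d → j ≤ d → i ≠ j → D'.θ i ≠ D'.θ j := fun i j hi hj hij he =>
    hij (hθs i j hi hj he)
  obtain ⟨c1, c2, c3, c4, c5⟩ := conic (hq 0 (by omega)) (hq 1 (by omega)) (hq 2 (by omega))
    (ne 0 1 (by omega) (by omega) (by omega)) (ne 1 2 (by omega) (by omega) (by omega))
    (ne 0 2 (by omega) (by omega) (by omega)) (ne 1 3 (by omega) (by omega) (by omega))
    (pg 0 (by omega)).1 (pg 0 (by omega)).2 (pg 1 (by omega)).1 (pg 1 (by omega)).2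
    (pg 2 (by omega)).1
  obtain ⟨d1, d2, d3, d4, d5⟩ := conic (hqs 0 (by omega)) (hqs 1 (by omega)) (hqs 2 (by omega))
    (nes 0 1 (by omega) (by omega) (by omega)) (nes 1 2 (by omega) (by omega) (by omega))
    (nes 0 2 (by omega) (by omega) (by omega)) (nes 1 3 (by omega) (by omega) (by omega))
    (pg' 0 (by omega)).1 (pg' 0 (by omega)).2 (pg' 1 (by omega)).1 (pg' 1 (by omega)).2
    (pg' 2 (by omega)).1
  have r0 : D.θ 2 = β * D.θ 1 - D.θ 0 + γ := rec_lin S haw hθ 0 (by omega)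
  have r1 : D.θ 3 = β * D.θ 2 - D.θ 1 + γ := rec_lin S haw hθ 1 (by omega)
  have s0 : D'.θ 2 = β * D'.θ 1 - D'.θ 0 + γs := rec_lins S haw 0 (by omega)
  refine ⟨?_, ⟨ρe, _, ηe, ηes, k2⟩, hF, hG, hFs, hGs⟩
  refine cls r0 s0 c1 c2 c3 c4 c5 d1 d2 d3 d4 d5 k1 (by linear_combination k1') ?_ ?_
  · intro htwo hβ he hf he3 hf4
    have key : ρ * (e3 * f4) * γs = 0 := by
      rw [hβ] at haw
      exact char_two hd D hθ htwo hC hB haw he hf c5
    have hγs : γs ≠ 0 := by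
      intro hγs
      apply nes 2 0 (by omega) (by omega) (by omega)
      rw [s0, hβ, hγs]
      linear_combination -(D'.θ 0) * htwo
    have hρ : ρ ≠ 0 := by
      intro hρ
      have e1 := hq 0 (by omega)
      rw [hβ, hρ] at e1
      rw [hβ] at r0
      have : (D.θ 1 - D.θ 0) * (D.θ 1 - D.θ 2) = 0 := by
        linear_combination e1 - (D.θ 0 + D.θ 1) * r0 + D.θ 0 * D.θ 2 * htwo
      rcases mul_eq_zero.1 this with h5 | h5
      · exact ne 1 0 (by omega) (by omega) (by omega) (sub_eq_zero.1 h5)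
      · exact ne 1 2 (by omega) (by omega) (by omega) (sub_eq_zero.1 h5)
    rcases mul_eq_zero.1 key with h5 | h5
    · exact mul_ne_zero hρ (mul_ne_zero he3 hf4) h5
    · exact hγs h5
  · intro he3 he4 hβ
    have e1ne : e1 ≠ 0 := by
      have := hFs 0 (by omega)
      rw [he3, he4] at this
      simpa using this
    have h3ne : (3 : K) ≠ 0 := by
      intro h5
      apply ne 3 0 (by omega) (by omega) (by omega)
      rw [r1, r0, hβ]
      linear_combination (γ + D.θ 1 - D.θ 0) * h5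
    have hCz : C = e0 • (1 : V →ₗ[K] V) + e1 • A + e2 • B := by
      rw [hC, he3, he4]; simp
    rw [hβ] at haw k2
    have k3 : AWRel A C 2 γ (e2 * γs - 2 * γ * e1) ρ ρe (e2 * ω - ρ * e1 - 2 * γ * e0)
        ηe ηes := by
      convert k2 using 1
      · rw [he3, he4]; ring
      · rw [he3, he4]; ring
    have := e3_zero hd D hθ hCz haw k3
    rcases mul_eq_zero.1 this with h5 | h5
    · exact absurd h5 h3ne
    · rcases mul_eq_zero.1 h5 with h6 | h6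
      · exact absurd h6 e1ne
      · linear_combination -h6

/-- The recurrence for `ψ`. -/
theorem psi_rec {A B : V →ₗ[K] V} {d : ℕ} {θ θs : ℕ → K} {β γ γs ρ ρs ω η ηs : K}
    (S : SplitData A B d θ θs) (haw : AWRel A B β γ γs ρ ρs ω η ηs)
    (hθ : ∀ i j, i ≤ d → j ≤ d → θ i = θ j → i = j) :
    ∃ κ : K, ∀ i, i + 2 ≤ d + 1 →
      S.φ (i + 2) - (θs (i + 2) - θs 0) * (θ (i + 1) - θ d)
        = β * (S.φ (i + 1) - (θs (i + 1) - θs 0) * (θ i - θ d))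
          - (S.φ i - (θs i - θs 0) * (θ (i - 1) - θ d)) + κ := by
  have hJ : ∀ i, i + 1 ≤ d →
      γ * θs (i + 1) + γs * θ i + (β - 1) * θs (i + 1) * θ i - θ i * θs i + θ (i + 1) * θs i
        - θ (i + 1) * θs (i + 1)
      = γ * θs 1 + γs * θ 0 + (β - 1) * θs 1 * θ 0 - θ 0 * θs 0 + θ 1 * θs 0
        - θ 1 * θs 1 := by
    intro i
    induction i with
    | zero => intro _; rfl
    | succ n ih =>
      intro hn
      rw [← ih (by omega), rec_lin S haw hθ n (by omega), rec_lins S haw n (by omega)]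
      ring
  refine ⟨ω + (γ * θs 1 + γs * θ 0 + (β - 1) * θs 1 * θ 0 - θ 0 * θs 0 + θ 1 * θs 0
        - θ 1 * θs 1) + γ * θs 0 + γs * θ d - (2 - β) * θs 0 * θ d, ?_⟩
  intro i hi
  have h1 := rec_phi S haw i (by omega)
  rw [h1, ← hJ i (by omega)]
  have h2 : (θs (i + 2) - θs 0) * (θ (i + 1) - θ d)
      = (β * θs (i + 1) - θs i + γs - θs 0) * (θ (i + 1) - θ d) := by
    rcases Nat.lt_or_ge (i + 1) d with h3 | h3
    · rw [rec_lins S haw i (by omega)]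
    · have : i + 1 = d := by omega
      rw [this]; ring
  have h3 : (θs i - θs 0) * (θ (i - 1) - θ d)
      = (θs i - θs 0) * (β * θ i - θ (i + 1) + γ - θ d) := by
    rcases Nat.eq_zero_or_pos i with h3 | h3
    · rw [h3]; ring
    · obtain ⟨j, rfl⟩ : ∃ j, i = j + 1 := ⟨i - 1, by omega⟩
      rw [rec_lin S haw hθ j (by omega)]
      simp only [Nat.add_sub_cancel]
      ring
  rw [h2, h3]
  ring

theorem exists_good {A B C : V →ₗ[K] V} {d : ℕ} (hd : 3 ≤ d) (D : TriData A B d)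
    (D' : TriData B A d) {e0 e1 e2 e3 e4 : K} (h : Third A B C e0 e1 e2 e3 e4) :
    ∃ g : Good A B C d D.θ D'.θ e0 e1 e2 e3 e4, g.S.u 0 = D'.v 0 := by
  have hθ := D.inj D'
  have hθs := D'.inj D
  obtain ⟨S, hS⟩ := exists_split D D' hθ hθs
  obtain ⟨S', hS'⟩ : ∃ S' : SplitData A B d (fun i => D.θ (d - i)) D'.θ,
      S'.u 0 = D'.v 0 := by
    obtain ⟨D'', hD''⟩ := D.exists_rev
    rw [← hD'']
    exact exists_split D'' D' (D''.inj D') hθs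
  obtain ⟨β, γ, γs, ρ, ρs, ω, η, ηs, haw⟩ := h.hAB
  obtain ⟨⟨p, q, hpq, hβ, he4, hcl, hcls, h3⟩, ⟨ρe, ωe, ηe, ηes, k2⟩, hF, hG, hFs, hGs⟩ :=
    exists_pq hd D D' h S haw
  obtain ⟨κ, hκ⟩ := psi_rec S haw hθ
  have p1 := psi_one (by omega) S S' (by rw [hS, hS'])
  have p2 := psi_last (by omega) hθ S S' (by rw [hS, hS'])
  have hr0 : D.θ 2 = β * D.θ 1 - D.θ 0 + γ := rec_lin S haw hθ 0 (by omega)
  have hs0 : D'.θ 2 = β * D'.θ 1 - D'.θ 0 + γs := rec_lins S haw 0 (by omega)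
  have hγ : γ = D.θ 2 - (p + q) * D.θ 1 + D.θ 0 := by rw [hr0, hβ]; ring
  have hγs : γs = D'.θ 2 - (p + q) * D'.θ 1 + D'.θ 0 := by rw [hs0, hβ]; ring
  obtain ⟨f, hf⟩ : ∃ f : ℕ → K, f = fun i => S.φ i - (D'.θ i - D'.θ 0)
    * (D.θ (i - 1) - D.θ d) := ⟨_, rfl⟩
  have hf0 : f 0 = 0 := by rw [hf]; simp [S.hφ0]
  have hf1 : f 1 = S.φ 1 - (D'.θ 1 - D'.θ 0) * (D.θ 0 - D.θ d) := by rw [hf]
  have hrec := rec_sol (p := p) (q := q) (f := f) (N := d + 1) (κ := κ) hpq (fun i hi => by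
      have := hκ i hi
      rw [← hβ] at this
      rw [hf]
      exact this)
  rw [hf0] at hrec
  have e3t2 : e3 * (D.θ 2 - (1 + p) * D.θ 1 + p * D.θ 0)
      = (p - 1) * (e2 + e3 * D.θ 0 + e4 * D.θ 1) := by
    rw [he4]
    rw [hγ] at hcl
    linear_combination (-p) * hcl + (-e2 - e3 * D.θ 0 + e3 * D.θ 1 - e3 * D.θ 2
      + e3 * p * D.θ 1 + e3 * q * D.θ 1) * hpq
  have e3w2 : e3 * (D'.θ 2 - (1 + p) * D'.θ 1 + p * D'.θ 0)
      = (p - 1) * (e1 + e3 * D'.θ 0 + e4 * D'.θ 1) := by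
    rw [he4]
    rw [hγs] at hcls
    linear_combination (-p) * hcls + (-e1 - e3 * D'.θ 0 + e3 * D'.θ 1 - e3 * D'.θ 2
      + e3 * p * D'.θ 1 + e3 * q * D'.θ 1) * hpq
  have hsd : ScalarData d D.θ D'.θ p q (D.θ 0) (D.θ 1 - D.θ 0)
      (D.θ 2 - (1 + p) * D.θ 1 + p * D.θ 0)
      (D'.θ 0) (D'.θ 1 - D'.θ 0) (D'.θ 2 - (1 + p) * D'.θ 1 + p * D'.θ 0) e3
      (e1 + e3 * D'.θ 0 + e4 * D'.θ 1) (e2 + e3 * D.θ 0 + e4 * D.θ 1) := by
    refine ⟨hpq, ?_, ?_, e3t2, e3w2, h3, ?_, ?_, ?_⟩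
    · intro i hi
      have := rec_sol (p := p) (q := q) (f := D.θ) (N := d) (κ := γ) hpq (fun i hi => by
        rw [rec_lin S haw hθ i hi, hβ]) i hi
      rw [this, hγ]
      ring
    · intro i hi
      have := rec_sol (p := p) (q := q) (f := D'.θ) (N := d) (κ := γs) hpq (fun i hi => by
        rw [rec_lins S haw i hi, hβ]) i hi
      rw [this, hγs]
      ring
    · intro he
      apply hFs 0 (by omega)
      linear_combination he
    · exact hG 0 (by omega)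
    · intro he
      have := hθ d 0 le_rfl (by omega) he
      omega
  refine ⟨⟨p, q, γ, γs, ρ, ω, ωe, ηe, S, f 1, κ + (q - 1) * f 1 + (p - 1) * 0,
    h.hC, hsd, he4, ?_, ?_, ?_, hγ, hγs, ?_, ?_, S.hφ 0 (by omega), hF, hG, hFs, hGs⟩, hS⟩
  · intro i hi
    have := hrec (i + 1) (by omega)
    rw [sub_zero, zero_add] at this
    rw [← this, hf]
    simp
  · have := hrec (d + 1) le_rfl
    rw [sub_zero, zero_add] at this
    rw [← this, hf]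
    simp [S.hφd (d + 1) (by omega)]
  · have := hrec d (by omega)
    rw [sub_zero, zero_add] at this
    rw [← this, hf1, ← p1, p2, hf]
  · have := rec_phi S haw 0 (by omega)
    rw [S.hφ0, ← hβ] at this
    rw [this]
    simp only [zero_add]
    ring
  · rw [hβ]
    exact k2.1

end Pool.Agent.AW3
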