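import Pool.Agent.helper39.AW3.Spec

/-!
# The final form, with two parameters `x`, `y`
-/

namespace Pool.Agent.AW3

open Module TensorProduct Polynomial

/-- `p = 1` if `e3 = 0` and `p = -e3 / e4` otherwise. -/
noncomputable def pOf {K : Type*} [Field K] (e3 e4 : K) : K :=
  open Classical in if e3 = 0 then 1 else -e3 / e4

variable {K V : Type*} [Field K] [AddCommGroup V] [Module K V]

theorem qOf_inv (e3 e4 : K) : (qOf e3 e4)⁻¹ = pOf e3 e4 := by
  rw [qOf, pOf]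
  split_ifs with h
  · exact inv_one
  · rw [inv_div, div_neg, neg_div]

theorem qOf_eq (e3 e4 : K) : qOf e3 e4 = (pOf e3 e4)⁻¹ := by
  rw [← qOf_inv, inv_inv]

theorem br_eq_sum (p : K) (j : ℕ) : br p j = ∑ i ∈ Finset.range j, p ^ i := by
  induction j with
  | zero => simp
  | succ n ih => rw [Finset.sum_range_succ, ← ih, br_succ']

theorem br_q {p q : K} (hpq : p * q = 1) (n : ℕ) : q ^ n * br p (n + 1) = br q (n + 1) := by
  induction n with
  | zero => simp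
  | succ n ih =>
    rw [br_succ' q (n + 1), ← ih, br_succ p (n + 1), pow_succ]
    linear_combination (q ^ n * br p (n + 1)) * hpq

theorem br_q' {p q : K} (hpq : p * q = 1) (j : ℕ) :
    br p j + (q - p) * ss p q j = br q j := by
  cases j with
  | zero => simp
  | succ n => rw [D_rel hpq, br_q hpq]

/-- The eigenvalue attached to `x`, `y`. -/
def evv (d : ℕ) (p q : K) (θ θs : ℕ → K) (e0 e1 e2 e3 e4 φ x y : K) (j : ℕ) : K :=
  (e0 + e1 * θ 0 + e2 * θs 0 + (e3 + e4) * θ 0 * θs 0 + e4 * φ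
    + (e1 + e3 * θs 0 + e4 * θs 1) * (θ d - θ j))
  - ((e1 + e3 * θs 0 + e4 * θs 1) * (br p d - br p j)) * x
  - ((e2 + e3 * θ 0 + e4 * θ 1) * br q j) * y

/-- The two equations for `x`, `y`. -/
def Par (d : ℕ) (p : K) (θ θs : ℕ → K) (e1 e2 e3 e4 φ x y : K) : Prop :=
  y * ((θ d - θ 0) - br p d * x) = φ ∧
    (e1 + e3 * θs 0 + e4 * θs 1) * x + (e2 + e3 * θ 1 + e4 * θ 0) * ((θs 1 - θs 0) + y)
      = (e3 - e4) * (x * y)

section

variable {A B C : V →ₗ[K] V} {d : ℕ} {e0 e1 e2 e3 e4 : K}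

theorem phi1_ne (hd : 1 ≤ d) (D : TriData A B d) (D' : TriData B A d) :
    (D'.a 0 - D.θ 0) * (D'.θ 0 - D'.θ 1) ≠ 0 := by
  obtain ⟨S, hS⟩ := exists_split D D' (D.inj D') (D'.inj D)
  rw [← split_phi1 hd D D' S hS]
  exact S.hφ 0 (by omega)

theorem cY_ne (hd : 1 ≤ d) (h2 : d = 2 → e3 ≠ 0) (D : TriData A B d) (D' : TriData B A d)
    (h : Third A B C e0 e1 e2 e3 e4) {c : K}
    (hc : quadC d (qOf e3 e4)⁻¹ D.θ D'.θ e1 e2 e3 e4
      ((D'.a 0 - D.θ 0) * (D'.θ 0 - D'.θ 1)) c = 0) : cY d (qOf e3 e4)⁻¹ D.θ c ≠ 0 := by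
  rcases Nat.lt_or_ge d 2 with h3 | h3
  · obtain rfl : d = 1 := by omega
    obtain ⟨S, hS⟩ := exists_split D D' (D.inj D') (D'.inj D)
    rw [← split_phi1 le_rfl D D' S hS] at hc
    exact Y_ne_one D D' h S hc
  · obtain ⟨g, hg⟩ := exists_good' h3 D D' h h2
    rw [← g.p_eq] at hc ⊢
    rw [g.quad_eq] at hc
    exact g.hsd.Y_ne hd (phi1_ne hd D D') hc

theorem par_iff (hd : 1 ≤ d) (h2 : d = 2 → e3 ≠ 0) (D : TriData A B d) (D' : TriData B A d)
    (h : Third A B C e0 e1 e2 e3 e4) (x y : K) :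
    Par d (pOf e3 e4) D.θ D'.θ e1 e2 e3 e4 ((D'.a 0 - D.θ 0) * (D'.θ 0 - D'.θ 1)) x y ↔
      quadC d (qOf e3 e4)⁻¹ D.θ D'.θ e1 e2 e3 e4
        ((D'.a 0 - D.θ 0) * (D'.θ 0 - D'.θ 1)) x = 0 ∧
      y * cY d (qOf e3 e4)⁻¹ D.θ x = (D'.a 0 - D.θ 0) * (D'.θ 0 - D'.θ 1) := by
  have hφ := phi1_ne hd D D'
  rw [← qOf_inv, Par]
  generalize hφ' : (D'.a 0 - D.θ 0) * (D'.θ 0 - D'.θ 1) = φ at hφ ⊢
  constructor
  · rintro ⟨h1, h3⟩
    have h4 : y * cY d (qOf e3 e4)⁻¹ D.θ x = φ := by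
      rw [cY]; linear_combination h1
    refine ⟨?_, h4⟩
    rw [quadC, ← h4]
    simp only [cE, cG]
    linear_combination (cY d (qOf e3 e4)⁻¹ D.θ x) * h3
  · rintro ⟨h1, h4⟩
    have hY : cY d (qOf e3 e4)⁻¹ D.θ x ≠ 0 := by
      rw [← hφ'] at h1
      exact cY_ne hd h2 D D' h h1
    refine ⟨by rw [← h4, cY]; ring, ?_⟩
    apply mul_left_cancel₀ hY
    rw [quadC, ← h4] at h1
    simp only [cE, cG] at h1
    linear_combination h1

theorem eig_eq_evv (hd : 1 ≤ d) (h2 : d = 2 → e3 ≠ 0) (D : TriData A B d) (D' : TriData B A d)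
    (h : Third A B C e0 e1 e2 e3 e4) {x y φ : K} (hφ : φ ≠ 0)
    (hy : y * cY d (qOf e3 e4)⁻¹ D.θ x = φ) {j : ℕ} (hj : j ≤ d) :
    eig d (qOf e3 e4)⁻¹ (qOf e3 e4) D.θ D'.θ e0 e1 e2 e3 e4 φ x j
      = evv d (pOf e3 e4) (pOf e3 e4)⁻¹ D.θ D'.θ e0 e1 e2 e3 e4 φ x y j := by
  have hY : cY d (qOf e3 e4)⁻¹ D.θ x ≠ 0 := by
    intro h0
    rw [h0, mul_zero] at hy
    exact hφ hy.symm
  have hy' : φ / cY d (qOf e3 e4)⁻¹ D.θ x = y := by
    rw [← hy, mul_div_assoc, div_self hY, mul_one]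
  rw [eig, evv, hy', ← qOf_inv, inv_inv]
  rcases Nat.lt_or_ge d 2 with h3 | h3
  · obtain rfl : d = 1 := by omega
    have : j = 0 ∨ j = 1 := by omega
    rcases this with rfl | rfl
    · simp only [cE, cG, cY, br_zero, ss_zero, br_one]
      ring
    · simp only [cE, cG, cY, br_one, ss_one]
      ring
  · obtain ⟨g, hg⟩ := exists_good' h3 D D' h h2
    rw [← g.p_eq, ← g.q_eq, ← br_q' g.hsd.hpq j, g.hsd.hθ j hj]
    have h4 := g.hsd.h3
    simp only [cE, cG, cY]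
    linear_combination (ss g.p g.q j) * h4

/-- The final form over `K`, except for dimension `1`. -/
theorem spec_par [Module.Finite K V] (hd : 1 ≤ d) (h2 : d = 2 → e3 ≠ 0)
    (D : TriData A B d) (D' : TriData B A d) (h : Third A B C e0 e1 e2 e3 e4) (x y : K)
    (hxy : Par d (pOf e3 e4) D.θ D'.θ e1 e2 e3 e4
      ((D'.a 0 - D.θ 0) * (D'.θ 0 - D'.θ 1)) x y) :
    C.charpoly = ∏ j ∈ Finset.range (d + 1), (X - Polynomial.C
      (evv d (pOf e3 e4) (pOf e3 e4)⁻¹ D.θ D'.θ e0 e1 e2 e3 e4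
        ((D'.a 0 - D.θ 0) * (D'.θ 0 - D'.θ 1)) x y j)) := by
  obtain ⟨h1, h3⟩ := (par_iff hd h2 D D' h x y).1 hxy
  rw [spec_root' h2 D D' h x h1]
  refine Finset.prod_congr rfl fun j hj => ?_
  rw [eig_eq_evv hd h2 D D' h (phi1_ne hd D D') h3 (by have := Finset.mem_range.1 hj; omega)]

theorem spec_par' [Module.Finite K V] (h2 : d = 2 → e3 ≠ 0)
    (D : TriData A B d) (D' : TriData B A d) (h : Third A B C e0 e1 e2 e3 e4) (x y : K)
    (hxy : Par d (pOf e3 e4) D.θ D'.θ e1 e2 e3 e4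
      ((D'.a 0 - D.θ 0) * (D'.θ 0 - D'.θ 1)) x y) :
    C.charpoly = ∏ j ∈ Finset.range (d + 1), (X - Polynomial.C
      (evv d (pOf e3 e4) (pOf e3 e4)⁻¹ D.θ D'.θ e0 e1 e2 e3 e4
        ((D'.a 0 - D.θ 0) * (D'.θ 0 - D'.θ 1)) x y j)) := by
  rcases Nat.eq_zero_or_pos d with h0 | h0
  · subst h0
    rw [(spec_zero D D' h 0 0 0).1]
    rw [Finset.prod_range_one, Finset.prod_range_one, eig, evv, cY_zero]
    simp
  · exact spec_par h0 h2 D D' h x y hxy

theorem br_map' (L : Type*) [Field L] [Algebra K L] (p : K) (i : ℕ) :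
    br (algebraMap K L p)⁻¹ i = algebraMap K L (br p⁻¹ i) := by
  rw [← map_inv₀, br_map]

theorem pOf_map (L : Type*) [Field L] [Algebra K L] (e3 e4 : K) :
    pOf (algebraMap K L e3) (algebraMap K L e4) = algebraMap K L (pOf e3 e4) := by
  rw [← qOf_inv, ← qOf_inv, qOf_map, map_inv₀]

end

/-- The equations for `x, y` in an extension field `L` of `K`. -/
def ParL (L : Type*) [Field L] [Algebra K L] (d : ℕ) (θ θs : ℕ → K) (e1 e2 e3 e4 φ : K)
    (x y : L) : Prop :=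
  y * (algebraMap K L (θ d - θ 0) - algebraMap K L (br (pOf e3 e4) d) * x)
      = algebraMap K L φ ∧
    algebraMap K L (e1 + e3 * θs 0 + e4 * θs 1) * x
      + algebraMap K L (e2 + e3 * θ 1 + e4 * θ 0) * (algebraMap K L (θs 1 - θs 0) + y)
      = algebraMap K L (e3 - e4) * (x * y)

/-- The eigenvalue attached to `x, y`. -/
noncomputable def evL (L : Type*) [Field L] [Algebra K L] (d : ℕ) (θ θs : ℕ → K)
    (e0 e1 e2 e3 e4 φ : K) (x y : L) (j : ℕ) : L :=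
  algebraMap K L (e0 + e1 * θ 0 + e2 * θs 0 + (e3 + e4) * θ 0 * θs 0 + e4 * φ
      + (e1 + e3 * θs 0 + e4 * θs 1) * (θ d - θ j))
    - algebraMap K L ((e1 + e3 * θs 0 + e4 * θs 1)
        * (br (pOf e3 e4) d - br (pOf e3 e4) j)) * x
    - algebraMap K L ((e2 + e3 * θ 0 + e4 * θ 1) * br (pOf e3 e4)⁻¹ j) * y

theorem parL_iff (L : Type*) [Field L] [Algebra K L] (d : ℕ) (θ θs : ℕ → K)
    (e1 e2 e3 e4 φ : K) (x y : L) :
    ParL L d θ θs e1 e2 e3 e4 φ x y ↔ Par d (pOf (algebraMap K L e3) (algebraMap K L e4))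
      (fun i => algebraMap K L (θ i)) (fun i => algebraMap K L (θs i)) (algebraMap K L e1)
      (algebraMap K L e2) (algebraMap K L e3) (algebraMap K L e4) (algebraMap K L φ) x y := by
  rw [ParL, Par, pOf_map, br_map]
  simp only [map_add, map_sub, map_mul]

theorem evL_eq (L : Type*) [Field L] [Algebra K L] (d : ℕ) (θ θs : ℕ → K)
    (e0 e1 e2 e3 e4 φ : K) (x y : L) (j : ℕ) :
    evL L d θ θs e0 e1 e2 e3 e4 φ x y j = evv d (pOf (algebraMap K L e3) (algebraMap K L e4))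
      (pOf (algebraMap K L e3) (algebraMap K L e4))⁻¹
      (fun i => algebraMap K L (θ i)) (fun i => algebraMap K L (θs i)) (algebraMap K L e0)
      (algebraMap K L e1) (algebraMap K L e2) (algebraMap K L e3) (algebraMap K L e4)
      (algebraMap K L φ) x y j := by
  rw [evL, evv, pOf_map, br_map', br_map, br_map]
  simp only [map_add, map_sub, map_mul]

section

variable {A B C : V →ₗ[K] V} {d : ℕ} {e0 e1 e2 e3 e4 : K}

theorem main_spec (L : Type*) [Field L] [Algebra K L] [Module.Finite K V]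
    (h2 : d = 2 → e3 ≠ 0) (D : TriData A B d) (D' : TriData B A d)
    (h : Third A B C e0 e1 e2 e3 e4) (x y : L)
    (hxy : ParL L d D.θ D'.θ e1 e2 e3 e4 (phi1 D D') x y) :
    C.charpoly.map (algebraMap K L) = ∏ j ∈ Finset.range (d + 1),
      (X - Polynomial.C (evL L d D.θ D'.θ e0 e1 e2 e3 e4 (phi1 D D') x y j)) := by
  obtain ⟨D2, hθ, ha⟩ := D.exists_baseChange L
  obtain ⟨D2', hθ', ha'⟩ := D'.exists_baseChange L
  have hφ : (D2'.a 0 - D2.θ 0) * (D2'.θ 0 - D2'.θ 1) = algebraMap K L (phi1 D D') := by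
    rw [ha', hθ, hθ', phi1]
    simp only [map_mul, map_sub]
  have key := spec_par' (fun hd => (map_ne_zero (algebraMap K L)).2 (h2 hd)) D2 D2'
    (h.baseChange L) x y (by
      rw [hφ, hθ, hθ']
      exact (parL_iff _ _ _ _ _ _ _ _ _ _ _).1 hxy)
  rw [← LinearMap.charpoly_baseChange C L, key, hφ, hθ, hθ']
  refine Finset.prod_congr rfl fun j _ => ?_
  rw [evL_eq]

theorem parL_of_root (L : Type*) [Field L] [Algebra K L]
    (hd : 1 ≤ d) (h2 : d = 2 → e3 ≠ 0) (D : TriData A B d) (D' : TriData B A d)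
    (h : Third A B C e0 e1 e2 e3 e4) (x : L) (hx : IsRootC L D D' e1 e2 e3 e4 x) :
    ∃ y : L, ParL L d D.θ D'.θ e1 e2 e3 e4 (phi1 D D') x y ∧
      ∀ j, j ≤ d → eigC L D D' e0 e1 e2 e3 e4 x j
        = evL L d D.θ D'.θ e0 e1 e2 e3 e4 (phi1 D D') x y j := by
  obtain ⟨D2, hθ, ha⟩ := D.exists_baseChange L
  obtain ⟨D2', hθ', ha'⟩ := D'.exists_baseChange L
  have hφ : (D2'.a 0 - D2.θ 0) * (D2'.θ 0 - D2'.θ 1) = algebraMap K L (phi1 D D') := by
    rw [ha', hθ, hθ', phi1]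
    simp only [map_mul, map_sub]
  have h2' : d = 2 → algebraMap K L e3 ≠ 0 :=
    fun hd => (map_ne_zero (algebraMap K L)).2 (h2 hd)
  have hp : (qOf (algebraMap K L e3) (algebraMap K L e4))⁻¹
      = algebraMap K L (qOf e3 e4)⁻¹ := by
    rw [qOf_map, map_inv₀]
  have hx' : quadC d (qOf (algebraMap K L e3) (algebraMap K L e4))⁻¹ D2.θ D2'.θ
      (algebraMap K L e1) (algebraMap K L e2) (algebraMap K L e3) (algebraMap K L e4)
      ((D2'.a 0 - D2.θ 0) * (D2'.θ 0 - D2'.θ 1)) x = 0 := by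
    rw [hφ, hθ, hθ', hp]
    exact hx
  have hY := cY_ne hd h2' D2 D2' (h.baseChange L) hx'
  have hy : ((D2'.a 0 - D2.θ 0) * (D2'.θ 0 - D2'.θ 1)
      / cY d (qOf (algebraMap K L e3) (algebraMap K L e4))⁻¹ D2.θ x)
      * cY d (qOf (algebraMap K L e3) (algebraMap K L e4))⁻¹ D2.θ x
      = (D2'.a 0 - D2.θ 0) * (D2'.θ 0 - D2'.θ 1) := div_mul_cancel₀ _ hY
  refine ⟨(D2'.a 0 - D2.θ 0) * (D2'.θ 0 - D2'.θ 1)
      / cY d (qOf (algebraMap K L e3) (algebraMap K L e4))⁻¹ D2.θ x, ?_, fun j hj => ?_⟩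
  · have := (par_iff hd h2' D2 D2' (h.baseChange L) x _).2 ⟨hx', hy⟩
    rw [hφ, hθ, hθ'] at this
    rw [parL_iff, hφ, hθ]
    exact this
  · have := eig_eq_evv hd h2' D2 D2' (h.baseChange L) (phi1_ne hd D2 D2') hy hj
    rw [hφ, hθ, hθ', hp, qOf_map] at this
    rw [evL_eq, eigC, hφ, hθ, hp]
    exact this

theorem parL_zero (L : Type*) [Field L] [Algebra K L] [Module.Finite K V]
    (D : TriData A B 0) (D' : TriData B A 0) (h : Third A B C e0 e1 e2 e3 e4) :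
    ParL L 0 D.θ D'.θ e1 e2 e3 e4 (phi1 D D') 0 (-algebraMap K L (D'.θ 1 - D'.θ 0)) := by
  have ha := (spec_zero D D' h 0 0 0).2
  rw [ParL, phi1, ha, br_zero]
  constructor
  · simp
  · simp

theorem main_exists (L : Type*) [Field L] [Algebra K L] [IsAlgClosed L] [Module.Finite K V]
    (h2 : d = 2 → e3 ≠ 0) (D : TriData A B d) (D' : TriData B A d)
    (h : Third A B C e0 e1 e2 e3 e4) :
    ∃ x y : L, ParL L d D.θ D'.θ e1 e2 e3 e4 (phi1 D D') x y := by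
  rcases Nat.eq_zero_or_pos d with h0 | h0
  · subst h0
    exact ⟨_, _, parL_zero L D D' h⟩
  · obtain ⟨x, hx⟩ := exists_rootC L h2 D D' h
    obtain ⟨y, hy, -⟩ := parL_of_root L h0 h2 D D' h x hx
    exact ⟨x, y, hy⟩

theorem main_diag [Module.Finite K V] (h2 : d = 2 → e3 ≠ 0) (D : TriData A B d)
    (D' : TriData B A d) (h : Third A B C e0 e1 e2 e3 e4) :
    Diagonalizable C ↔ ∃ x y : K, ParL K d D.θ D'.θ e1 e2 e3 e4 (phi1 D D') x y ∧
      ∀ i j, i ≤ d → j ≤ d → evL K d D.θ D'.θ e0 e1 e2 e3 e4 (phi1 D D') x y i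
        = evL K d D.θ D'.θ e0 e1 e2 e3 e4 (phi1 D D') x y j → i = j := by
  have hV : finrank K V = d + 1 := by
    rw [Module.finrank_eq_card_basis D.b, Fintype.card_fin]
  constructor
  · intro hC
    rcases Nat.eq_zero_or_pos d with h0 | h0
    · subst h0
      exact ⟨_, _, parL_zero K D D' h, fun i j hi hj _ => by omega⟩
    · obtain ⟨x, hx, hinj⟩ := (diag_iff h2 D D' h).1 hC
      obtain ⟨y, hy, he⟩ := parL_of_root K h0 h2 D D' h x hx
      refine ⟨x, y, hy, fun i j hi hj hij => hinj i j hi hj ?_⟩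
      rw [he i hi, he j hj, hij]
  · rintro ⟨x, y, hxy, hinj⟩
    have h1 := main_spec K h2 D D' h x y hxy
    rw [Algebra.algebraMap_self, Polynomial.map_id] at h1
    obtain ⟨w, hw⟩ := eigenbasis_of_charpoly hV _ hinj h1
    refine ⟨d + 1, w, ?_⟩
    intro i j hij
    rw [LinearMap.toMatrix_apply, hw, map_smul, Finsupp.smul_apply, w.repr_self,
      Finsupp.single_eq_of_ne (by exact fun h => hij h), smul_zero]

end

end Pool.Agent.AW3
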