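import Pool.Agent.helper39.AW3.Tri

/-!
# Consequences of (i)-(iv) in the eigenbasis of `A`

Throughout `C = e0 + e1 A + e2 B + e3 A B + e4 B A`, `D : TriData A B d`, `v = D.v`, `θ = D.θ`.
`coeff` facts: the coefficient of `v (i - 1)` in `C (v i)` is `(e2 + e3 θ_{i-1} + e4 θ_i) x_i`, that
of `v i` is `e0 + e1 θ_i + e2 a_i + (e3 + e4) θ_i a_i` and that of `v (i + 1)` is
`(e2 + e3 θ_{i+1} + e4 θ_i) y_i`.

`pg_one`: `B = f0 + f1 A + f2 C + f3 C A + f4 A C`; compare the coefficients of `v i` in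
`B (v (i+1))`: `x = (f2 + f3 θ_{i+1} + f4 θ_i) (e2 + e3 θ_i + e4 θ_{i+1}) x`, and of `v (i+1)` in
`B (v i)`.

`aw_third`: let `β', γ', ρ', …` be the scalars of the relations of `A, C`.  The coefficient of
`v (i+1)` in the first relation at `v i` is
`(θ_i^2 - β' θ_i θ_{i+1} + θ_{i+1}^2 - γ' (θ_i + θ_{i+1}) - ρ') * (nonzero) = 0`.  Together with
the same for `β, γ, ρ` at `i = 0, 1, 2` one gets linear recurrences
`θ_{i+2} - β θ_{i+1} + θ_i = γ` (`i = 0, 1`), so `(β' - β) θ_1 + (γ' - γ) = 0 = (β' - β) θ_2 +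
(γ' - γ)`, hence `β' = β`, `γ' = γ`, then `ρ' = ρ`.
With `R = A A B - β A B A + B A A - γ (A B + B A) - ρ B = γs A A + ω A + η` (it commutes with `A`)
the left side of the first relation for `C` is
`e0 ((2-β) A A - 2γ A - ρ) + e1 ((2-β) A A A - 2γ A A - ρ A) + e2 R + e3 A R + e4 R A`.
So a polynomial of degree `≤ 3` in `A` vanishes; `A` has `d + 1 ≥ 4` distinct eigenvalues, so all
coefficients vanish.  The coefficient of `A A A` is `(e3 + e4) γs + (2 - β) e1`, the coefficient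
of `A A` is `(e3 + e4) ω + e2 γs - 2 γ e1 + (2 - β) e0 - γe`, the coefficient of `A` is
`(e3 + e4) η + e2 ω - ρ e1 - 2 γ e0 - ωe`.

`e3_zero`: `C = e0 + e1 A + e2 B`, `β = 2`.  Expand the second relation of `A, C` using
`C C A - 2 C A C + A C C = e2^2 (B B A - 2 B A B + A B B) - e1 e2 (A A B - 2 A B A + B A A)`,
the two relations of `A, B`, and `γe = e2 γs - 2 γ e1`, `ωe = e2 ω - ρ e1 - 2 γ e0`; everything
cancels except `-3 e1 (e2 γs - γ e1) A A + (scalar) A + scalar = 0`.
-/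

namespace Pool.Agent.AW3

open Module

variable {K V : Type*} [Field K] [AddCommGroup V] [Module K V]

section

variable {A B C : V →ₗ[K] V} {d : ℕ}

/-- the coordinate of `v j` -/
private noncomputable def OperA_co (D : TriData A B d) (j : ℕ) (hj : j ≤ d) : V →ₗ[K] K :=
  D.b.coord ⟨j, by omega⟩

private theorem OperA_co_v (D : TriData A B d) (j : ℕ) (hj : j ≤ d) (i : ℕ) :
    OperA_co D j hj (D.v i) = if i = j then 1 else 0 := by
  by_cases hi : i ≤ d
  · have h := D.hb ⟨i, by omega⟩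
    rw [← h, OperA_co, Basis.coord_apply, Basis.repr_self, Finsupp.single_apply]
    simp only [Fin.mk.injEq]
  · rw [D.hv i (by omega), map_zero, if_neg (by omega)]

private theorem OperA_co_A (D : TriData A B d) (j : ℕ) (hj : j ≤ d) (w : V) :
    OperA_co D j hj (A w) = D.θ j * OperA_co D j hj w := by
  have h : (OperA_co D j hj) ∘ₗ A = D.θ j • OperA_co D j hj := by
    refine D.b.ext fun i => ?_
    rw [LinearMap.comp_apply, LinearMap.smul_apply, D.hb i, D.hA, map_smul,
      OperA_co_v D j hj i]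
    split_ifs with h
    · rw [h]
    · rw [smul_zero, smul_zero]
  exact congrArg (fun f : V →ₗ[K] K => f w) h

private theorem OperA_co_up (D : TriData A B d) (i : ℕ) (hi : i + 1 ≤ d) :
    OperA_co D (i + 1) hi (B (D.v i)) = D.y i := by
  rw [D.hB i (by omega), map_add, map_add, map_smul, map_smul, map_smul,
    OperA_co_v, OperA_co_v, OperA_co_v, if_neg (by omega), if_neg (by omega), if_pos rfl]
  simp

private theorem OperA_co_down (D : TriData A B d) (i : ℕ) (hi : i + 1 ≤ d) :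
    OperA_co D i (by omega) (B (D.v (i + 1))) = D.x (i + 1) := by
  rw [D.hB (i + 1) (by omega), map_add, map_add, map_smul, map_smul, map_smul,
    OperA_co_v, OperA_co_v, OperA_co_v, if_pos (by omega), if_neg (by omega), if_neg (by omega)]
  simp

private theorem OperA_co_diag (D : TriData A B d) (i : ℕ) (hi : i ≤ d) :
    OperA_co D i hi (B (D.v i)) = D.a i := by
  rw [D.hB i (by omega), map_add, map_add, map_smul, map_smul, map_smul,
    OperA_co_v, OperA_co_v, OperA_co_v, if_pos rfl, if_neg (show ¬ (i + 1 = i) by omega)]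
  by_cases h : i = 0
  · subst h
    rw [D.hx0]
    simp
  · rw [if_neg (by omega)]
    simp

/-- any coordinate of `C w` for `w` an eigenvector of `A` -/
private theorem OperA_co_C {e0 e1 e2 e3 e4 : K} (D : TriData A B d)
    (hC : C = e0 • (1 : V →ₗ[K] V) + e1 • A + e2 • B + e3 • (A * B) + e4 • (B * A))
    (i j : ℕ) (hj : j ≤ d) :
    OperA_co D j hj (C (D.v i)) = (e0 + e1 * D.θ i) * (if i = j then 1 else 0) +
      (e2 + e3 * D.θ j + e4 * D.θ i) * OperA_co D j hj (B (D.v i)) := by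
  have h := congrArg (fun f : V →ₗ[K] V => OperA_co D j hj (f (D.v i))) hC
  simp only [LinearMap.add_apply, LinearMap.smul_apply, Module.End.mul_apply,
    Module.End.one_apply, D.hA, map_smul, map_add, OperA_co_A, OperA_co_v, smul_eq_mul] at h
  rw [h]
  ring

/-- any coordinate of `B w` for `w` an eigenvector of `A`, from the expression of `B` by `A, C` -/
private theorem OperA_co_B {f0 f1 f2 f3 f4 : K} (D : TriData A B d)
    (hB : B = f0 • (1 : V →ₗ[K] V) + f1 • A + f2 • C + f3 • (C * A) + f4 • (A * C))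
    (i j : ℕ) (hj : j ≤ d) :
    OperA_co D j hj (B (D.v i)) = (f0 + f1 * D.θ i) * (if i = j then 1 else 0) +
      (f2 + f4 * D.θ j + f3 * D.θ i) * OperA_co D j hj (C (D.v i)) := by
  have h := congrArg (fun f : V →ₗ[K] V => OperA_co D j hj (f (D.v i))) hB
  simp only [LinearMap.add_apply, LinearMap.smul_apply, Module.End.mul_apply,
    Module.End.one_apply, D.hA, map_smul, map_add, OperA_co_A, OperA_co_v, smul_eq_mul] at h
  rw [h]
  ring

private theorem OperA_poly {a b c x2 x1 x0 : K} (hab : a ≠ b) (hac : a ≠ c) (hbc : b ≠ c)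
    (h0 : x2 * a ^ 2 + x1 * a + x0 = 0) (h1 : x2 * b ^ 2 + x1 * b + x0 = 0)
    (h2 : x2 * c ^ 2 + x1 * c + x0 = 0) : x2 = 0 := by
  have g1 : x2 * (a + b) + x1 = 0 := by
    apply mul_left_cancel₀ (sub_ne_zero.2 hab)
    linear_combination h0 - h1
  have g2 : x2 * (a + c) + x1 = 0 := by
    apply mul_left_cancel₀ (sub_ne_zero.2 hac)
    linear_combination h0 - h2
  apply mul_left_cancel₀ (sub_ne_zero.2 hbc)
  linear_combination g1 - g2

end

section

variable {A B C : V →ₗ[K] V} {d : ℕ} {β γ γs ρ ρs ω η ηs e0 e1 e2 e3 e4 f0 f1 f2 f3 f4 : K}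

/-- `C` is irreducible tridiagonal in the eigenbasis of `A`. -/
theorem triData_third (D : TriData A B d)
    (hC : C = e0 • (1 : V →ₗ[K] V) + e1 • A + e2 • B + e3 • (A * B) + e4 • (B * A))
    (hG : ∀ i, i < d → e2 + e3 * D.θ i + e4 * D.θ (i + 1) ≠ 0)
    (hF : ∀ i, i < d → e2 + e3 * D.θ (i + 1) + e4 * D.θ i ≠ 0) :
    ∃ D' : TriData A C d, D'.θ = D.θ ∧ D'.b = D.b := by
  refine ⟨{ v := D.v, θ := D.θ,
            a := fun i => e0 + e1 * D.θ i + e2 * D.a i + (e3 + e4) * (D.θ i * D.a i),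
            x := fun i => (e2 + e3 * D.θ (i - 1) + e4 * D.θ i) * D.x i,
            y := fun i => (e2 + e3 * D.θ (i + 1) + e4 * D.θ i) * D.y i,
            b := D.b, hb := D.hb, hv := D.hv, hA := D.hA, hB := ?_, hx0 := ?_,
            hx := ?_, hy := ?_ }, rfl, rfl⟩
  · intro i hi
    subst hC
    simp only [LinearMap.add_apply, LinearMap.smul_apply, Module.End.mul_apply,
      Module.End.one_apply, D.hA, map_smul, D.hB i hi, map_add]
    module
  · show _ * D.x 0 = 0
    rw [D.hx0, mul_zero]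
  · intro i hi
    exact mul_ne_zero (hG i hi) (D.hx i hi)
  · intro i hi
    exact mul_ne_zero (hF i hi) (D.hy i hi)

theorem pg_one (D : TriData A B d)
    (hC : C = e0 • (1 : V →ₗ[K] V) + e1 • A + e2 • B + e3 • (A * B) + e4 • (B * A))
    (hB : B = f0 • (1 : V →ₗ[K] V) + f1 • A + f2 • C + f3 • (C * A) + f4 • (A * C))
    (i : ℕ) (hi : i < d) :
    (e2 + e3 * D.θ i + e4 * D.θ (i + 1)) * (f2 + f4 * D.θ i + f3 * D.θ (i + 1)) = 1 ∧
    (e2 + e3 * D.θ (i + 1) + e4 * D.θ i) * (f2 + f4 * D.θ (i + 1) + f3 * D.θ i) = 1 := by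
  constructor
  · have h1 := OperA_co_C D hC (i + 1) i (by omega)
    have h2 := OperA_co_B D hB (i + 1) i (by omega)
    rw [if_neg (by omega), OperA_co_down D i hi] at h1 h2
    apply mul_right_cancel₀ (D.hx i hi)
    linear_combination -h2 - (f2 + f4 * D.θ i + f3 * D.θ (i + 1)) * h1
  · have h1 := OperA_co_C D hC i (i + 1) hi
    have h2 := OperA_co_B D hB i (i + 1) hi
    rw [if_neg (by omega), OperA_co_up D i hi] at h1 h2
    apply mul_right_cancel₀ (D.hy i hi)
    linear_combination -h2 - (f2 + f4 * D.θ (i + 1) + f3 * D.θ i) * h1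

/-- In characteristic 2 with `β = 0` one has `e3 = 0`.  Proof: `e4 = -e3`, `f3 = -f4`
(hypotheses), so in characteristic 2 the diagonal coefficients give, with `a_i = D.a i`,
`ε_i = e0 + e1 θ_i + e2 a_i` and `a_i = f0 + f1 θ_i + f2 ε_i`, i.e.
`(1 - e2 f2) a_i = (f0 + f2 e0) + (f1 + f2 e1) θ_i`, where `1 - e2 f2 = ρ κ`.  The diagonal
coefficient of the first relation of `A, B` is `(2-β) θ_i^2 a_i - 2 γ θ_i a_i - ρ a_i =
γs θ_i^2 + ω θ_i + η`, i.e. `-ρ a_i = γs θ_i^2 + ω θ_i + η`.  Multiply by `ρ κ`: a polynomial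
`ρ κ γs X^2 + …` of degree `≤ 2` vanishes at the four distinct `θ_i`; so `ρ κ γs = 0`. -/
theorem char_two (hd : 3 ≤ d) (D : TriData A B d)
    (hθ : ∀ i j, i ≤ d → j ≤ d → D.θ i = D.θ j → i = j) (h2 : (2 : K) = 0)
    (hC : C = e0 • (1 : V →ₗ[K] V) + e1 • A + e2 • B + e3 • (A * B) + e4 • (B * A))
    (hB : B = f0 • (1 : V →ₗ[K] V) + f1 • A + f2 • C + f3 • (C * A) + f4 • (A * C))
    (h : AWRel A B 0 γ γs ρ ρs ω η ηs) (he : e3 + e4 = 0) (hf : f3 + f4 = 0) {κ : K}
    (hκ : e2 * f2 - 1 = -ρ * κ) : ρ * κ * γs = 0 := by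
  have hne : ∀ i j, i ≤ d → j ≤ d → i ≠ j → D.θ i ≠ D.θ j := fun i j hi hj hij h =>
    hij (hθ i j hi hj h)
  have key : ∀ i, i ≤ d → ρ * κ * γs * D.θ i ^ 2 +
      (ρ * κ * ω + ρ * (f1 + f2 * e1)) * D.θ i + (ρ * κ * η + ρ * (f0 + f2 * e0)) = 0 := by
    intro i hi
    have g1 := OperA_co_C D hC i i hi
    have g2 := OperA_co_B D hB i i hi
    have h3 := congrArg (fun f : V →ₗ[K] V => OperA_co D i hi (f (D.v i))) h.1
    simp only [LinearMap.add_apply, LinearMap.sub_apply, LinearMap.smul_apply,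
      Module.End.mul_apply, Module.End.one_apply, D.hA, map_smul, map_add, map_sub, OperA_co_A,
      OperA_co_v D i hi i, smul_eq_mul, OperA_co_diag D i hi, zero_smul, LinearMap.zero_apply,
      map_zero, if_true] at h3
    rw [if_pos rfl] at g1 g2
    rw [OperA_co_diag D i hi] at g1 g2
    have he' : e4 = -e3 := by linear_combination he
    have hf' : f4 = -f3 := by linear_combination hf
    subst he' hf'
    linear_combination (-ρ * κ) * h3 - ρ * g2 - ρ * f2 * g1 - ρ * D.a i * hκ +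
      (ρ * κ * (D.θ i ^ 2 * D.a i - γ * D.θ i * D.a i)) * h2
  exact OperA_poly (hne 0 1 (by omega) (by omega) (by omega))
    (hne 0 2 (by omega) (by omega) (by omega)) (hne 1 2 (by omega) (by omega) (by omega))
    (key 0 (by omega)) (key 1 (by omega)) (key 2 (by omega))

end

end Pool.Agent.AW3
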