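import Pool.Agent.helper39.AW3.Final

/-!
# Dimensions one and two
-/

namespace Pool.Agent.AW3

open Module Polynomial

variable {K V : Type*} [Field K] [AddCommGroup V] [Module K V]

section

variable {A B C : V →ₗ[K] V} {e0 e1 e2 e3 e4 : K}

theorem split_phi1 {d : ℕ} (hd : 1 ≤ d) (D : TriData A B d) (D' : TriData B A d)
    (S : SplitData A B d D.θ D'.θ) (hu : S.u 0 = D'.v 0) :
    S.φ 1 = (D'.a 0 - D.θ 0) * (D'.θ 0 - D'.θ 1) := by
  have h1 := S.hA 0 (by omega)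
  have h2 := D'.hB 0 (by omega)
  rw [hu] at h1
  rw [D'.hx0, zero_smul, zero_add, h1, zero_add] at h2
  have h3 := S.hB 1 hd
  have h4 : S.u 1 = (D'.a 0 - D.θ 0) • D'.v 0 + D'.y 0 • D'.v 1 := by
    rw [sub_smul]
    have : S.u 1 = D'.a 0 • D'.v 0 + D'.y 0 • D'.v 1 - D.θ 0 • D'.v 0 := by
      rw [← h2, add_sub_cancel_left]
    rw [this]; abel
  rw [Nat.sub_self, hu, h4, map_add, map_smul, map_smul, D'.hA, D'.hA] at h3
  have h5 : ((D'.a 0 - D.θ 0) * D'.θ 0 - D'.θ 1 * (D'.a 0 - D.θ 0) - S.φ 1) • D'.v 0 = 0 := by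
    have h6 : ((D'.a 0 - D.θ 0) * D'.θ 0 - D'.θ 1 * (D'.a 0 - D.θ 0) - S.φ 1) • D'.v 0
        = ((D'.a 0 - D.θ 0) • D'.θ 0 • D'.v 0 + D'.y 0 • D'.θ 1 • D'.v 1)
          - (D'.θ 1 • ((D'.a 0 - D.θ 0) • D'.v 0 + D'.y 0 • D'.v 1)
            + S.φ 1 • D'.v 0) := by module
    rw [h6, h3, sub_self]
  have hv : D'.v 0 ≠ 0 := by
    have := D'.hb 0
    simp only [Fin.val_zero] at this
    rw [← this]
    exact D'.b.ne_zero 0
  have h7 := (smul_eq_zero.1 h5).resolve_right hv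
  linear_combination -h7

/-- `Y ≠ 0` for `d = 1`. -/
theorem Y_ne_one (D : TriData A B 1) (D' : TriData B A 1) (h : Third A B C e0 e1 e2 e3 e4)
    (S : SplitData A B 1 D.θ D'.θ) {p c : K}
    (hc : quadC 1 p D.θ D'.θ e1 e2 e3 e4 (S.φ 1) c = 0) : cY 1 p D.θ c ≠ 0 := by
  intro hY
  rw [quadC, hY] at hc
  rw [cY, br_one] at hY
  have h1 : cG D.θ e2 e3 e4 * S.φ 1 = 0 := by
    linear_combination hc - (e3 - e4) * (S.φ 1) * hY
  rcases mul_eq_zero.1 h1 with h2 | h2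
  · exact (third_ne D h).1 0 (by omega) h2
  · exact S.hφ 0 (by omega) h2

theorem spec_one [Module.Finite K V] (D : TriData A B 1) (D' : TriData B A 1)
    (h : Third A B C e0 e1 e2 e3 e4) (p q c : K)
    (hc : quadC 1 p D.θ D'.θ e1 e2 e3 e4 ((D'.a 0 - D.θ 0) * (D'.θ 0 - D'.θ 1)) c = 0) :
    C.charpoly = ∏ j ∈ Finset.range (1 + 1), (X - Polynomial.C
      (eig 1 p q D.θ D'.θ e0 e1 e2 e3 e4 ((D'.a 0 - D.θ 0) * (D'.θ 0 - D'.θ 1)) c j)) := by
  obtain ⟨S, hS⟩ := exists_split D D' (D.inj D') (D'.inj D)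
  rw [← split_phi1 le_rfl D D' S hS] at hc ⊢
  have hY := Y_ne_one D D' h S hc
  have hA0 := S.hA 0 (by omega)
  have hA1 := S.hA 1 le_rfl
  have hB0 := S.hB 0 (by omega)
  have hB1 := S.hB 1 le_rfl
  rw [S.hu (1 + 1) (by omega), add_zero] at hA1
  rw [S.hφ0, zero_smul, add_zero] at hB0
  rw [Nat.sub_self] at hB1
  rw [zero_add] at hA0
  have hC0 : C (S.u 0) = (e0 + e1 * D.θ 0 + e2 * D'.θ 0 + (e3 + e4) * D.θ 0 * D'.θ 0
      + e4 * S.φ 1) • S.u 0 + (e1 + e3 * D'.θ 0 + e4 * D'.θ 1) • S.u 1 := by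
    rw [h.hC]
    simp only [LinearMap.add_apply, LinearMap.smul_apply, Module.End.one_apply,
      Module.End.mul_apply, map_add, map_smul, hA0, hA1, hB0, hB1]
    module
  have hC1 : C (S.u 1) = (S.φ 1 * (e2 + e3 * D.θ 0 + e4 * D.θ 1)) • S.u 0
      + (e0 + e1 * D.θ 1 + e2 * D'.θ 1 + (e3 + e4) * D.θ 1 * D'.θ 1
      + e3 * S.φ 1) • S.u 1 := by
    rw [h.hC]
    simp only [LinearMap.add_apply, LinearMap.smul_apply, Module.End.one_apply,
      Module.End.mul_apply, map_add, map_smul, hA0, hA1, hB0, hB1]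
    module
  have b0 : S.b 0 = S.u 0 := S.hb 0
  have b1 : S.b 1 = S.u 1 := S.hb 1
  have r0 : ∀ x y : K, S.b.repr (x • S.u 0 + y • S.u 1) 0 = x := by
    intro x y
    rw [← b0, ← b1]
    simp
  have r1 : ∀ x y : K, S.b.repr (x • S.u 0 + y • S.u 1) 1 = y := by
    intro x y
    rw [← b0, ← b1]
    simp
  have m00 : LinearMap.toMatrix S.b S.b C 0 0 = (e0 + e1 * D.θ 0 + e2 * D'.θ 0
      + (e3 + e4) * D.θ 0 * D'.θ 0 + e4 * S.φ 1) := by
    rw [LinearMap.toMatrix_apply, b0, hC0]; exact r0 _ _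
  have m10 : LinearMap.toMatrix S.b S.b C 1 0 = (e1 + e3 * D'.θ 0 + e4 * D'.θ 1) := by
    rw [LinearMap.toMatrix_apply, b0, hC0]; exact r1 _ _
  have m01 : LinearMap.toMatrix S.b S.b C 0 1
      = (S.φ 1 * (e2 + e3 * D.θ 0 + e4 * D.θ 1)) := by
    rw [LinearMap.toMatrix_apply, b1, hC1]; exact r0 _ _
  have m11 : LinearMap.toMatrix S.b S.b C 1 1 = (e0 + e1 * D.θ 1 + e2 * D'.θ 1
      + (e3 + e4) * D.θ 1 * D'.θ 1 + e3 * S.φ 1) := by
    rw [LinearMap.toMatrix_apply, b1, hC1]; exact r1 _ _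
  rw [← LinearMap.charpoly_toMatrix C S.b]
  have hcp : (LinearMap.toMatrix S.b S.b C).charpoly = X ^ 2
      - Polynomial.C (LinearMap.toMatrix S.b S.b C).trace * X
      + Polynomial.C (LinearMap.toMatrix S.b S.b C).det := Matrix.charpoly_fin_two _
  have htr : (LinearMap.toMatrix S.b S.b C).trace = LinearMap.toMatrix S.b S.b C 0 0
      + LinearMap.toMatrix S.b S.b C 1 1 := Matrix.trace_fin_two _
  have hdet : (LinearMap.toMatrix S.b S.b C).det = LinearMap.toMatrix S.b S.b C 0 0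
      * LinearMap.toMatrix S.b S.b C 1 1 - LinearMap.toMatrix S.b S.b C 0 1
      * LinearMap.toMatrix S.b S.b C 1 0 := Matrix.det_fin_two _
  rw [hcp, htr, hdet, m00, m01, m10, m11]
  rw [Finset.prod_range_succ, Finset.prod_range_one]
  obtain ⟨z, hz⟩ : ∃ z, z = S.φ 1 / cY 1 p D.θ c := ⟨_, rfl⟩
  have hzY : z * cY 1 p D.θ c = S.φ 1 := by rw [hz, div_mul_cancel₀ _ hY]
  have g0 : eig 1 p q D.θ D'.θ e0 e1 e2 e3 e4 (S.φ 1) c 0 = (e0 + e1 * D.θ 0 + e2 * D'.θ 0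
      + (e3 + e4) * D.θ 0 * D'.θ 0 + e4 * S.φ 1) + cE D'.θ e1 e3 e4 * cY 1 p D.θ c := by
    rw [eig, br_zero, ss_zero]; ring
  have g1 : eig 1 p q D.θ D'.θ e0 e1 e2 e3 e4 (S.φ 1) c 1 = (e0 + e1 * D.θ 0 + e2 * D'.θ 0
      + (e3 + e4) * D.θ 0 * D'.θ 0 + e4 * S.φ 1) - cG D.θ e2 e3 e4 * z := by
    rw [eig, br_one, ss_one, ← hz, cY, br_one]; ring
  have hYc : cY 1 p D.θ c = D.θ 1 - D.θ 0 - c := by rw [cY, br_one, mul_one]
  have key : (e0 + e1 * D.θ 1 + e2 * D'.θ 1 + (e3 + e4) * D.θ 1 * D'.θ 1 + e3 * S.φ 1)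
      = (e0 + e1 * D.θ 0 + e2 * D'.θ 0
      + (e3 + e4) * D.θ 0 * D'.θ 0 + e4 * S.φ 1) + cE D'.θ e1 e3 e4 * cY 1 p D.θ c
        - cG D.θ e2 e3 e4 * z := by
    apply mul_right_cancel₀ hY
    rw [quadC, hYc] at hc
    rw [hYc] at hzY ⊢
    simp only [cE, cG] at hc ⊢
    linear_combination hc + (e2 + e3 * D.θ 0 + e4 * D.θ 1) * hzY
  rw [g0, g1, key]
  have hEG : S.φ 1 * (e2 + e3 * D.θ 0 + e4 * D.θ 1) * (e1 + e3 * D'.θ 0 + e4 * D'.θ 1)
      = (cE D'.θ e1 e3 e4 * cY 1 p D.θ c) * (cG D.θ e2 e3 e4 * z) := by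
    rw [← hzY, cE, cG]; ring
  rw [hEG]
  simp only [map_add, map_sub, map_mul]
  ring

theorem spec_zero [Module.Finite K V] (D : TriData A B 0) (D' : TriData B A 0)
    (h : Third A B C e0 e1 e2 e3 e4) (p q c : K) :
    C.charpoly = ∏ j ∈ Finset.range (0 + 1), (X - Polynomial.C
      (eig 0 p q D.θ D'.θ e0 e1 e2 e3 e4 ((D'.a 0 - D.θ 0) * (D'.θ 0 - D'.θ 1)) c j)) ∧
    D'.a 0 = D.θ 0 := by
  have hall : ∀ x : V, A x = D.θ 0 • x ∧ B x = D'.θ 0 • x := by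
    intro x
    constructor
    · have hx := D.b.sum_repr x
      rw [Fin.sum_univ_one] at hx
      have := D.hb 0
      rw [← hx, map_smul, this]
      have h2 := D.hA 0
      simp only [Fin.val_zero] at *
      rw [h2, smul_comm]
    · have hx := D'.b.sum_repr x
      rw [Fin.sum_univ_one] at hx
      have := D'.hb 0
      rw [← hx, map_smul, this]
      have h2 := D'.hA 0
      simp only [Fin.val_zero] at *
      rw [h2, smul_comm]
  have hv : D'.v 0 ≠ 0 := by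
    have := D'.hb 0
    simp only [Fin.val_zero] at this
    rw [← this]
    exact D'.b.ne_zero 0
  have ha : D'.a 0 = D.θ 0 := by
    have h2 := D'.hB 0 le_rfl
    rw [D'.hx0, D'.hv (0 + 1) (by omega), smul_zero, zero_smul, zero_add, add_zero,
      (hall _).1] at h2
    exact (smul_left_injective K hv h2).symm
  refine ⟨?_, ha⟩
  have hC : C = (e0 + e1 * D.θ 0 + e2 * D'.θ 0 + (e3 + e4) * D.θ 0 * D'.θ 0) •
      (1 : V →ₗ[K] V) := by
    apply LinearMap.ext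
    intro x
    rw [h.hC]
    simp only [LinearMap.add_apply, LinearMap.smul_apply, Module.End.one_apply,
      Module.End.mul_apply, (hall _).1, (hall _).2, map_smul]
    module
  have hV : C.charpoly = ∏ _i : Fin (0 + 1), (X - Polynomial.C
      (e0 + e1 * D.θ 0 + e2 * D'.θ 0 + (e3 + e4) * D.θ 0 * D'.θ 0)) := by
    rw [← LinearMap.charpoly_toMatrix C D.b, ← Matrix.charpoly_diagonal]
    congr 1
    rw [hC, map_smul, LinearMap.toMatrix_one]
    ext i j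
    rw [Matrix.smul_apply, Matrix.one_apply, Matrix.diagonal_apply, smul_eq_mul]
    split_ifs <;> simp
  rw [hV, Fin.prod_univ_one, Finset.prod_range_one, eig, ha, sub_self, zero_mul, cY]
  simp

end

end Pool.Agent.AW3
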