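import Pool.Agent.helper39.AW3.Small

/-!
# Spectrum over an extension field; diagonalizability; Leonard triples
-/

namespace Pool.Agent.AW3

open Module TensorProduct Polynomial

variable {K V : Type*} [Field K] [AddCommGroup V] [Module K V]

section

variable {A B C : V →ₗ[K] V} {d : ℕ} {e0 e1 e2 e3 e4 : K}

/-- `φ1` in terms of the two bases. -/
def phi1 (D : TriData A B d) (D' : TriData B A d) : K :=
  (D'.a 0 - D.θ 0) * (D'.θ 0 - D'.θ 1)

/-- `c ∈ L` is a root of the quadratic equation. -/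
def IsRootC (L : Type*) [Field L] [Algebra K L] (D : TriData A B d) (D' : TriData B A d)
    (e1 e2 e3 e4 : K) (c : L) : Prop :=
  quadC d (algebraMap K L (qOf e3 e4)⁻¹) (fun i => algebraMap K L (D.θ i))
    (fun i => algebraMap K L (D'.θ i)) (algebraMap K L e1) (algebraMap K L e2)
    (algebraMap K L e3) (algebraMap K L e4) (algebraMap K L (phi1 D D')) c = 0

/-- The eigenvalues attached to `c ∈ L`. -/
noncomputable def eigC (L : Type*) [Field L] [Algebra K L] (D : TriData A B d) (D' : TriData B A d)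
    (e0 e1 e2 e3 e4 : K) (c : L) (j : ℕ) : L :=
  eig d (algebraMap K L (qOf e3 e4)⁻¹) (algebraMap K L (qOf e3 e4))
    (fun i => algebraMap K L (D.θ i)) (fun i => algebraMap K L (D'.θ i))
    (algebraMap K L e0) (algebraMap K L e1) (algebraMap K L e2)
    (algebraMap K L e3) (algebraMap K L e4) (algebraMap K L (phi1 D D')) c j

/-- The characteristic polynomial for a root `c` in the field, all dimensions but `3`. -/
theorem spec_root' [Module.Finite K V] (h2 : d = 2 → e3 ≠ 0)
    (D : TriData A B d) (D' : TriData B A d) (h : Third A B C e0 e1 e2 e3 e4) (c : K)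
    (hc : quadC d (qOf e3 e4)⁻¹ D.θ D'.θ e1 e2 e3 e4
      ((D'.a 0 - D.θ 0) * (D'.θ 0 - D'.θ 1)) c = 0) :
    C.charpoly = ∏ j ∈ Finset.range (d + 1), (X - Polynomial.C
      (eig d (qOf e3 e4)⁻¹ (qOf e3 e4) D.θ D'.θ e0 e1 e2 e3 e4
        ((D'.a 0 - D.θ 0) * (D'.θ 0 - D'.θ 1)) c j)) := by
  have hV : finrank K V = d + 1 := by
    rw [Module.finrank_eq_card_basis D.b, Fintype.card_fin]
  rcases Nat.lt_or_ge d 2 with h3 | h3
  · rcases Nat.lt_or_ge d 1 with h1 | h1
    · obtain rfl : d = 0 := by omega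
      exact (spec_zero D D' h _ _ c).1
    · obtain rfl : d = 1 := by omega
      exact spec_one D D' h _ _ c hc
  · exact spec_root h3 h2 hV D D' h c hc

theorem spec_L (L : Type*) [Field L] [Algebra K L] [Module.Finite K V] (h2 : d = 2 → e3 ≠ 0)
    (D : TriData A B d) (D' : TriData B A d)
    (h : Third A B C e0 e1 e2 e3 e4) (c : L) (hc : IsRootC L D D' e1 e2 e3 e4 c) :
    C.charpoly.map (algebraMap K L) = ∏ j ∈ Finset.range (d + 1),
      (X - Polynomial.C (eigC L D D' e0 e1 e2 e3 e4 c j)) := by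
  obtain ⟨D2, hθ, ha⟩ := D.exists_baseChange L
  obtain ⟨D2', hθ', ha'⟩ := D'.exists_baseChange L
  have hφ : (D2'.a 0 - D2.θ 0) * (D2'.θ 0 - D2'.θ 1) = algebraMap K L (phi1 D D') := by
    rw [ha', hθ, hθ', phi1]
    simp only [map_mul, map_sub]
  have hp : (qOf (algebraMap K L e3) (algebraMap K L e4))⁻¹
      = algebraMap K L (qOf e3 e4)⁻¹ := by
    rw [qOf_map, map_inv₀]
  have key := spec_root' (fun hd => (map_ne_zero (algebraMap K L)).2 (h2 hd)) D2 D2' (h.baseChange L) c (by
    rw [hφ, hθ, hθ', hp]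
    exact hc)
  rw [← LinearMap.charpoly_baseChange C L, key, hφ, hθ, hθ', hp, qOf_map]
  rfl

theorem cY_zero (p : K) (θ : ℕ → K) (c : K) : cY 0 p θ c = 0 := by
  rw [cY, br_zero]; ring

theorem rootC_zero (L : Type*) [Field L] [Algebra K L] [Module.Finite K V]
    (D : TriData A B 0) (D' : TriData B A 0) (h : Third A B C e0 e1 e2 e3 e4) (c : L) :
    IsRootC L D D' e1 e2 e3 e4 c := by
  have ha := (spec_zero D D' h 0 0 0).2
  rw [IsRootC, phi1, ha, quadC, cY_zero]
  simp

theorem exists_rootC (L : Type*) [Field L] [Algebra K L] [IsAlgClosed L] [Module.Finite K V]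
    (h2 : d = 2 → e3 ≠ 0) (D : TriData A B d) (D' : TriData B A d)
    (h : Third A B C e0 e1 e2 e3 e4) :
    ∃ c : L, IsRootC L D D' e1 e2 e3 e4 c := by
  rcases Nat.lt_or_ge d 2 with h3 | h3
  · rcases Nat.lt_or_ge d 1 with h1 | h1
    · obtain rfl : d = 0 := by omega
      exact ⟨0, rootC_zero L D D' h 0⟩
    · obtain rfl : d = 1 := by omega
      have hE : e1 + e3 * D'.θ 0 + e4 * D'.θ 1 ≠ 0 := (third_ne D' h.symm).2 0 (by omega)
        |> fun h => by
          intro h0
          apply h
          linear_combination h0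
      have hEL : algebraMap K L (e1 + e3 * D'.θ 0 + e4 * D'.θ 1) ≠ 0 :=
        (map_ne_zero (algebraMap K L)).2 hE
      have hdeg : (Polynomial.C (-algebraMap K L (e1 + e3 * D'.θ 0 + e4 * D'.θ 1))
          * Polynomial.X ^ 2
          + Polynomial.C (algebraMap K L ((e1 + e3 * D'.θ 0 + e4 * D'.θ 1) * (D.θ 1 - D.θ 0)
            - (e2 + e3 * D.θ 0 + e4 * D.θ 1) * (D'.θ 1 - D'.θ 0)
            - (e3 - e4) * ((D'.θ 1 - D'.θ 0) * (D.θ 1 - D.θ 0) + phi1 D D')))
            * Polynomial.X
          + Polynomial.C (algebraMap K L ((e2 + e3 * D.θ 0 + e4 * D.θ 1)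
            * ((D'.θ 1 - D'.θ 0) * (D.θ 1 - D.θ 0) + phi1 D D')
            + (e3 - e4) * ((D'.θ 1 - D'.θ 0) * (D.θ 1 - D.θ 0) + phi1 D D')
              * (D.θ 1 - D.θ 0)))).degree ≠ 0 := by
        rw [Polynomial.degree_quadratic (neg_ne_zero.2 hEL)]
        decide
      obtain ⟨c, hc⟩ := IsAlgClosed.exists_root _ hdeg
      refine ⟨c, ?_⟩
      rw [Polynomial.IsRoot.def] at hc
      simp only [Polynomial.eval_add, Polynomial.eval_mul, Polynomial.eval_C,
        Polynomial.eval_pow, Polynomial.eval_X] at hc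
      simp only [map_add, map_sub, map_mul] at hc
      rw [IsRootC, quadC, cE, cG, cY, br_one]
      linear_combination hc
  · obtain ⟨D2, hθ, ha⟩ := D.exists_baseChange L
    obtain ⟨D2', hθ', ha'⟩ := D'.exists_baseChange L
    have hp : (qOf (algebraMap K L e3) (algebraMap K L e4))⁻¹
        = algebraMap K L (qOf e3 e4)⁻¹ := by
      rw [qOf_map, map_inv₀]
    obtain ⟨g, -⟩ := exists_good' h3 D2 D2' (h.baseChange L)
      (fun hd => (map_ne_zero (algebraMap K L)).2 (h2 hd))
    obtain ⟨c, hc⟩ := g.hsd.exists_root (by omega) (algebraMap K L (phi1 D D'))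
    refine ⟨c, ?_⟩
    rw [← g.quad_eq, g.p_eq, hp, hθ, hθ'] at hc
    exact hc

/-- Rationality of a root whose first eigenvalue is rational. -/
theorem rootC_mem (L : Type*) [Field L] [Algebra K L] (h2 : d = 2 → e3 ≠ 0) (hd0 : d ≠ 0)
    (D : TriData A B d) (D' : TriData B A d) (h : Third A B C e0 e1 e2 e3 e4)
    (c : L) (hc : IsRootC L D D' e1 e2 e3 e4 c) {n : K}
    (hn : eigC L D D' e0 e1 e2 e3 e4 c 0 = algebraMap K L n) :
    ∃ c' : K, algebraMap K L c' = c := by
  have hE : cE D'.θ e1 e3 e4 ≠ 0 := by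
    have := (third_ne D' h.symm).2 0 (by omega)
    rw [cE]
    intro h0
    apply this
    linear_combination h0
  have hEL : algebraMap K L (cE D'.θ e1 e3 e4) ≠ 0 := (map_ne_zero (algebraMap K L)).2 hE
  have h1 : cE (fun i => algebraMap K L (D'.θ i)) (algebraMap K L e1) (algebraMap K L e3)
      (algebraMap K L e4) = algebraMap K L (cE D'.θ e1 e3 e4) := by
    simp only [cE, map_add, map_mul]
  have hm : c * algebraMap K L (br (qOf e3 e4)⁻¹ d) = algebraMap K L (D.θ d - D.θ 0
      - (n - (e0 + e1 * D.θ 0 + e2 * D'.θ 0 + (e3 + e4) * D.θ 0 * D'.θ 0 + e4 * phi1 D D'))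
        / cE D'.θ e1 e3 e4) := by
    rw [eigC, eig, br_zero, ss_zero, cY, br_map, h1] at hn
    apply mul_left_cancel₀ hEL
    rw [map_sub, map_sub, map_div₀, mul_sub, mul_div_cancel₀ _ hEL]
    simp only [map_sub, map_add, map_mul] at hn ⊢
    linear_combination -hn
  rcases Nat.lt_or_ge d 2 with h3 | h3
  · obtain rfl : d = 1 := by omega
    rw [br_one, map_one, mul_one] at hm
    exact ⟨_, hm.symm⟩
  · obtain ⟨g, -⟩ := exists_good' h3 D D' h h2
    refine g.hsd.root_mem (by omega) (phi1 D D') c ?_ (by rw [g.p_eq]; exact hm)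
    have h4 : e3 * (1 + g.q) = e3 - e4 := by linear_combination g.he4
    rw [h4]
    rw [IsRootC, quadC, cE, cG, cY, br_map, ← g.p_eq] at hc
    rw [quad]
    simp only [map_sub, map_add, map_mul] at hc ⊢
    exact hc

theorem charpoly_diag [Module.Finite K V] (w : Basis (Fin (d + 1)) K V)
    (ν : Fin (d + 1) → K) (hw : ∀ i, C (w i) = ν i • w i) :
    C.charpoly = ∏ i, (X - Polynomial.C (ν i)) := by
  rw [← LinearMap.charpoly_toMatrix C w, ← Matrix.charpoly_diagonal]
  congr 1
  ext i j
  rw [LinearMap.toMatrix_apply, hw, map_smul, Finsupp.smul_apply, w.repr_self,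
    Finsupp.single_apply, smul_eq_mul, Matrix.diagonal_apply]
  by_cases hij : j = i
  · rw [if_pos hij, if_pos hij.symm, hij, mul_one]
  · rw [if_neg hij, if_neg (Ne.symm hij), mul_zero]

/-- Diagonalizability. -/
theorem diag_iff [Module.Finite K V] (h2 : d = 2 → e3 ≠ 0)
    (D : TriData A B d) (D' : TriData B A d) (h : Third A B C e0 e1 e2 e3 e4) :
    Diagonalizable C ↔ ∃ c : K, IsRootC K D D' e1 e2 e3 e4 c ∧
      ∀ i j, i ≤ d → j ≤ d → eigC K D D' e0 e1 e2 e3 e4 c i
        = eigC K D D' e0 e1 e2 e3 e4 c j → i = j := by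
  have hV : finrank K V = d + 1 := by
    rw [Module.finrank_eq_card_basis D.b, Fintype.card_fin]
  constructor
  · intro hC
    by_cases hd0 : d = 0
    · subst hd0
      exact ⟨0, rootC_zero K D D' h 0, fun i j hi hj _ => by omega⟩
    obtain ⟨hG, hF⟩ := third_ne D h
    obtain ⟨D2, -, -⟩ := triData_third D h.hC hG hF
    obtain ⟨w, ν, hν, hw⟩ := D2.eigenbasis hC
    have h1 := charpoly_diag w ν hw
    obtain ⟨c, hc⟩ := exists_rootC (AlgebraicClosure K) h2 D D' h
    have h2s := spec_L (AlgebraicClosure K) h2 D D' h c hc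
    have h3 : (Multiset.map (fun i => algebraMap K (AlgebraicClosure K) (ν i))
        (Finset.univ : Finset (Fin (d + 1))).val)
        = Multiset.map (eigC (AlgebraicClosure K) D D' e0 e1 e2 e3 e4 c)
          (Finset.range (d + 1)).val := by
      rw [← roots_prod, ← h2s, h1, Polynomial.map_prod]
      have h4 : (∏ i : Fin (d + 1), Polynomial.map (algebraMap K (AlgebraicClosure K))
          (X - Polynomial.C (ν i)))
          = (Multiset.map (fun a => X - Polynomial.C a) (Multiset.map
              (fun i => algebraMap K (AlgebraicClosure K) (ν i))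
              (Finset.univ : Finset (Fin (d + 1))).val)).prod := by
        rw [Multiset.map_map]
        simp only [Polynomial.map_sub, Polynomial.map_X, Polynomial.map_C]
        rfl
      rw [h4, Polynomial.roots_multiset_prod_X_sub_C]
    have h5 : (Multiset.map (eigC (AlgebraicClosure K) D D' e0 e1 e2 e3 e4 c)
          (Finset.range (d + 1)).val).Nodup := by
      rw [← h3]
      exact Multiset.Nodup.map ((algebraMap K (AlgebraicClosure K)).injective.comp hν)
        Finset.univ.nodup
    have h6 : ∀ i j, i ≤ d → j ≤ d → eigC (AlgebraicClosure K) D D' e0 e1 e2 e3 e4 c i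
        = eigC (AlgebraicClosure K) D D' e0 e1 e2 e3 e4 c j → i = j := by
      intro i j hi hj hij
      exact Multiset.inj_on_of_nodup_map h5 i (Finset.mem_range.2 (by omega)) j
        (Finset.mem_range.2 (by omega)) hij
    have h7 : eigC (AlgebraicClosure K) D D' e0 e1 e2 e3 e4 c 0
        ∈ (Multiset.map (fun i => algebraMap K (AlgebraicClosure K) (ν i))
        (Finset.univ : Finset (Fin (d + 1))).val) := by
      rw [h3]
      exact Multiset.mem_map_of_mem _ (Finset.mem_range.2 (by omega))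
    obtain ⟨i, -, hi⟩ := Multiset.mem_map.1 h7
    obtain ⟨c', rfl⟩ := rootC_mem (AlgebraicClosure K) h2 hd0 D D' h c hc hi.symm
    refine ⟨c', ?_, fun i j hi hj hij => h6 i j hi hj ?_⟩
    · rw [IsRootC, quadC_map, map_eq_zero] at hc
      exact hc
    · rw [eigC, eigC, eig_map, eig_map]
      exact congrArg _ hij
  · rintro ⟨c, hc, hinj⟩
    obtain ⟨w, hw⟩ := eigenbasis_of_charpoly hV _ hinj (spec_root' h2 D D' h c hc)
    refine ⟨d + 1, w, ?_⟩
    intro i j hij
    rw [LinearMap.toMatrix_apply, hw, map_smul, Finsupp.smul_apply, w.repr_self,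
      Finsupp.single_eq_of_ne (by exact fun h => hij h), smul_zero]

/-- Diagonalizable third elements give Leonard triples. -/
theorem triple_of_diag [Module.Finite K V] (h2 : d = 2 → e3 ≠ 0)
    (D : TriData A B d) (D' : TriData B A d) (h : Third A B C e0 e1 e2 e3 e4)
    (hC : Diagonalizable C) : LeonardTriple A B C := by
  have hV : finrank K V = d + 1 := by
    rw [Module.finrank_eq_card_basis D.b, Fintype.card_fin]
  rcases Nat.lt_or_ge d 2 with hd3 | hd3
  · obtain ⟨hG, hF⟩ := third_ne D h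
    obtain ⟨D2, -, -⟩ := triData_third D h.hC hG hF
    obtain ⟨w, ν, hν, hw⟩ := D2.eigenbasis hC
    refine triple_of_hess D D' h w ν hw (fun i j hij => ?_)
    have := i.2
    omega
  · obtain ⟨c, hc, hinj⟩ := (diag_iff h2 D D' h).1 hC
    exact triple_root hd3 h2 hV D D' h c hc hinj

end

theorem TriData.finrank_eq {A B : V →ₗ[K] V} {d : ℕ} (D : TriData A B d) :
    finrank K V = d + 1 := by
  rw [Module.finrank_eq_card_basis D.b, Fintype.card_fin]

/-- A Leonard pair on a nonzero space gives tridiagonal data in both orders. -/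
theorem LeonardPair.triData {A B : V →ₗ[K] V} (h : LeonardPair A B) {d : ℕ}
    (hV : finrank K V = d + 1) : Nonempty (TriData A B d) ∧ Nonempty (TriData B A d) := by
  have key : ∀ S T : V →ₗ[K] V, (∃ (n : ℕ) (b : Basis (Fin n) K V),
      (LinearMap.toMatrix b b S).IsDiag ∧ IrredTridiagonal (LinearMap.toMatrix b b T)) →
      Nonempty (TriData S T d) := by
    rintro S T ⟨n, b, h1, h2⟩
    have hn : n = d + 1 := by
      have := Module.finrank_eq_card_basis b
      rw [hV, Fintype.card_fin] at this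
      exact this.symm
    subst hn
    obtain ⟨D, -⟩ := triData_of (A := S) (B := T) b
      (fun i => if h : i < d + 1 then LinearMap.toMatrix b b S ⟨i, h⟩ ⟨i, h⟩ else 0) (by
        intro i
        rw [dif_pos i.2]
        apply b.ext_elem
        intro k
        rw [← LinearMap.toMatrix_apply, map_smul, Finsupp.smul_apply, b.repr_self,
          Finsupp.single_apply, smul_eq_mul]
        by_cases hki : i = k
        · rw [if_pos hki, mul_one, hki]
        · rw [if_neg hki, mul_zero]
          exact h1 (Ne.symm hki)) h2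
    exact ⟨D⟩
  exact ⟨key A B h.1, key B A h.2⟩

theorem LeonardTriple.diag {A B C : V →ₗ[K] V} (h : LeonardTriple A B C) :
    Diagonalizable C := by
  obtain ⟨-, -, n, b, hb, -⟩ := h
  exact ⟨n, b, hb⟩

/-- The equivalence of Q2 in all dimensions but `3`. -/
theorem diag_iff_triple [Module.Finite K V] (hV : finrank K V ≠ 3) {A B C : V →ₗ[K] V}
    (hL : LeonardPair A B) (hT : ThirdElement A B C) :
    Diagonalizable C ↔ LeonardTriple A B C := by
  refine ⟨fun hC => ?_, LeonardTriple.diag⟩
  rcases Nat.eq_zero_or_pos (finrank K V) with h0 | h0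
  · obtain ⟨⟨n, b, h1, h2⟩, -⟩ := hL
    have hn : n = 0 := by
      have := Module.finrank_eq_card_basis b
      rw [h0, Fintype.card_fin] at this
      exact this.symm
    subst hn
    refine ⟨⟨0, b, ?_, ?_, ?_⟩, ⟨0, b, ?_, ?_, ?_⟩, ⟨0, b, ?_, ?_, ?_⟩⟩ <;>
      first
        | exact fun i => i.elim0
        | exact ⟨fun i => i.elim0, fun i => i.elim0⟩
  · obtain ⟨d, hd⟩ : ∃ d, finrank K V = d + 1 := ⟨finrank K V - 1, by omega⟩
    obtain ⟨⟨D⟩, ⟨D'⟩⟩ := hL.triData hd
    obtain ⟨e0, e1, e2, e3, e4, he⟩ := hT.exists_coeff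
    exact triple_of_diag (fun h => by omega) D D' (hT.third he) hC

end Pool.Agent.AW3
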