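import Pool.Agent.helper39.AW3.Tri

/-!
# Existence of the split form

Proof of `exists_split`.  Write `v i = D.v i`, `w i = E.v i`.  Put `u 0 = w 0` and
`u (i + 1) = A (u i) - θ i • u i`, so `u i = τ_i(A) (w 0)`, `τ_i = ∏_{j < i} (X - θ j)`.
(1) `u (d + 1) = 0` because `τ_{d+1}(A) = 0` (A is diagonal in `v` with eigenvalues `θ`).
(2) As `A` is irreducible tridiagonal in `w`, for `i ≤ d` one has
`u i = (nonzero) w i + combination of w 0, …, w (i - 1)`.  So `u 0, …, u d` is a basis and
`span (u 0, …, u i) = span (w 0, …, w i)` for all `i ≤ d`.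
(3) `v`-coordinates: `c_k (u i) = τ_i(θ k) c_k (w 0)`; it is `0` for `k < i` and it is nonzero for
`k ≥ i`, because `c_k (w 0) ≠ 0` for all `k ≤ d`: otherwise `∏_{j ≠ k} (A - θ j)` (degree `d`)
would kill `w 0`, against `TriData.cyclic`.
(4) `B (u i) - θs i • u i` lies in `span (w 0, …, w (i - 1)) = span (u 0, …, u (i - 1))`
(`B` is diagonal in `w`), and its `v`-coordinates `c_k` vanish for `k < i - 1` (`u i` lies in
`span (v i, …, v d)` and `B` is tridiagonal in `v`).  By (3) (look at the smallest `k` with
nonzero coefficient) it is a multiple `φ i • u (i - 1)`.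
(5) `φ i ≠ 0` for `1 ≤ i ≤ d`: the coordinate `c_{i-1}` of `B (u i) - θs i • u i` is
`y`-coefficient times `c_i (u i)`: more precisely it is `x i * c_i (u i) ≠ 0`, where `x i = D.x i`
is the coefficient of `v (i - 1)` in `B (v i)` (the other contributions vanish, as
`c_{i-1} (u i) = 0`).
-/

namespace Pool.Agent.AW3

open Module

variable {K V : Type*} [Field K] [AddCommGroup V] [Module K V]

open Classical in
/-- the coordinate functionals -/
noncomputable def Split_c {A B : V →ₗ[K] V} {d : ℕ} (D : TriData A B d) (k : ℕ) : V →ₗ[K] K :=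
  if h : k < d + 1 then D.b.coord ⟨k, h⟩ else 0

theorem Split_c_v {A B : V →ₗ[K] V} {d : ℕ} (D : TriData A B d) (k i : ℕ) :
    Split_c D k (D.v i) = if k = i ∧ i ≤ d then 1 else 0 := by
  by_cases hi : i ≤ d
  · have h1 : D.v i = D.b ⟨i, by omega⟩ := (D.hb ⟨i, by omega⟩).symm
    rw [h1]
    by_cases hk : k < d + 1
    · rw [Split_c, dif_pos hk, Module.Basis.coord_apply, Module.Basis.repr_self,
        Finsupp.single_apply]
      by_cases hki : k = i
      · subst hki; simp [hi]
      · rw [if_neg, if_neg]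
        · exact fun h => hki h.1
        · intro h
          rw [Fin.mk.injEq] at h
          exact hki h.symm
    · rw [Split_c, dif_neg hk, if_neg (by omega), LinearMap.zero_apply]
  · rw [D.hv i (by omega), map_zero, if_neg (by omega)]

theorem Split_ext {A B : V →ₗ[K] V} {d : ℕ} (D : TriData A B d) (z : V)
    (h : ∀ k, k ≤ d → Split_c D k z = 0) : z = 0 := by
  apply D.b.ext_elem
  intro i
  have := h i (by omega)
  rw [Split_c, dif_pos i.2, Module.Basis.coord_apply] at this
  rw [map_zero, Finsupp.zero_apply]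
  exact this

theorem Split_c_A {A B : V →ₗ[K] V} {d : ℕ} (D : TriData A B d) (k : ℕ) (z : V) :
    Split_c D k (A z) = D.θ k * Split_c D k z := by
  have h : (Split_c D k).comp A = D.θ k • Split_c D k := by
    refine D.b.ext fun i => ?_
    rw [LinearMap.comp_apply, LinearMap.smul_apply, D.hb, D.hA, map_smul, Split_c_v, smul_eq_mul,
      smul_eq_mul]
    by_cases hki : k = i ∧ (i : ℕ) ≤ d
    · rw [hki.1]
    · rw [if_neg hki, mul_zero, mul_zero]
  exact LinearMap.congr_fun h z

theorem Split_c_B {A B : V →ₗ[K] V} {d : ℕ} (D : TriData A B d) (k : ℕ) (hk : k ≤ d) (z : V) :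
    Split_c D k (B z) = D.x (k + 1) * Split_c D (k + 1) z + D.a k * Split_c D k z +
      (if k = 0 then 0 else D.y (k - 1) * Split_c D (k - 1) z) := by
  have h : (Split_c D k).comp B = D.x (k + 1) • Split_c D (k + 1) + D.a k • Split_c D k +
      (if k = 0 then 0 else D.y (k - 1) • Split_c D (k - 1)) := by
    refine D.b.ext fun i => ?_
    have hi : (i : ℕ) ≤ d := by omega
    rw [LinearMap.comp_apply, D.hb, D.hB _ hi, map_add, map_add, map_smul, map_smul, map_smul,
      Split_c_v, Split_c_v, Split_c_v, LinearMap.add_apply, LinearMap.add_apply,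
      LinearMap.smul_apply, LinearMap.smul_apply, Split_c_v, Split_c_v]
    simp only [smul_eq_mul]
    congr 1
    · congr 1
      · rcases Nat.eq_zero_or_pos (i : ℕ) with h0 | h0
        · rw [h0, D.hx0, zero_mul, if_neg (by omega), mul_zero]
        · by_cases hki : k + 1 = i
          · rw [if_pos (by omega), if_pos (by omega), hki]
          · rw [if_neg (by omega), if_neg (by omega), mul_zero, mul_zero]
      · by_cases hki : k = i
        · rw [if_pos (by omega), hki]
        · rw [if_neg (by omega), mul_zero, mul_zero]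
    · rcases Nat.eq_zero_or_pos k with h0 | h0
      · rw [if_pos h0, if_neg (by omega), mul_zero, LinearMap.zero_apply]
      · rw [if_neg (show ¬ k = 0 by omega), LinearMap.smul_apply, Split_c_v, smul_eq_mul]
        by_cases hki : k - 1 = i
        · rw [if_pos (by omega), if_pos (by omega), hki]
        · rw [if_neg (by omega), if_neg (by omega), mul_zero, mul_zero]
  have h2 := LinearMap.congr_fun h z
  rw [LinearMap.comp_apply, LinearMap.add_apply, LinearMap.add_apply, LinearMap.smul_apply,
    LinearMap.smul_apply, smul_eq_mul, smul_eq_mul] at h2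
  rw [h2]
  congr 1
  split_ifs
  · rfl
  · rfl

theorem Split_c_aeval {A B : V →ₗ[K] V} {d : ℕ} (D : TriData A B d) (k : ℕ)
    (P : Polynomial K) (z : V) :
    Split_c D k (Polynomial.aeval A P z) = P.eval (D.θ k) * Split_c D k z := by
  induction P using Polynomial.induction_on' with
  | add p q hp hq => rw [map_add, LinearMap.add_apply, map_add, hp, hq, Polynomial.eval_add, add_mul]
  | monomial n c =>
    rw [Polynomial.aeval_monomial, Polynomial.eval_monomial, Module.End.mul_apply,
      Module.algebraMap_end_apply, map_smul, smul_eq_mul, mul_assoc]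
    congr 1
    induction n with
    | zero => simp
    | succ n ih =>
      rw [pow_succ', Module.End.mul_apply, Split_c_A, ih, pow_succ]
      ring

theorem Split_li (f : ℕ → (V →ₗ[K] K)) (u : ℕ → V) (d : ℕ)
    (h0 : ∀ i j, i < j → j ≤ d → f i (u j) = 0) (h1 : ∀ i, i ≤ d → f i (u i) ≠ 0) :
    LinearIndependent K (fun i : Fin (d + 1) => u i) := by
  rw [Fintype.linearIndependent_iff]
  intro g hg
  have key : ∀ n : ℕ, ∀ hn : n < d + 1, g ⟨n, hn⟩ = 0 := by
    intro n
    induction n using Nat.strong_induction_on with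
    | _ n ih =>
      intro hn
      have h2 := congrArg (f n) hg
      rw [map_sum, map_zero, Finset.sum_eq_single (⟨n, hn⟩ : Fin (d + 1))] at h2
      · rw [map_smul, smul_eq_mul] at h2
        exact (mul_eq_zero.1 h2).resolve_right (h1 n (by omega))
      · intro j _ hj
        rw [map_smul, smul_eq_mul]
        rcases lt_trichotomy (j : ℕ) n with h3 | h3 | h3
        · rw [show g j = 0 from ih j h3 j.2, zero_mul]
        · exact absurd (Fin.ext h3) hj
        · rw [h0 n j h3 (by omega), mul_zero]
      · intro h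
        exact absurd (Finset.mem_univ _) h
  exact fun i => key i i.2

/-- the vectors `u i` -/
noncomputable def Split_u {A B : V →ₗ[K] V} {d : ℕ} (D : TriData A B d) (w : V) : ℕ → V
  | 0 => w
  | i + 1 => A (Split_u D w i) - D.θ i • Split_u D w i

theorem Split_u_v {A B : V →ₗ[K] V} {d : ℕ} (D : TriData A B d) (w : V) (i k : ℕ) :
    Split_c D k (Split_u D w i) = (∏ j ∈ Finset.range i, (D.θ k - D.θ j)) * Split_c D k w := by
  induction i with
  | zero => simp [Split_u]
  | succ i ih =>
    rw [Split_u, map_sub, map_smul, Split_c_A, ih, Finset.prod_range_succ, smul_eq_mul]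
    ring

theorem Split_w0 {A B : V →ₗ[K] V} {d : ℕ} (D : TriData A B d) (E : TriData B A d)
    (k : ℕ) (hk : k ≤ d) : Split_c D k (E.v 0) ≠ 0 := by
  intro h0
  refine E.cyclic (∏ j ∈ (Finset.range (d + 1)).erase k, (Polynomial.X - Polynomial.C (D.θ j)))
    ?_ ?_ ?_
  · exact Finset.prod_ne_zero_iff.2 fun j _ => Polynomial.X_sub_C_ne_zero _
  · rw [Polynomial.natDegree_prod_of_monic _ _ fun j _ => Polynomial.monic_X_sub_C _]
    simp only [Polynomial.natDegree_X_sub_C, Finset.sum_const, smul_eq_mul, mul_one]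
    rw [Finset.card_erase_of_mem (Finset.mem_range.2 (by omega)), Finset.card_range]
    omega
  · refine Split_ext D _ fun l hl => ?_
    rw [Split_c_aeval]
    by_cases hlk : l = k
    · rw [hlk, h0, mul_zero]
    · rw [Polynomial.eval_prod, Finset.prod_eq_zero (i := l), zero_mul]
      · rw [Finset.mem_erase, Finset.mem_range]
        exact ⟨hlk, by omega⟩
      · simp

theorem Split_u_w {A B : V →ₗ[K] V} {d : ℕ} (D : TriData A B d) (E : TriData B A d) (i : ℕ) :
    (∀ j, i < j → Split_c E j (Split_u D (E.v 0) i) = 0) ∧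
      (i ≤ d → Split_c E i (Split_u D (E.v 0) i) ≠ 0) := by
  induction i with
  | zero =>
    constructor
    · intro j hj
      rw [Split_u, Split_c_v, if_neg (by omega)]
    · intro _
      rw [Split_u, Split_c_v, if_pos ⟨rfl, Nat.zero_le _⟩]
      exact one_ne_zero
  | succ i ih =>
    constructor
    · intro j hj
      by_cases hjd : j ≤ d
      · rw [Split_u, map_sub, map_smul, Split_c_B E j hjd, ih.1 _ (by omega), ih.1 _ (by omega),
          if_neg (by omega), ih.1 _ (by omega)]
        simp
      · rw [Split_c, dif_neg (by omega), LinearMap.zero_apply]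
    · intro hid
      rw [Split_u, map_sub, map_smul, Split_c_B E _ hid, ih.1 _ (by omega), ih.1 _ (by omega),
        if_neg (by omega), Nat.add_sub_cancel]
      simp only [mul_zero, zero_add, smul_zero, sub_zero]
      exact mul_ne_zero (E.hy i (by omega)) (ih.2 (by omega))

theorem Split_u_vne {A B : V →ₗ[K] V} {d : ℕ} (D : TriData A B d) (E : TriData B A d)
    (hθ : ∀ i j, i ≤ d → j ≤ d → D.θ i = D.θ j → i = j) (i : ℕ) (hi : i ≤ d) :
    Split_c D i (Split_u D (E.v 0) i) ≠ 0 := by
  rw [Split_u_v]
  refine mul_ne_zero (Finset.prod_ne_zero_iff.2 fun j hj => ?_) (Split_w0 D E i hi)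
  rw [Finset.mem_range] at hj
  intro h
  have := hθ i j hi (by omega) (sub_eq_zero.1 h)
  omega

theorem Split_u_vz {A B : V →ₗ[K] V} {d : ℕ} (D : TriData A B d) (w : V) (i k : ℕ)
    (hk : k < i) : Split_c D k (Split_u D w i) = 0 := by
  rw [Split_u_v, Finset.prod_eq_zero (Finset.mem_range.2 hk) (sub_self _), zero_mul]

theorem Split_zero {A B : V →ₗ[K] V} {d : ℕ} (D : TriData A B d) (E : TriData B A d)
    (hθ : ∀ i j, i ≤ d → j ≤ d → D.θ i = D.θ j → i = j) (i : ℕ) : i ≤ d + 1 → ∀ z : V,
    (∀ j, i ≤ j → Split_c E j z = 0) → (∀ k, k < i → Split_c D k z = 0) → z = 0 := by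
  induction i with
  | zero =>
    intro _ z h _
    exact Split_ext E z fun k _ => h k (Nat.zero_le _)
  | succ i ih =>
    intro hi z h1 h2
    have hne := (Split_u_w D E i).2 (by omega)
    have h3 : z - (Split_c E i z / Split_c E i (Split_u D (E.v 0) i)) • Split_u D (E.v 0) i = 0 := by
      refine ih (by omega) _ (fun j hj => ?_) (fun k hk => ?_)
      · rw [map_sub, map_smul, smul_eq_mul]
        rcases Nat.eq_or_lt_of_le hj with h | h
        · rw [← h, div_mul_cancel₀ _ hne, sub_self]
        · rw [h1 j h, (Split_u_w D E i).1 j h, mul_zero, sub_zero]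
      · rw [map_sub, map_smul, h2 k (by omega), Split_u_vz D _ i k hk, smul_zero, sub_zero]
    have h4 := h2 i (Nat.lt_succ_self _)
    rw [sub_eq_zero] at h3
    rw [h3, map_smul, smul_eq_mul] at h4
    rcases mul_eq_zero.1 h4 with h5 | h5
    · rw [h3, h5, zero_smul]
    · exact absurd h5 (Split_u_vne D E hθ i (by omega))

theorem Split_top {A B : V →ₗ[K] V} {d : ℕ} (D : TriData A B d) (w : V) (i : ℕ) (hi : d < i) :
    Split_u D w i = 0 :=
  Split_ext D _ fun k hk => Split_u_vz D w i k (by omega)

/-- the vector `B (u i) - θs i • u i` -/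
noncomputable def Split_z {A B : V →ₗ[K] V} {d : ℕ} (D : TriData A B d) (E : TriData B A d)
    (i : ℕ) : V :=
  B (Split_u D (E.v 0) i) - E.θ i • Split_u D (E.v 0) i

theorem Split_z_w {A B : V →ₗ[K] V} {d : ℕ} (D : TriData A B d) (E : TriData B A d) (i j : ℕ)
    (hj : i ≤ j) : Split_c E j (Split_z D E i) = 0 := by
  rw [Split_z, map_sub, map_smul, Split_c_A, smul_eq_mul]
  rcases Nat.eq_or_lt_of_le hj with h | h
  · rw [h, sub_self]
  · rw [(Split_u_w D E i).1 j h, mul_zero, mul_zero, sub_zero]

theorem Split_z_v {A B : V →ₗ[K] V} {d : ℕ} (D : TriData A B d) (E : TriData B A d) (i k : ℕ)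
    (hk : k ≤ d) (hki : k + 1 < i) : Split_c D k (Split_z D E i) = 0 := by
  rw [Split_z, map_sub, map_smul, Split_c_B D k hk, Split_u_vz D _ i _ hki,
    Split_u_vz D _ i k (by omega), Split_u_vz D _ i (k - 1) (by omega)]
  simp

theorem Split_z_v1 {A B : V →ₗ[K] V} {d : ℕ} (D : TriData A B d) (E : TriData B A d) (i : ℕ)
    (hi : i < d) : Split_c D i (Split_z D E (i + 1)) =
      D.x (i + 1) * Split_c D (i + 1) (Split_u D (E.v 0) (i + 1)) := by
  rw [Split_z, map_sub, map_smul, Split_c_B D i (by omega),
    Split_u_vz D _ (i + 1) i (by omega), Split_u_vz D _ (i + 1) (i - 1) (by omega)]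
  simp

open Classical in
/-- the split sequence -/
noncomputable def Split_phi {A B : V →ₗ[K] V} {d : ℕ} (D : TriData A B d) (E : TriData B A d)
    (i : ℕ) : K :=
  if i = 0 ∨ d < i then 0 else
    Split_c D (i - 1) (Split_z D E i) / Split_c D (i - 1) (Split_u D (E.v 0) (i - 1))

theorem Split_z_eq {A B : V →ₗ[K] V} {d : ℕ} (D : TriData A B d) (E : TriData B A d)
    (hθ : ∀ i j, i ≤ d → j ≤ d → D.θ i = D.θ j → i = j) (i : ℕ) (hi : i ≤ d) :
    Split_z D E i = Split_phi D E i • Split_u D (E.v 0) (i - 1) := by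
  rcases Nat.eq_zero_or_pos i with h0 | h0
  · rw [Split_phi, if_pos (Or.inl h0), zero_smul]
    exact Split_ext E _ fun k _ => Split_z_w D E i k (by omega)
  · rw [← sub_eq_zero]
    refine Split_zero D E hθ i (by omega) _ (fun j hj => ?_) (fun k hk => ?_)
    · rw [map_sub, map_smul, Split_z_w D E i j hj, (Split_u_w D E (i - 1)).1 j (by omega),
        smul_zero, sub_zero]
    · rw [map_sub, map_smul, smul_eq_mul]
      by_cases hk1 : k = i - 1
      · rw [hk1, Split_phi, if_neg (by omega),
          div_mul_cancel₀ _ (Split_u_vne D E hθ (i - 1) (by omega)), sub_self]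
      · rw [Split_z_v D E i k (by omega) (by omega), Split_u_vz D _ (i - 1) k (by omega), mul_zero,
          sub_zero]

theorem exists_split {A B : V →ₗ[K] V} {d : ℕ} (D : TriData A B d) (E : TriData B A d)
    (hθ : ∀ i j, i ≤ d → j ≤ d → D.θ i = D.θ j → i = j)
    (hθs : ∀ i j, i ≤ d → j ≤ d → E.θ i = E.θ j → i = j) :
    ∃ S : SplitData A B d D.θ E.θ, S.u 0 = E.v 0 := by
  have hli : LinearIndependent K (fun i : Fin (d + 1) => Split_u D (E.v 0) i) :=
    Split_li (fun k => Split_c D k) _ d (fun i j hij _ => Split_u_vz D _ j i hij)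
      (fun i hi => Split_u_vne D E hθ i hi)
  have hcard : Fintype.card (Fin (d + 1)) = finrank K V := by
    rw [Module.finrank_eq_card_basis D.b]
  refine ⟨{ u := Split_u D (E.v 0)
            φ := Split_phi D E
            b := basisOfLinearIndependentOfCardEqFinrank hli hcard
            hb := fun i => by rw [coe_basisOfLinearIndependentOfCardEqFinrank]
            hu := fun i hi => Split_top D _ i hi
            hA := fun i _ => by rw [Split_u]; abel
            hB := fun i hi => ?_
            hφ0 := by rw [Split_phi, if_pos (Or.inl rfl)]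
            hφd := fun i hi => by rw [Split_phi, if_pos (Or.inr hi)]
            hφ := fun i hi => ?_ }, rfl⟩
  · rw [← Split_z_eq D E hθ i hi, Split_z]
    abel
  · rw [Split_phi, if_neg (by omega), Nat.add_sub_cancel, Split_z_v1 D E i hi]
    exact div_ne_zero (mul_ne_zero (D.hx i hi) (Split_u_vne D E hθ (i + 1) (by omega)))
      (Split_u_vne D E hθ i (by omega))

end Pool.Agent.AW3
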