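import Pool.Agent.helper39.AW3.Defs

/-!
# Tridiagonal data: cyclic vector, distinct eigenvalues, irreducibility

`cyclic`: by induction `(A ^ k) (v 0) = (nonzero) • v k + combination of v j, j < k`, for `k ≤ d`;
so a nonzero polynomial of degree `n ≤ d` gives a vector with nonzero `v n`-coordinate.
`inj`: if `θ i = θ j` with `i ≠ j` the polynomial `∏_{k ≠ j} (X - θ k)` of degree `d` kills all
`D.v k`, hence everything, against `E.cyclic`.
`irred`: take `x ∈ U`, `x ≠ 0`, with nonzero coordinate `i`; `∏_{j ≠ i} (A - θ j)` maps `x` to a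
nonzero multiple of `v i`, so `v i ∈ U`; apply `B` and then the same projections to `B (v i)` to
get `v (i + 1)` (if `i < d`) and `v (i - 1)` (if `i > 0`); so all `v j ∈ U`.
-/

namespace Pool.Agent.AW3

open Module

variable {K V : Type*} [Field K] [AddCommGroup V] [Module K V]

/-- coordinates of the vectors `v i` -/
private theorem TriB_coord {A B : V →ₗ[K] V} {d : ℕ} (E : TriData A B d) (i : ℕ)
    (m : Fin (d + 1)) : E.b.coord m (E.v i) = if i = (m : ℕ) then 1 else 0 := by
  by_cases hi : i ≤ d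
  · have h := E.hb ⟨i, Nat.lt_succ_of_le hi⟩
    simp only at h
    rw [← h, Basis.coord_apply, Basis.repr_self, Finsupp.single_apply]
    by_cases h1 : i = (m : ℕ)
    · rw [if_pos h1, if_pos (Fin.ext h1)]
    · rw [if_neg h1, if_neg fun h2 => h1 (congrArg Fin.val h2)]
  · rw [E.hv i (not_le.1 hi), map_zero, if_neg]
    intro h
    have := m.2
    omega

/-- coordinates of `B w` -/
private theorem TriB_coordB {A B : V →ₗ[K] V} {d : ℕ} (E : TriData A B d) (w : V)
    (m : Fin (d + 1)) : E.b.coord m (B w) = ∑ j : Fin (d + 1), E.b.coord j w *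
      (E.x j * (if (j : ℕ) - 1 = (m : ℕ) then 1 else 0) +
        E.a j * (if (j : ℕ) = (m : ℕ) then 1 else 0) +
        E.y j * (if (j : ℕ) + 1 = (m : ℕ) then 1 else 0)) := by
  have hw : w = ∑ j : Fin (d + 1), E.b.coord j w • E.b j := (E.b.sum_repr w).symm
  conv_lhs => rw [hw]
  rw [map_sum, map_sum]
  refine Finset.sum_congr rfl fun j _ => ?_
  rw [map_smul, map_smul, smul_eq_mul, E.hb j, E.hB j (Nat.lt_succ_iff.1 j.2), map_add, map_add,
    map_smul, map_smul, map_smul, smul_eq_mul, smul_eq_mul, smul_eq_mul, TriB_coord, TriB_coord,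
    TriB_coord]

private theorem TriB_step {A B : V →ₗ[K] V} {d : ℕ} (E : TriData A B d) {k : ℕ} (hk : k < d)
    {w : V} (hw : ∀ m : Fin (d + 1), k < (m : ℕ) → E.b.coord m w = 0) :
    (∀ m : Fin (d + 1), k + 1 < (m : ℕ) → E.b.coord m (B w) = 0) ∧
      E.b.coord ⟨k + 1, Nat.succ_lt_succ hk⟩ (B w)
        = E.y k * E.b.coord ⟨k, hk.trans (Nat.lt_succ_self d)⟩ w := by
  constructor
  · intro m hm
    rw [TriB_coordB]
    refine Finset.sum_eq_zero fun j _ => ?_
    by_cases hj : k < (j : ℕ)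
    · rw [hw j hj, zero_mul]
    · rw [if_neg (by omega), if_neg (by omega), if_neg (by omega)]
      ring
  · rw [TriB_coordB, Finset.sum_eq_single ⟨k, hk.trans (Nat.lt_succ_self d)⟩]
    · rw [if_neg (show ¬ (k - 1 = k + 1) by omega), if_neg (show ¬ (k = k + 1) by omega),
        if_pos (show k + 1 = k + 1 from rfl)]
      ring
    · intro j _ hj
      by_cases hj1 : k < (j : ℕ)
      · rw [hw j hj1, zero_mul]
      · have hj2 : (j : ℕ) ≠ k := fun h => hj (Fin.ext h)
        rw [if_neg (show ¬ ((j : ℕ) - 1 = k + 1) by omega),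
          if_neg (show ¬ ((j : ℕ) = k + 1) by omega),
          if_neg (show ¬ ((j : ℕ) + 1 = k + 1) by omega)]
        ring
    · intro h
      exact absurd (Finset.mem_univ _) h

private theorem TriB_pow {A B : V →ₗ[K] V} {d : ℕ} (E : TriData A B d) (k : ℕ) :
    ∀ hk : k ≤ d, (∀ m : Fin (d + 1), k < (m : ℕ) → E.b.coord m ((B ^ k) (E.v 0)) = 0) ∧
      E.b.coord ⟨k, Nat.lt_succ_of_le hk⟩ ((B ^ k) (E.v 0)) ≠ 0 := by
  induction k with
  | zero =>
    intro hk
    refine ⟨fun m hm => ?_, ?_⟩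
    · rw [pow_zero, Module.End.one_apply, TriB_coord, if_neg (by omega)]
    · rw [pow_zero, Module.End.one_apply, TriB_coord, if_pos rfl]
      exact one_ne_zero
  | succ k ih =>
    intro hk
    obtain ⟨h1, h2⟩ := ih (by omega)
    obtain ⟨h3, h4⟩ := TriB_step E (show k < d by omega) h1
    have e : (B ^ (k + 1)) (E.v 0) = B ((B ^ k) (E.v 0)) := by
      rw [pow_succ', Module.End.mul_apply]
    rw [e]
    refine ⟨h3, ?_⟩
    rw [h4]
    exact mul_ne_zero (E.hy k (by omega)) h2

/-- If `B` is diagonal and `A` irreducible tridiagonal in the basis `v`, then `v 0` is cyclic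
for `A`: no nonzero polynomial in `A` of degree at most `d` kills `v 0`. -/
theorem TriData.cyclic {A B : V →ₗ[K] V} {d : ℕ} (E : TriData B A d) (P : Polynomial K)
    (hP : P ≠ 0) (hdeg : P.natDegree ≤ d) : Polynomial.aeval A P (E.v 0) ≠ 0 := by
  intro h
  have h1 : E.b.coord ⟨P.natDegree, Nat.lt_succ_of_le hdeg⟩ (Polynomial.aeval A P (E.v 0)) = 0 := by
    rw [h, map_zero]
  rw [Polynomial.aeval_eq_sum_range, LinearMap.sum_apply, map_sum,
    Finset.sum_eq_single P.natDegree] at h1
  · rw [LinearMap.smul_apply, map_smul, smul_eq_mul] at h1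
    rcases mul_eq_zero.1 h1 with h2 | h2
    · exact hP (Polynomial.leadingCoeff_eq_zero.1 h2)
    · exact (TriB_pow E P.natDegree hdeg).2 h2
  · intro k hk hkn
    have hk' : k < P.natDegree := by
      rw [Finset.mem_range] at hk
      omega
    rw [LinearMap.smul_apply, map_smul, (TriB_pow E k (by omega)).1 _ hk', smul_zero]
  · intro h2
    exact absurd (Finset.mem_range.2 (Nat.lt_succ_self _)) h2

private theorem TriB_aeval (A : V →ₗ[K] V) {w : V} {t : K} (h : A w = t • w)
    (P : Polynomial K) : Polynomial.aeval A P w = P.eval t • w := by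
  have hpow : ∀ n : ℕ, (A ^ n) w = t ^ n • w := by
    intro n
    induction n with
    | zero => rw [pow_zero, pow_zero, Module.End.one_apply, one_smul]
    | succ n ih => rw [pow_succ', Module.End.mul_apply, ih, map_smul, h, smul_smul, pow_succ]
  rw [Polynomial.aeval_eq_sum_range, LinearMap.sum_apply, Polynomial.eval_eq_sum_range,
    Finset.sum_smul]
  refine Finset.sum_congr rfl fun n _ => ?_
  rw [LinearMap.smul_apply, hpow, smul_smul]

private theorem TriB_mem (A : V →ₗ[K] V) (U : Submodule K V) (hA : ∀ x ∈ U, A x ∈ U)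
    (P : Polynomial K) {x : V} (hx : x ∈ U) : Polynomial.aeval A P x ∈ U := by
  have hpow : ∀ n : ℕ, (A ^ n) x ∈ U := by
    intro n
    induction n with
    | zero => rwa [pow_zero, Module.End.one_apply]
    | succ n ih =>
      rw [pow_succ', Module.End.mul_apply]
      exact hA _ ih
  rw [Polynomial.aeval_eq_sum_range, LinearMap.sum_apply]
  refine Submodule.sum_mem _ fun n _ => ?_
  rw [LinearMap.smul_apply]
  exact U.smul_mem _ (hpow n)

/-- The eigenvalues of a Leonard pair are distinct. -/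
theorem TriData.inj {A B : V →ₗ[K] V} {d : ℕ} (D : TriData A B d) (E : TriData B A d) :
    ∀ i j, i ≤ d → j ≤ d → D.θ i = D.θ j → i = j := by
  intro i j hi hj hij
  by_contra hne
  obtain ⟨P, hP⟩ : ∃ P : Polynomial K,
      P = ∏ k ∈ (Finset.range (d + 1)).erase j, (Polynomial.X - Polynomial.C (D.θ k)) := ⟨_, rfl⟩
  have hmon : P.Monic := by
    rw [hP]
    exact Polynomial.monic_prod_of_monic _ _ fun k _ => Polynomial.monic_X_sub_C _
  have hdeg : P.natDegree ≤ d := by
    rw [hP, Polynomial.natDegree_prod_of_monic _ _ fun k _ => Polynomial.monic_X_sub_C _]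
    simp only [Polynomial.natDegree_X_sub_C, Finset.sum_const, smul_eq_mul, mul_one]
    rw [Finset.card_erase_of_mem (Finset.mem_range.2 (by omega)), Finset.card_range]
    omega
  refine E.cyclic P hmon.ne_zero hdeg ?_
  have hzero : Polynomial.aeval A P = 0 := by
    refine D.b.ext fun k => ?_
    rw [D.hb k, TriB_aeval A (D.hA k), LinearMap.zero_apply, hP, Polynomial.eval_prod]
    have hk := k.2
    by_cases hkj : (k : ℕ) = j
    · rw [Finset.prod_eq_zero (i := i) (Finset.mem_erase.2 ⟨hne, Finset.mem_range.2 (by omega)⟩),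
        zero_smul]
      rw [hkj, Polynomial.eval_sub, Polynomial.eval_X, Polynomial.eval_C, hij, sub_self]
    · rw [Finset.prod_eq_zero (i := (k : ℕ)) (Finset.mem_erase.2 ⟨hkj, Finset.mem_range.2 hk⟩),
        zero_smul]
      rw [Polynomial.eval_sub, Polynomial.eval_X, Polynomial.eval_C, sub_self]
  rw [hzero, LinearMap.zero_apply]

private theorem TriB_proj {A B : V →ₗ[K] V} {d : ℕ} (D : TriData A B d)
    (hinj : ∀ i j, i ≤ d → j ≤ d → D.θ i = D.θ j → i = j) (U : Submodule K V)
    (hA : ∀ x ∈ U, A x ∈ U) {x : V} (hx : x ∈ U) (i : Fin (d + 1))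
    (hi : D.b.coord i x ≠ 0) : D.v i ∈ U := by
  obtain ⟨P, hP⟩ : ∃ P : Polynomial K,
      P = ∏ k ∈ (Finset.range (d + 1)).erase (i : ℕ),
        (Polynomial.X - Polynomial.C (D.θ k)) := ⟨_, rfl⟩
  have h1 : Polynomial.aeval A P x = (D.b.coord i x * P.eval (D.θ i)) • D.v i := by
    conv_lhs => rw [← D.b.sum_repr x]
    rw [map_sum, Finset.sum_eq_single i]
    · rw [map_smul, D.hb i, TriB_aeval A (D.hA i), smul_smul, Basis.coord_apply]
    · intro k _ hki
      have hki' : (k : ℕ) ≠ i := fun h => hki (Fin.ext h)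
      rw [map_smul, D.hb k, TriB_aeval A (D.hA k), hP, Polynomial.eval_prod,
        Finset.prod_eq_zero (i := (k : ℕ)) (Finset.mem_erase.2 ⟨hki', Finset.mem_range.2 k.2⟩),
        zero_smul, smul_zero]
      rw [Polynomial.eval_sub, Polynomial.eval_X, Polynomial.eval_C, sub_self]
    · intro h
      exact absurd (Finset.mem_univ _) h
  have h2 : P.eval (D.θ i) ≠ 0 := by
    rw [hP, Polynomial.eval_prod, Finset.prod_ne_zero_iff]
    intro k hk
    rw [Finset.mem_erase, Finset.mem_range] at hk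
    rw [Polynomial.eval_sub, Polynomial.eval_X, Polynomial.eval_C, sub_ne_zero]
    intro h
    exact hk.1 (hinj i k (Nat.lt_succ_iff.1 i.2) (Nat.lt_succ_iff.1 hk.2) h).symm
  have h3 := TriB_mem A U hA P hx
  rw [h1] at h3
  exact (U.smul_mem_iff (mul_ne_zero hi h2)).1 h3

/-- Irreducibility. -/
theorem TriData.irred {A B : V →ₗ[K] V} {d : ℕ} (D : TriData A B d)
    (hinj : ∀ i j, i ≤ d → j ≤ d → D.θ i = D.θ j → i = j) (U : Submodule K V)
    (hA : ∀ x ∈ U, A x ∈ U) (hB : ∀ x ∈ U, B x ∈ U) (hU : U ≠ ⊥) : U = ⊤ := by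
  have hup : ∀ i, i < d → D.v i ∈ U → D.v (i + 1) ∈ U := by
    intro i hi h
    have h1 := hB _ h
    refine TriB_proj D hinj U hA h1 ⟨i + 1, Nat.succ_lt_succ hi⟩ ?_
    rw [D.hB i hi.le, map_add, map_add, map_smul, map_smul, map_smul, TriB_coord, TriB_coord,
      TriB_coord, if_neg (show ¬ (i - 1 = i + 1) by omega), if_neg (show ¬ (i = i + 1) by omega),
      if_pos (show i + 1 = i + 1 from rfl), smul_zero, smul_zero, zero_add, zero_add, smul_eq_mul,
      mul_one]
    exact D.hy i hi
  have hdown : ∀ i, i < d → D.v (i + 1) ∈ U → D.v i ∈ U := by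
    intro i hi h
    have h1 := hB _ h
    refine TriB_proj D hinj U hA h1 ⟨i, hi.trans (Nat.lt_succ_self d)⟩ ?_
    rw [D.hB (i + 1) hi, map_add, map_add, map_smul, map_smul, map_smul, TriB_coord, TriB_coord,
      TriB_coord, if_pos (show i + 1 - 1 = i from rfl), if_neg (show ¬ (i + 1 = i) by omega),
      if_neg (show ¬ (i + 1 + 1 = i) by omega), smul_zero, smul_zero, add_zero, add_zero,
      smul_eq_mul, mul_one]
    exact D.hx i hi
  obtain ⟨x, hx, hx0⟩ := U.ne_bot_iff.1 hU
  obtain ⟨i, hi⟩ : ∃ i : Fin (d + 1), D.b.coord i x ≠ 0 := by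
    by_contra hcon
    push Not at hcon
    exact hx0 (D.b.forall_coord_eq_zero_iff.1 hcon)
  have hvi : D.v i ∈ U := TriB_proj D hinj U hA hx i hi
  have h0 : ∀ k : ℕ, k ≤ d → D.v k ∈ U → D.v 0 ∈ U := by
    intro k
    induction k with
    | zero => exact fun _ h => h
    | succ k ih => exact fun hk h => ih (by omega) (hdown k (by omega) h)
  have hv0 : D.v 0 ∈ U := h0 i (Nat.lt_succ_iff.1 i.2) hvi
  have hall : ∀ k : ℕ, k ≤ d → D.v k ∈ U := by
    intro k
    induction k with
    | zero => exact fun _ => hv0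
    | succ k ih => exact fun hk => hup k (by omega) (ih (by omega))
  rw [eq_top_iff, ← D.b.span_eq, Submodule.span_le]
  rintro _ ⟨k, rfl⟩
  rw [D.hb k]
  exact hall k (Nat.lt_succ_iff.1 k.2)

end Pool.Agent.AW3
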