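import Pool.Agent.helper39.AW3.TriB

/-!
# Eigenbases

`eigenbasis`: `C` is diagonal in some basis (necessarily of size `finrank = d + 1`, reindex);
if two of its eigenvalues coincide, the product of `(X - ν)` over the distinct eigenvalues `ν` has
degree `≤ d` and kills everything, in particular `D.v 0`, against `TriData.cyclic` (for `C`, as
`D : TriData A C d`).
`eigenbasis_of_charpoly`: each `μ j` is a root of the characteristic polynomial, hence an
eigenvalue; eigenvectors for distinct eigenvalues are independent
(`Module.End.eigenvectors_linearIndependent'`), and there are `d + 1 = finrank` of them.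
-/

namespace Pool.Agent.AW3

open Module

variable {K V : Type*} [Field K] [AddCommGroup V] [Module K V]

/-- A diagonalizable map which is irreducible tridiagonal in some basis has distinct
eigenvalues (and a basis of eigenvectors indexed by `Fin (d + 1)`). -/
theorem TriData.eigenbasis {A C : V →ₗ[K] V} {d : ℕ} (D : TriData A C d)
    (hC : Diagonalizable C) :
    ∃ (w : Basis (Fin (d + 1)) K V) (ν : Fin (d + 1) → K), Function.Injective ν ∧
      ∀ i, C (w i) = ν i • w i := by
  classical
  obtain ⟨n, b, hdiag⟩ := hC
  have hn : n = d + 1 := by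
    have h1 := Module.finrank_eq_card_basis b
    have h2 := Module.finrank_eq_card_basis D.b
    rw [h1] at h2
    simpa using h2
  subst hn
  set ν : Fin (d + 1) → K := fun i => LinearMap.toMatrix b b C i i with hν
  have hCb : ∀ i, C (b i) = ν i • b i := by
    intro i
    apply b.ext_elem
    intro j
    rw [map_smul, Finsupp.smul_apply, Basis.repr_self, ← LinearMap.toMatrix_apply]
    by_cases hij : i = j
    · subst hij
      simp [hν]
    · rw [Finsupp.single_eq_of_ne (Ne.symm hij), smul_zero]
      exact hdiag (Ne.symm hij)
  refine ⟨b, ν, ?_, hCb⟩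
  intro i j hij
  by_contra hne
  set P : Polynomial K := ∏ k ∈ Finset.univ.erase i, (Polynomial.X - Polynomial.C (ν k)) with hP
  have hmonic : P.Monic := Polynomial.monic_prod_of_monic _ _ fun k _ => Polynomial.monic_X_sub_C _
  have hdeg : P.natDegree ≤ d := by
    rw [hP, Polynomial.natDegree_prod_of_monic _ _ fun k _ => Polynomial.monic_X_sub_C _]
    simp
  refine D.cyclic P hmonic.ne_zero hdeg ?_
  have hkill : Polynomial.aeval C P = 0 := by
    apply b.ext
    intro k
    have hev : Module.End.HasEigenvector C (ν k) (b k) :=
      ⟨Module.End.mem_eigenspace_iff.2 (hCb k), b.ne_zero k⟩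
    rw [Module.End.aeval_apply_of_hasEigenvector hev]
    have hz : P.eval (ν k) = 0 := by
      rw [hP, Polynomial.eval_prod]
      by_cases hk : k = i
      · subst hk
        refine Finset.prod_eq_zero (Finset.mem_erase.2 ⟨fun h => hne h.symm, Finset.mem_univ j⟩) ?_
        simp [hij]
      · refine Finset.prod_eq_zero (Finset.mem_erase.2 ⟨hk, Finset.mem_univ k⟩) ?_
        simp
    rw [hz, zero_smul]
    rfl
  rw [hkill]
  rfl


/-- A map whose characteristic polynomial has distinct roots is diagonalizable. -/
theorem eigenbasis_of_charpoly [Module.Finite K V] {C : V →ₗ[K] V} {d : ℕ}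
    (hV : finrank K V = d + 1)
    (μ : ℕ → K) (hμ : ∀ i j, i ≤ d → j ≤ d → μ i = μ j → i = j)
    (hC : C.charpoly = ∏ j ∈ Finset.range (d + 1), (Polynomial.X - Polynomial.C (μ j))) :
    ∃ w : Basis (Fin (d + 1)) K V, ∀ i : Fin (d + 1), C (w i) = μ i • w i := by
  classical
  have hroot : ∀ i : Fin (d + 1), C.charpoly.IsRoot (μ i) := by
    intro i
    rw [hC, Polynomial.IsRoot, Polynomial.eval_prod]
    refine Finset.prod_eq_zero (Finset.mem_range.2 i.2) ?_
    simp
  have hev : ∀ i : Fin (d + 1), ∃ x : V, Module.End.HasEigenvector C (μ i) x := by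
    intro i
    exact (Module.End.hasEigenvalue_iff_isRoot_charpoly C (μ i)).2 (hroot i) |>.exists_hasEigenvector
  choose x hx using hev
  have hinj : Function.Injective fun i : Fin (d + 1) => μ i := by
    intro i j hij
    exact Fin.ext (hμ i j (Nat.lt_succ_iff.1 i.2) (Nat.lt_succ_iff.1 j.2) hij)
  have hli : LinearIndependent K x :=
    Module.End.eigenvectors_linearIndependent' C (fun i : Fin (d + 1) => μ i) hinj x hx
  refine ⟨basisOfLinearIndependentOfCardEqFinrank hli (by simp [hV]), ?_⟩
  intro i
  rw [coe_basisOfLinearIndependentOfCardEqFinrank]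
  exact (hx i).apply_eq_smul


end Pool.Agent.AW3
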