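import Pool.Agent.helper39.AW3.TriA
import Pool.Agent.helper39.AW3.TriB
import Pool.Agent.helper39.AW3.TriC
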