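import Pool.Agent.helper39.AW3.Defs

/-!
# Tridiagonal data: existence, reversal, duality
-/

namespace Pool.Agent.AW3

open Module

variable {K V : Type*} [Field K] [AddCommGroup V] [Module K V]

/-- An eigenbasis of `A` in which `B` is irreducible tridiagonal gives `TriData`. -/
theorem triData_of {A B : V →ₗ[K] V} {d : ℕ} (b : Basis (Fin (d + 1)) K V) (θ : ℕ → K)
    (hA : ∀ i : Fin (d + 1), A (b i) = θ i • b i)
    (hB : IrredTridiagonal (LinearMap.toMatrix b b B)) :
    ∃ D : TriData A B d, D.θ = θ ∧ D.b = b ∧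
      ∀ i : Fin (d + 1), D.a i = LinearMap.toMatrix b b B i i := by
  classical
  let M : ℕ → ℕ → K := fun i j =>
    if h : i < d + 1 ∧ j < d + 1 then LinearMap.toMatrix b b B ⟨i, h.1⟩ ⟨j, h.2⟩ else 0
  have hM : ∀ (i j : ℕ) (hi : i < d + 1) (hj : j < d + 1),
      M i j = LinearMap.toMatrix b b B ⟨i, hi⟩ ⟨j, hj⟩ := fun i j hi hj => dif_pos ⟨hi, hj⟩
  let v : ℕ → V := fun i => if h : i < d + 1 then b ⟨i, h⟩ else 0
  have hv : ∀ (i : ℕ) (hi : i < d + 1), v i = b ⟨i, hi⟩ := fun i hi => dif_pos hi
  have hv0 : ∀ i : ℕ, d < i → v i = 0 := fun i hi => dif_neg (by omega)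
  have hrep : ∀ (j : ℕ) (k : Fin (d + 1)), b.repr (v j) k = if j = (k : ℕ) then 1 else 0 := by
    intro j k
    by_cases hj : j < d + 1
    · rw [hv j hj, Basis.repr_self, Finsupp.single_apply]
      simp only [Fin.ext_iff]
    · rw [hv0 j (by omega), map_zero, if_neg (by have := k.2; omega)]
      rfl
  refine ⟨{ v := v, θ := θ, a := fun i => M i i, x := fun i => if i = 0 then 0 else M (i - 1) i,
            y := fun i => M (i + 1) i, b := b, hb := ?_, hv := hv0, hA := ?_, hB := ?_,
            hx0 := if_pos rfl, hx := ?_, hy := ?_ }, rfl, rfl, ?_⟩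
  · intro i
    rw [hv i i.2]
  · intro i
    by_cases hi : i < d + 1
    · rw [hv i hi]
      exact hA ⟨i, hi⟩
    · rw [hv0 i (by omega), map_zero, smul_zero]
  · intro i hi
    have hi' : i < d + 1 := by omega
    apply b.ext_elem
    intro k
    have hk := k.2
    have h1 : b.repr (B (v i)) k = M k i := by
      rw [hM k i k.2 hi', LinearMap.toMatrix_apply, hv i hi']
    rw [h1]
    simp only [map_add, map_smul, Finsupp.add_apply, Finsupp.smul_apply, smul_eq_mul, hrep]
    by_cases e1 : (k : ℕ) = i
    · have e2 : ¬ (i + 1 = (k : ℕ)) := by omega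
      rw [if_neg e2, if_pos e1.symm, e1]
      by_cases e3 : i = 0
      · rw [if_pos e3]; ring
      · rw [if_neg (show ¬ (i - 1 = i) by omega)]; ring
    by_cases e2 : (k : ℕ) + 1 = i
    · rw [if_neg (show ¬ (i = (k : ℕ)) by omega), if_neg (show ¬ (i + 1 = (k : ℕ)) by omega),
        if_neg (show ¬ (i = 0) by omega), if_pos (show i - 1 = (k : ℕ) by omega),
        show i - 1 = (k : ℕ) by omega]
      ring
    by_cases e3 : i + 1 = (k : ℕ)
    · rw [if_pos e3, if_neg (show ¬ (i = (k : ℕ)) by omega),
        if_neg (show ¬ (i - 1 = (k : ℕ)) by omega), e3]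
      ring
    · rw [if_neg e3, if_neg (show ¬ (i = (k : ℕ)) by omega)]
      have h2 : M k i = 0 := by
        rw [hM k i k.2 hi']
        exact hB.1 _ _ (by show (k : ℕ) + 1 < i ∨ i + 1 < k; omega)
      rw [h2]
      by_cases e4 : i = 0
      · rw [if_pos e4]; ring
      · rw [if_neg (show ¬ (i - 1 = (k : ℕ)) by omega)]; ring
  · intro i hi
    have h1 : (if i + 1 = 0 then 0 else M (i + 1 - 1) (i + 1)) = M i (i + 1) := by
      rw [if_neg (by omega)]; rfl
    rw [h1, hM i (i + 1) (by omega) (by omega)]
    exact hB.2 _ _ (Or.inl rfl)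
  · intro i hi
    rw [hM (i + 1) i (by omega) (by omega)]
    exact hB.2 _ _ (Or.inr rfl)
  · intro i
    exact hM i i i.2 i.2

private theorem TriData.repr_v {A B : V →ₗ[K] V} {d : ℕ} (D : TriData A B d) (j : ℕ)
    (k : Fin (d + 1)) : D.b.repr (D.v j) k = if j = (k : ℕ) then 1 else 0 := by
  classical
  by_cases hj : j < d + 1
  · rw [show D.v j = D.b ⟨j, hj⟩ from (D.hb ⟨j, hj⟩).symm, Basis.repr_self,
      Finsupp.single_apply]
    simp only [Fin.ext_iff]
  · rw [D.hv j (by omega), map_zero, if_neg (by have := k.2; omega)]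
    rfl

/-- Conversely the basis of a `TriData` makes `A` diagonal and `B` irreducible tridiagonal. -/
theorem TriData.isDiag {A B : V →ₗ[K] V} {d : ℕ} (D : TriData A B d) :
    (LinearMap.toMatrix D.b D.b A).IsDiag ∧
      IrredTridiagonal (LinearMap.toMatrix D.b D.b B) := by
  classical
  have hB : ∀ i j : Fin (d + 1), LinearMap.toMatrix D.b D.b B i j =
      D.x j * (if (j : ℕ) - 1 = i then 1 else 0) + D.a j * (if (j : ℕ) = i then 1 else 0)
        + D.y j * (if (j : ℕ) + 1 = i then 1 else 0) := by
    intro i j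
    rw [LinearMap.toMatrix_apply, D.hb j, D.hB j (by have := j.2; omega)]
    simp only [map_add, map_smul, Finsupp.add_apply, Finsupp.smul_apply, smul_eq_mul, D.repr_v]
  refine ⟨?_, ?_, ?_⟩
  · intro i j hij
    rw [LinearMap.toMatrix_apply, D.hb j, D.hA j, map_smul, Finsupp.smul_apply, D.repr_v,
      if_neg (fun h => hij (Fin.ext h.symm)), smul_zero]
  · intro i j hij
    rw [hB, if_neg (show ¬ ((j : ℕ) = i) by omega), if_neg (show ¬ ((j : ℕ) + 1 = i) by omega)]
    by_cases e : (j : ℕ) = 0
    · rw [e, D.hx0]; ring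
    · rw [if_neg (show ¬ ((j : ℕ) - 1 = i) by omega)]; ring
  · intro i j hij
    have hi := i.2
    have hj := j.2
    rw [hB]
    rcases hij with h | h
    · rw [if_pos (show (j : ℕ) - 1 = i by omega), if_neg (show ¬ ((j : ℕ) = i) by omega),
        if_neg (show ¬ ((j : ℕ) + 1 = i) by omega), ← h]
      have := D.hx i (by omega)
      simpa using this
    · rw [if_neg (show ¬ ((j : ℕ) - 1 = i) by omega), if_neg (show ¬ ((j : ℕ) = i) by omega),
        if_pos h]
      have := D.hy j (by omega)
      simpa using this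

/-- The reversed data. -/
theorem TriData.exists_rev {A B : V →ₗ[K] V} {d : ℕ} (D : TriData A B d) :
    ∃ D' : TriData A B d, D'.θ = fun i => D.θ (d - i) := by
  classical
  obtain ⟨D', h, -, -⟩ := triData_of (A := A) (B := B) (D.b.reindex Fin.revPerm)
    (fun i => D.θ (d - i)) (fun i => by
      have hi := i.2
      rw [Basis.reindex_apply, D.hb, D.hA]
      congr 2
      simp [Fin.val_rev]) (by
      obtain ⟨h1, h2⟩ := D.isDiag.2
      have e : ∀ i j : Fin (d + 1), LinearMap.toMatrix (D.b.reindex Fin.revPerm)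
          (D.b.reindex Fin.revPerm) B i j =
          LinearMap.toMatrix D.b D.b B (Fin.rev i) (Fin.rev j) := by
        intro i j
        simp [LinearMap.toMatrix_apply, Basis.reindex_apply]
      constructor
      · intro i j hij
        have hi := i.2
        have hj := j.2
        rw [e]
        apply h1
        simp only [Fin.val_rev]
        omega
      · intro i j hij
        have hi := i.2
        have hj := j.2
        rw [e]
        apply h2
        simp only [Fin.val_rev]
        omega)
  exact ⟨D', h⟩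

/-- The dual data. -/
theorem TriData.exists_dual {A B : V →ₗ[K] V} {d : ℕ} (D : TriData A B d) :
    ∃ D' : TriData A.dualMap B.dualMap d, D'.θ = D.θ := by
  classical
  obtain ⟨D', h, -, -⟩ := triData_of (A := A.dualMap) (B := B.dualMap) D.b.dualBasis
    D.θ (fun i => by
      apply D.b.ext
      intro j
      rw [LinearMap.dualMap_apply, D.hb j, D.hA j, map_smul, LinearMap.smul_apply, ← D.hb j]
      rw [Basis.dualBasis_apply_self]
      by_cases hij : j = i
      · rw [hij]
      · rw [if_neg hij, smul_zero, smul_zero]) (by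
      obtain ⟨h1, h2⟩ := D.isDiag.2
      have e : ∀ i j : Fin (d + 1), LinearMap.toMatrix D.b.dualBasis D.b.dualBasis B.dualMap i j =
          LinearMap.toMatrix D.b D.b B j i := by
        intro i j
        rw [LinearMap.toMatrix_apply, LinearMap.toMatrix_apply, Basis.dualBasis_repr,
          LinearMap.dualMap_apply, Basis.dualBasis_apply]
      constructor
      · intro i j hij
        rw [e]
        exact h1 _ _ hij.symm
      · intro i j hij
        rw [e]
        exact h2 _ _ hij.symm)
  exact ⟨D', h⟩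

end Pool.Agent.AW3
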