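import Pool.Agent.helper39.AW3.Core

/-!
# From the two flags to the Leonard triple
-/

namespace Pool.Agent.AW3

open Module

variable {K V : Type*} [Field K] [AddCommGroup V] [Module K V]

theorem mem_span_five {R : Type*} [Ring R] [Algebra K R] {x a b c d e : R}
    (h : x ∈ Submodule.span K {a, b, c, d, e}) :
    ∃ e0 e1 e2 e3 e4 : K, x = e0 • a + e1 • b + e2 • c + e3 • d + e4 • e := by
  rw [Submodule.mem_span_insert] at h
  obtain ⟨e0, z, hz, rfl⟩ := h
  rw [Submodule.mem_span_insert] at hz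
  obtain ⟨e1, y, hy, rfl⟩ := hz
  rw [Submodule.mem_span_insert] at hy
  obtain ⟨e2, t, ht, rfl⟩ := hy
  rw [Submodule.mem_span_insert] at ht
  obtain ⟨e3, s, hs, rfl⟩ := ht
  rw [Submodule.mem_span_singleton] at hs
  obtain ⟨e4, rfl⟩ := hs
  exact ⟨e0, e1, e2, e3, e4, by abel⟩

theorem ThirdElement.third {A B C : V →ₗ[K] V} (h : ThirdElement A B C) {e0 e1 e2 e3 e4 : K}
    (he : C = e0 • (1 : V →ₗ[K] V) + e1 • A + e2 • B + e3 • (A * B) + e4 • (B * A)) :
    Third A B C e0 e1 e2 e3 e4 := by
  obtain ⟨-, h2, h3, h4, h5, h6⟩ := h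
  obtain ⟨f0, f1, f2, f3, f4, hf⟩ := mem_span_five h3
  obtain ⟨g0, g1, g2, g3, g4, hg⟩ := mem_span_five h2
  refine ⟨he, ⟨f0, f2, f1, f3, f4, ?_⟩, ⟨g0, g1, g2, g4, g3, ?_⟩, h4.1, h6.1, h5.1⟩
  · rw [hf]; abel
  · rw [hg]; abel

theorem ThirdElement.exists_coeff {A B C : V →ₗ[K] V} (h : ThirdElement A B C) :
    ∃ e0 e1 e2 e3 e4 : K,
      C = e0 • (1 : V →ₗ[K] V) + e1 • A + e2 • B + e3 • (A * B) + e4 • (B * A) :=
  mem_span_five h.1

section

variable {A B C : V →ₗ[K] V} {d : ℕ} {e0 e1 e2 e3 e4 : K}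

theorem third_ne (D : TriData A B d) (h : Third A B C e0 e1 e2 e3 e4) :
    (∀ i, i < d → e2 + e3 * D.θ i + e4 * D.θ (i + 1) ≠ 0) ∧
      (∀ i, i < d → e2 + e3 * D.θ (i + 1) + e4 * D.θ i ≠ 0) := by
  obtain ⟨f0, f1, f2, f3, f4, hB⟩ := h.hB
  have pg := pg_one D h.hC hB
  exact ⟨fun i hi => left_ne_zero_of_mul_eq_one (pg i hi).1,
    fun i hi => left_ne_zero_of_mul_eq_one (pg i hi).2⟩

/-- Irreducibility of `A` in an eigenbasis of `C`. -/
theorem irred_of_hess (D : TriData A B d) (D' : TriData B A d)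
    (h : Third A B C e0 e1 e2 e3 e4)
    (w : Basis (Fin (d + 1)) K V) (ν : Fin (d + 1) → K) (hw : ∀ i, C (w i) = ν i • w i)
    (hess : ∀ i j : Fin (d + 1), (j : ℕ) + 1 < i →
      LinearMap.toMatrix w w A i j = 0 ∧ LinearMap.toMatrix w w A j i = 0) :
    IrredTridiagonal (LinearMap.toMatrix w w A) := by
  obtain ⟨f0, f1, f2, f3, f4, hB⟩ := h.hB
  have hirr := third_irred D (D.inj D') hB
  have hAw : ∀ i, A (w i) = ∑ k, LinearMap.toMatrix w w A k i • w k := by
    intro i
    simp only [LinearMap.toMatrix_apply]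
    exact (w.sum_repr (A (w i))).symm
  -- an invariant set of indices is trivial
  have key : ∀ s : Set (Fin (d + 1)), s.Nonempty → sᶜ.Nonempty →
      (∀ i ∈ s, ∀ k ∉ s, LinearMap.toMatrix w w A k i = 0) → False := by
    intro s hs hs' hz
    have h1 : Submodule.span K (w '' s) = ⊤ := by
      refine hirr _ ?_ ?_ ?_
      · intro x hx
        refine Submodule.span_induction (p := fun x _ => A x ∈ Submodule.span K (w '' s))
          ?_ ?_ ?_ ?_ hx
        · rintro _ ⟨i, hi, rfl⟩
          rw [hAw]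
          refine Submodule.sum_mem _ fun k _ => ?_
          by_cases hk : k ∈ s
          · exact Submodule.smul_mem _ _ (Submodule.subset_span ⟨k, hk, rfl⟩)
          · rw [hz i hi k hk, zero_smul]; exact Submodule.zero_mem _
        · rw [map_zero]; exact Submodule.zero_mem _
        · intro x y _ _ hx hy
          rw [map_add]; exact Submodule.add_mem _ hx hy
        · intro a x _ hx
          rw [map_smul]; exact Submodule.smul_mem _ _ hx
      · intro x hx
        refine Submodule.span_induction (p := fun x _ => C x ∈ Submodule.span K (w '' s))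
          ?_ ?_ ?_ ?_ hx
        · rintro _ ⟨i, hi, rfl⟩
          rw [hw]
          exact Submodule.smul_mem _ _ (Submodule.subset_span ⟨i, hi, rfl⟩)
        · rw [map_zero]; exact Submodule.zero_mem _
        · intro x y _ _ hx hy
          rw [map_add]; exact Submodule.add_mem _ hx hy
        · intro a x _ hx
          rw [map_smul]; exact Submodule.smul_mem _ _ hx
      · intro hbot
        obtain ⟨i, hi⟩ := hs
        have : w i ∈ Submodule.span K (w '' s) := Submodule.subset_span ⟨i, hi, rfl⟩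
        rw [hbot, Submodule.mem_bot] at this
        exact w.ne_zero i this
    obtain ⟨k, hk⟩ := hs'
    have h2 : w k ∈ Submodule.span K (w '' s) := by rw [h1]; exact Submodule.mem_top
    rw [w.mem_span_image] at h2
    apply hk
    apply h2
    rw [w.repr_self]
    simp
  refine ⟨?_, ?_⟩
  · rintro i j (hij | hij)
    · exact (hess j i hij).2
    · exact (hess i j hij).1
  · rintro i j (hij | hij)
    · -- `i + 1 = j`: the entry `(i, j)`; the set `{k | k ≥ j}` would be invariant
      intro h0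
      refine key {k | j ≤ k} ⟨j, le_refl j⟩ ⟨i, ?_⟩ ?_
      · simp only [Set.mem_compl_iff, Set.mem_setOf_eq, not_le]
        exact Fin.lt_def.2 (by omega)
      · intro a ha b hb
        simp only [Set.mem_setOf_eq, not_le] at ha hb
        have ha' : (j : ℕ) ≤ a := ha
        have hb' : (b : ℕ) < j := hb
        by_cases hab : (b : ℕ) + 1 < a
        · exact (hess a b hab).2
        · have e1 : a = j := Fin.ext (by omega)
          have e2 : b = i := Fin.ext (by omega)
          rw [e1, e2]; exact h0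
    · -- `j + 1 = i`: the set `{k | k ≤ j}` would be invariant
      intro h0
      refine key {k | k ≤ j} ⟨j, le_refl j⟩ ⟨i, ?_⟩ ?_
      · simp only [Set.mem_compl_iff, Set.mem_setOf_eq, not_le]
        exact Fin.lt_def.2 (by omega)
      · intro a ha b hb
        simp only [Set.mem_setOf_eq, not_le] at ha hb
        have ha' : (a : ℕ) ≤ j := ha
        have hb' : (j : ℕ) < b := hb
        by_cases hab : (a : ℕ) + 1 < b
        · exact (hess b a hab).1
        · have e1 : a = j := Fin.ext (by omega)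
          have e2 : b = i := Fin.ext (by omega)
          rw [e1, e2]; exact h0

/-- The second map in an eigenbasis of `C`. -/
theorem irred_second (h : Third A B C e0 e1 e2 e3 e4)
    (w : Basis (Fin (d + 1)) K V) (ν : Fin (d + 1) → K) (hw : ∀ i, C (w i) = ν i • w i)
    (hA : IrredTridiagonal (LinearMap.toMatrix w w A)) :
    IrredTridiagonal (LinearMap.toMatrix w w B) := by
  obtain ⟨f0, f1, f2, f3, f4, hB⟩ := h.hB
  obtain ⟨g0, g1, g2, g3, g4, hA'⟩ := h.hA
  have hCe : ∀ i j, LinearMap.toMatrix w w C i j = if i = j then ν j else 0 := by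
    intro i j
    rw [LinearMap.toMatrix_apply, hw, map_smul, Finsupp.smul_apply, w.repr_self,
      Finsupp.single_apply, smul_eq_mul]
    by_cases hij : j = i
    · rw [if_pos hij, if_pos hij.symm, mul_one]
    · rw [if_neg hij, if_neg (Ne.symm hij), mul_zero]
  have hoff : ∀ (T S : V →ₗ[K] V) (a0 a1 a2 a3 a4 : K),
      T = a0 • (1 : V →ₗ[K] V) + a1 • S + a2 • C + a3 • (C * S) + a4 • (S * C) →
      ∀ i j, i ≠ j → LinearMap.toMatrix w w T i j
        = (a1 + a3 * ν i + a4 * ν j) * LinearMap.toMatrix w w S i j := by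
    intro T S a0 a1 a2 a3 a4 hT i j hij
    have e1 : LinearMap.toMatrix w w (C * S) i j = ν i * LinearMap.toMatrix w w S i j := by
      rw [LinearMap.toMatrix_mul, Matrix.mul_apply, Finset.sum_eq_single i]
      · rw [hCe, if_pos rfl]
      · intro k _ hk
        rw [hCe, if_neg (Ne.symm hk), zero_mul]
      · intro hi; exact absurd (Finset.mem_univ i) hi
    have e2 : LinearMap.toMatrix w w (S * C) i j = LinearMap.toMatrix w w S i j * ν j := by
      rw [LinearMap.toMatrix_mul, Matrix.mul_apply, Finset.sum_eq_single j]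
      · rw [hCe, if_pos rfl]
      · intro k _ hk
        rw [hCe, if_neg hk, mul_zero]
      · intro hi; exact absurd (Finset.mem_univ j) hi
    have e3 : LinearMap.toMatrix w w (1 : V →ₗ[K] V) i j = 0 := by
      rw [LinearMap.toMatrix_one, Matrix.one_apply_ne hij]
    rw [hT]
    simp only [map_add, map_smul, Matrix.add_apply, Matrix.smul_apply, smul_eq_mul]
    rw [e1, e2, e3, hCe, if_neg hij]
    ring
  refine ⟨fun i j hij => ?_, fun i j hij => ?_⟩
  · have hne : i ≠ j := by
      rintro rfl; omega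
    rw [hoff B A f0 f1 f2 f3 f4 hB i j hne, hA.1 i j hij, mul_zero]
  · have hne : i ≠ j := by
      rintro rfl; omega
    have h1 := hA.2 i j hij
    rw [hoff A B g0 g1 g2 g3 g4 hA' i j hne] at h1
    exact right_ne_zero_of_mul h1

theorem triple_of_hess (D : TriData A B d) (D' : TriData B A d)
    (h : Third A B C e0 e1 e2 e3 e4)
    (w : Basis (Fin (d + 1)) K V) (ν : Fin (d + 1) → K) (hw : ∀ i, C (w i) = ν i • w i)
    (hess : ∀ i j : Fin (d + 1), (j : ℕ) + 1 < i →
      LinearMap.toMatrix w w A i j = 0 ∧ LinearMap.toMatrix w w A j i = 0) :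
    LeonardTriple A B C := by
  obtain ⟨hG, hF⟩ := third_ne D h
  obtain ⟨hGs, hFs⟩ := third_ne D' h.symm
  obtain ⟨D2, -, hb2⟩ := triData_third D h.hC hG hF
  obtain ⟨D3, -, hb3⟩ := triData_third D' h.symm.hC hGs hFs
  have hA := irred_of_hess D D' h w ν hw hess
  refine ⟨⟨d + 1, D.b, D.isDiag.1, D.isDiag.2, ?_⟩, ⟨d + 1, D'.b, D'.isDiag.1, ?_,
    D'.isDiag.2⟩, ⟨d + 1, w, ?_, hA, irred_second h w ν hw hA⟩⟩
  · rw [← hb2]; exact D2.isDiag.2
  · rw [← hb3]; exact D3.isDiag.2
  · intro i j hij
    rw [LinearMap.toMatrix_apply, hw, map_smul, Finsupp.smul_apply, w.repr_self,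
      Finsupp.single_eq_of_ne (by exact fun h => hij h), smul_zero]

end

end Pool.Agent.AW3
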