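import Pool.Agent.helper39.AW3.Defs
import Pool.Agent.helper39.AW3.Seq

/-!
# The left and the right eigenvector

Data: a basis `u 0, …, u d` (`u i = 0` for `i > d`) with
`A (u i) = θ i • u i + u (i + 1)` and
`C (u i) = (E * q ^ i) • u (i + 1) + D i • u i + (φ i * (G * p * q ^ i)) • u (i - 1)`,
`φ 0 = 0`, `φ (i + 1) = X (i + 1) * Y i` for `i < d`, `X 0 = 0`, `Y d = 0` (the `Y i` here is
`Y_{i+1}` of the notes), `D i + E q^i Y i + G p q^i X i = μ₀`, `θ i + Y i = m + c [i]`,
`E Y i - G X i = a + b [i]` for `i ≤ d`, where `[i] = br p i`, `p q = 1`.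

Left functional: `l (u i) = ∏_{k < i} Y k` (so `l (u (i+1)) = Y i * l (u i)` also for `i = d`, both
sides being `0`, and `φ i * l (u (i - 1)) = X i * l (u i)` for `i ≤ d`, also for `i = 0`).  Then
`l (C (u i)) = (E q^i Y i + D i + G p q^i X i) l (u i) = μ₀ l (u i)`.  Let `l₁ (u i) = [i] l (u i)`;
`l (A (u i)) = (θ i + Y i) l (u i) = m l (u i) + c l₁ (u i)` and
`l₁ (C (u i)) = l (u i) (E q^i Y i [i+1] + D i [i] + G p q^i X i [i-1])
 = l (u i) ([i] μ₀ + E q^i Y i p^i - G p q^i X i p^{i-1})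
 = l (u i) ([i] μ₀ + E Y i - G X i) = (μ₀ + b) l₁ (u i) + a l (u i)` (for `i = 0` the term with
`X 0 = 0` vanishes; `[i+1] = [i] + p^i`).  Hence `l (A (C x)) = m μ₀ l x + c ((μ₀ + b) l₁ x +
a l x) = (μ₀ + b) l (A x) + κ l x`.

Right vector: `r = ∑_{i ≤ d} r_i u_i` with `r_d = 1`, `r_{i-1} = (G / E) X_i r_i`, i.e.
`r_i = ∏_{k ∈ Ioc i d} (G / E * X k)`.  The coefficient of `u i` in `C r` is
`E q^{i-1} r_{i-1} + D_i r_i + φ_{i+1} G q^i r_{i+1}`, where `E q^{i-1} r_{i-1} = G q^{i-1} X_i r_i`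
and `φ_{i+1} G q^i r_{i+1} = X_{i+1} Y_i G q^i r_{i+1} = E q^i Y_i r_i`; total `μ₀ r_i`.
The coefficient of `u i` in `A r` is `θ_i r_i + r_{i-1} = (θ_i + (G/E) X_i) r_i =
((m - a/E) + (c - b/E) [i]) r_i`; with `r₁ = ∑ [i] r_i u_i` the coefficient of `u i` in `C r₁` is
`r_i (G q^{i-1} X_i [i-1] + D_i [i] + E q^i Y_i [i+1]) = r_i ((μ₀ + b) [i] + a)` as before.
-/

namespace Pool.Agent.AW3

open Module

variable {K V : Type*} [Field K] [AddCommGroup V] [Module K V]

section

variable {A C : V →ₗ[K] V} {d : ℕ} {u : ℕ → V} {θ φ D X Y : ℕ → K}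
  {p q E G μ₀ m c a b : K}

theorem left_vec (bas : Basis (Fin (d + 1)) K V) (hb : ∀ i : Fin (d + 1), bas i = u i)
    (hu : ∀ i, d < i → u i = 0) (hpq : p * q = 1)
    (hA : ∀ i, i ≤ d → A (u i) = θ i • u i + u (i + 1))
    (hC : ∀ i, i ≤ d → C (u i) = (E * q ^ i) • u (i + 1) + D i • u i
      + (φ i * (G * p * q ^ i)) • u (i - 1))
    (hφ0 : φ 0 = 0) (hφ : ∀ i, i < d → φ (i + 1) = X (i + 1) * Y i)
    (hX : X 0 = 0) (hY : Y d = 0)
    (hT : ∀ i, i ≤ d → D i + E * q ^ i * Y i + G * p * q ^ i * X i = μ₀)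
    (hm : ∀ i, i ≤ d → θ i + Y i = m + c * br p i)
    (hab : ∀ i, i ≤ d → E * Y i - G * X i = a + b * br p i) :
    ∃ l : V →ₗ[K] K, l ≠ 0 ∧ (∀ x, l (C x) = μ₀ * l x) ∧
      ∃ κ : K, ∀ x, l (A (C x)) = (μ₀ + b) * l (A x) + κ * l x := by
  have ext : ∀ f g : V →ₗ[K] K, (∀ i, i ≤ d → f (u i) = g (u i)) → ∀ x, f x = g x := by
    intro f g h x
    have : f = g := by
      apply bas.ext
      intro i
      rw [hb]
      exact h i (Nat.le_of_lt_succ i.isLt)
    rw [this]
  have hcon : ∀ f : ℕ → K, ∀ i, i ≤ d →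
      (bas.constr K (fun i : Fin (d + 1) => f i)) (u i) = f i := by
    intro f i hi
    have := bas.constr_basis K (fun i : Fin (d + 1) => f i) ⟨i, Nat.lt_succ_of_le hi⟩
    rw [hb] at this
    exact this
  set P : ℕ → K := fun i => ∏ k ∈ Finset.range i, Y k with hP
  set l : V →ₗ[K] K := bas.constr K (fun i : Fin (d + 1) => P i) with hl
  set l1 : V →ₗ[K] K := bas.constr K (fun i : Fin (d + 1) => br p i * P i) with hl1
  have el : ∀ i, i ≤ d → l (u i) = P i := fun i hi => hcon P i hi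
  have el1 : ∀ i, i ≤ d → l1 (u i) = br p i * P i := fun i hi => hcon (fun j => br p j * P j) i hi
  have els : ∀ i, i ≤ d → l (u (i + 1)) = Y i * P i := by
    intro i hi
    rcases Nat.lt_or_eq_of_le hi with h | h
    · rw [el (i + 1) h, hP]
      simp only [Finset.prod_range_succ]
      ring
    · subst h
      rw [hu (i + 1) (Nat.lt_succ_self i), map_zero, hY, zero_mul]
  have el1s : ∀ i, i ≤ d → l1 (u (i + 1)) = br p (i + 1) * (Y i * P i) := by
    intro i hi
    rcases Nat.lt_or_eq_of_le hi with h | h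
    · rw [el1 (i + 1) h, hP]
      simp only [Finset.prod_range_succ]
      ring
    · subst h
      rw [hu (i + 1) (Nat.lt_succ_self i), map_zero, hY, zero_mul, mul_zero]
  have hlC : ∀ x, l (C x) = μ₀ * l x := by
    intro x
    refine ext (l ∘ₗ C) (μ₀ • l) (fun i hi => ?_) x
    rw [LinearMap.comp_apply, hC i hi, map_add, map_add, map_smul, map_smul, map_smul,
      LinearMap.smul_apply, els i hi, el i hi, smul_eq_mul, smul_eq_mul, smul_eq_mul, smul_eq_mul]
    rw [← hT i hi]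
    cases i with
    | zero => rw [hφ0, hX]; ring
    | succ j =>
      rw [Nat.add_sub_cancel, el j (by omega), hφ j (by omega)]
      have : P (j + 1) = P j * Y j := by rw [hP]; simp only [Finset.prod_range_succ]
      rw [this]
      ring
  have hlA : ∀ x, l (A x) = m * l x + c * l1 x := by
    intro x
    refine ext (l ∘ₗ A) (m • l + c • l1) (fun i hi => ?_) x
    rw [LinearMap.comp_apply, hA i hi, map_add, map_smul, LinearMap.add_apply,
      LinearMap.smul_apply, LinearMap.smul_apply, els i hi, el i hi, el1 i hi, smul_eq_mul,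
      smul_eq_mul, smul_eq_mul]
    linear_combination P i * hm i hi
  have hl1C : ∀ x, l1 (C x) = (μ₀ + b) * l1 x + a * l x := by
    intro x
    refine ext (l1 ∘ₗ C) ((μ₀ + b) • l1 + a • l) (fun i hi => ?_) x
    rw [LinearMap.comp_apply, hC i hi, map_add, map_add, map_smul, map_smul, map_smul,
      LinearMap.add_apply, LinearMap.smul_apply, LinearMap.smul_apply, el1s i hi, el i hi,
      el1 i hi, smul_eq_mul, smul_eq_mul, smul_eq_mul, smul_eq_mul, smul_eq_mul]
    have hpi : p ^ i * q ^ i = 1 := by rw [← mul_pow, hpq, one_pow]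
    cases i with
    | zero =>
      have h1 := hab 0 hi
      rw [hX, br_zero] at h1
      rw [hφ0, br_zero, br_one]
      linear_combination P 0 * h1
    | succ j =>
      rw [Nat.add_sub_cancel, el1 j (by omega), hφ j (by omega)]
      have h2 : P (j + 1) = P j * Y j := by rw [hP]; simp only [Finset.prod_range_succ]
      have h3 : br p (j + 1 + 1) = br p (j + 1) + p ^ (j + 1) := br_succ' p (j + 1)
      have h4 : br p (j + 1) = br p j + p ^ j := br_succ' p j
      have h5 := hT (j + 1) hi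
      have h6 := hab (j + 1) hi
      have h7 : br p j = br p (j + 1) - p ^ j := by rw [h4]; ring
      have h8 : p * q ^ (j + 1) * p ^ j = 1 := by rw [← hpi]; ring
      rw [h2, h3, h7]
      linear_combination (P j * Y j * br p (j + 1)) * h5 + (P j * Y j) * h6 +
        (E * Y (j + 1) * (P j * Y j)) * hpi - (G * X (j + 1) * (P j * Y j)) * h8
  refine ⟨l, fun h => ?_, hlC, c * a - b * m, fun x => ?_⟩
  · have h1 := el 0 (Nat.zero_le d)
    rw [h, hP] at h1
    simp at h1
  · rw [hlA (C x), hlC, hl1C, hlA x]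
    ring

end

end Pool.Agent.AW3
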